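import Pool.Agent.Lib.MP_d3d358_ag.Mv.PDef
import Pool.Agent.Lib.MP_d3d358_ag.Cw.DmB

/-! Linear algebra of cycles modulo rational equivalence. -/

set_option autoImplicit false

namespace Pool.Agent.Lib.MP_d3d358_ag.Mv

open CategoryTheory AlgebraicGeometry Set Matrix Cw

variable {Y : Scheme.{0}} {G : Y → Prop} {a b c a' b' d : Cyc Y} {x : Y}

theorem cyc_of (f : Y → ℚ) (hf : (Function.support f).Finite) : ∃ c : Cyc Y, ∀ z, c z = f z :=
  ⟨⟨f, subset_univ _, fun _ _ => ⟨univ, Filter.univ_mem, hf.subset inter_subset_right⟩⟩,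
    fun _ => rfl⟩

theorem rat_refl (a : Cyc Y) : Cw.Rat a a := ⟨1, one_ne_zero, by simp⟩

theorem rat_symm (h : Cw.Rat a b) : Cw.Rat b a :=
  h.imp fun n k => ⟨k.1, by simpa only [← smul_neg, neg_sub] using neg_mem k.2⟩

theorem cyc_add {e f : Cyc Y} (h : Cw.Rat a b) (h' : Cw.Rat a' b')
    (k : e - f = (a - b) + (a' - b')) : Cw.Rat e f := by
  obtain ⟨n, hn, h⟩ := h
  obtain ⟨m, hm, h'⟩ := h'
  refine ⟨n * m, mul_ne_zero hn hm, ?_⟩
  rw [k, smul_add, mul_smul n m (a' - b'), smul_comm, mul_comm, mul_smul, smul_comm m n (a' - b')]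
  exact add_mem (nsmul_mem h m) (nsmul_mem h' n)

theorem rat_trans (h : Cw.Rat a b) (h' : Cw.Rat b c) : Cw.Rat a c := cyc_add h h' (by abel)

theorem rat_add (h : Cw.Rat a b) (h' : Cw.Rat a' b') : Cw.Rat (a + a') (b + b') :=
  cyc_add h h' (by abel)

theorem Mv1.of (h : G x) : Mv1 G x := fun a k => ⟨a, rat_refl a, fun z hz => k z hz ▸ h⟩

theorem Mvb.add (h : Mvb G a) (k : Mvb G b) : Mvb G (a + b) := by
  obtain ⟨a', h1, h2⟩ := h
  obtain ⟨b', k1, k2⟩ := k
  refine ⟨a' + b', rat_add h1 k1, fun z hz => by_contra fun n => hz ?_⟩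
  change a' z + b' z = 0
  rw [by_contra fun e => n (h2 z e), by_contra fun e => n (k2 z e), add_zero]

theorem Mvb.rat (h : Cw.Rat a b) (k : Mvb G b) : Mvb G a :=
  k.imp fun _ l => ⟨rat_trans h l.1, l.2⟩

theorem Mvb.of_mv1 (hf : (Function.support a).Finite) (h : ∀ x, a x ≠ 0 → Mv1 G x) : Mvb G a := by
  classical
  suffices H : ∀ (s : Finset Y) (a : Cyc Y), (∀ x, a x ≠ 0 → x ∈ s ∧ Mv1 G x) → Mvb G a from
    H hf.toFinset a fun x hx => ⟨hf.mem_toFinset.2 hx, h x hx⟩
  intro s
  induction s using Finset.induction_on with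
  | empty => exact fun a h => ⟨a, rat_refl a, fun z hz => by simpa using (h z hz).1⟩
  | insert x s _ ih =>
    intro a h
    by_cases hx : a x = 0
    · exact ih a fun z hz => ⟨(Finset.mem_insert.1 (h z hz).1).resolve_left
        fun e => hz (e ▸ hx), (h z hz).2⟩
    · obtain ⟨e, he⟩ := cyc_of (fun z => if z = x then a x else 0)
        ((finite_singleton x).subset fun z hz => by_contra fun n => hz (if_neg n))
      rw [← add_sub_cancel e a]
      refine ((h x hx).2 e fun z hz => by_contra fun n => hz ((he z).trans (if_neg n))).add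
        (ih _ fun z hz => ?_)
      change a z - e z ≠ 0 at hz
      have n : z ≠ x := fun n => hz (by rw [he, if_pos n, n, sub_self])
      rw [he, if_neg n, sub_zero] at hz
      exact ⟨(Finset.mem_insert.1 (h z hz).1).resolve_left n, (h z hz).2⟩

/-- a rational multiple of `d` is rationally equivalent to zero -/
theorem Mv1.step (hd : Prin d) (hf : (Function.support d).Finite) (hx : d x ≠ 0)
    (h : ∀ z, d z ≠ 0 → z ≠ x → Mv1 G z) : Mv1 G x := by
  intro a ha
  obtain ⟨q, hq⟩ : ∃ q, q = a x / d x := ⟨_, rfl⟩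
  obtain ⟨e, he⟩ := cyc_of (fun z => q * d z) (hf.subset fun z hz n => hz (by simp [n]))
  have k : ∀ z, (a - e) z ≠ 0 → d z ≠ 0 ∧ z ≠ x := fun z hz => by
    change a z - e z ≠ 0 at hz
    have n : z ≠ x := fun n => hz (by rw [he, n, hq, div_mul_cancel₀ _ hx, sub_self])
    exact ⟨fun m => hz (by rw [he, m, by_contra fun l => n (ha z l), mul_zero, sub_zero]), n⟩
  refine Mvb.rat (b := a - e) ⟨q.den, q.den_nz, ?_⟩
    (.of_mv1 (hf.subset fun z hz => (k z hz).1) fun z hz => h z (k z hz).1 (k z hz).2)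
  have : q.den • (a - (a - e)) = q.num • d := by
    rw [sub_sub_cancel]
    ext z
    change q.den • e z = q.num • d z
    rw [he, nsmul_eq_mul, zsmul_eq_mul, ← mul_assoc, Rat.den_mul_eq_num]
  rw [this]
  exact AddSubgroup.zsmul_mem _ (AddSubgroup.subset_closure (k := {c | Prin c}) hd) _

/-- finitely many components -/
theorem exists_cap {W : Sch} [Gd W] {a b : Cyc W.left}
    (h : ∀ x y, a x ≠ 0 → b y ≠ 0 → GT x y) : ∃ c, Cap a b c := by
  classical
  have fin : ∀ x y : W.left, {z | Meet x y z}.Finite := fun x y => by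
    obtain ⟨s, hs, -⟩ := exists_comp (W := W) (D := closure {x} ∩ closure {y})
      (isClosed_closure.inter isClosed_closure)
    refine s.finite_toSet.subset fun z hz => (hs z).2
      ⟨⟨specializes_iff_mem_closure.1 hz.1, specializes_iff_mem_closure.1 hz.2.1⟩, fun z' k =>
        hz.2.2 z' (specializes_iff_mem_closure.2 k.1) (specializes_iff_mem_closure.2 k.2)⟩
  obtain ⟨c, hc⟩ := cyc_of (fun z => ∑ᶠ x, ∑ᶠ y, if Meet x y z then a x * b y else 0)
    (((supp_fin a).biUnion fun x _ => (supp_fin b).biUnion fun y _ => fin x y).subset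
      fun z hz => by_contra fun n => hz (finsum_eq_zero_of_forall_eq_zero fun x =>
        finsum_eq_zero_of_forall_eq_zero fun y => ite_eq_right_iff.2 fun m => by_contra fun k =>
          n (mem_biUnion (left_ne_zero_of_mul k) (mem_biUnion (right_ne_zero_of_mul k) m))))
  exact ⟨c, fun x y z hx hy => h x y hx hy z, hc⟩

end Pool.Agent.Lib.MP_d3d358_ag.Mv
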