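import Pool.Agent.Lib.MP_d3d358_ag.Mv.Dim

/-! Projections from a centre off the cone are finite. -/

set_option autoImplicit false

namespace Pool.Agent.Lib.MP_d3d358_ag.Mv

open MvPolynomial Set Matrix Topology Filter

variable {ι : Type} [Fintype ι] {N : ℕ} {I₀ I Z : Ideal (Pl ι)} {P : Matrix (Fin N) ι ℂ}
  {v : ι → ℂ}

omit [Fintype ι] in
theorem fin_comp (G : Pl ι) {L : Pl ι} (hL : L.IsHomogeneous 1) (e : ℕ) :
    homogeneousComponent (e + 1) (G * L) = homogeneousComponent e G * L := by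
  conv_lhs => rw [← sum_homogeneousComponent G]
  conv_rhs => rw [← sum_homogeneousComponent G]
  simp only [Finset.sum_mul, map_sum]
  refine Finset.sum_congr rfl fun i _ => ?_
  rw [homogeneousComponent_of_mem ((homogeneousComponent_isHomogeneous i G).mul hL),
    homogeneousComponent_of_mem (homogeneousComponent_mem i G)]
  by_cases h : e = i <;> simp [h]

theorem fin_gen {R A : Type*} [CommRing R] [CommRing A] (f : R →+* A) {s : Set A} (hs : s.Finite)
    (h : ∀ S : AddSubmonoid A, (∀ r, ∀ a ∈ S, f r * a ∈ S) → s ⊆ S → ∀ a, a ∈ S) : f.Finite := by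
  let _ := f.toAlgebra
  exact ⟨Submodule.fg_def.2 ⟨s, hs, eq_top_iff.2 fun a _ => h (Submodule.span R s).toAddSubmonoid
    (fun r _ k => (Submodule.span R s).smul_mem r k) Submodule.subset_span a⟩⟩

theorem fin_pow (h : Bpf P I) :
    ∃ D : ℕ, idealOfVars ι ℂ ^ D ≤ I ⊔ Ideal.span (range (ap P (X : ι → Pl ι))) := by
  refine Ideal.exists_pow_le_of_le_radical_of_fg ?_ (idealOfVars_fg ι ℂ)
  rw [← vanishingIdeal_zeroLocus_eq_radical (K := ℂ), idealOfVars, Ideal.span_le]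
  rintro _ ⟨i, rfl⟩ v hv
  have : v = 0 := h v (fun F hF => hv F (Ideal.mem_sup_left hF)) (funext fun k => by
    rw [← ap_eq, ← aeval_ap]
    exact hv _ (Ideal.mem_sup_right (Ideal.subset_span ⟨k, rfl⟩)))
  simp [this]

/-- Nullstellensatz: `X i ^ m ∈ I + (P)`; a form of large degree is `∑ Gₖ Pₖ` modulo `I` with forms
`Gₖ` of one degree less; induction on the degree -/
theorem Bpf.finite (h : Bpf P I) (hI : Hg I) : (pm P I).toRingHom.Finite := by
  classical
  obtain ⟨D, hD⟩ := fin_pow h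
  refine fin_gen _ ((Finsupp.finite_of_degree_le (σ := ι) D).image
    fun d => Ideal.Quotient.mk I (monomial d (1 : ℂ))) fun S hS hs a => ?_
  replace hS : ∀ r, ∀ a ∈ S, pm P I r * a ∈ S := hS
  have key : ∀ (d : ℕ) (F : Pl ι), F.IsHomogeneous d → Ideal.Quotient.mk I F ∈ S := by
    intro d
    induction d using Nat.strong_induction_on with
    | _ d ih =>
    intro F hF
    by_cases hd : d ≤ D
    · rw [F.as_sum, map_sum]
      refine S.sum_mem fun m hm => ?_
      have e : Ideal.Quotient.mk I (monomial m (coeff m F)) =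
          pm P I (C (coeff m F)) * Ideal.Quotient.mk I (monomial m (1 : ℂ)) := by
        rw [pm, AlgHom.comp_apply, aeval_C, Ideal.Quotient.mkₐ_eq_mk, ← map_mul,
          algebraMap_eq, C_mul_monomial, mul_one]
      rw [e]
      refine hS _ _ (hs ⟨m, ?_, rfl⟩)
      by_contra k
      exact mem_support_iff.1 hm (hF.coeff_eq_zero fun e => k (e.le.trans hd))
    · obtain ⟨e, rfl⟩ : ∃ e, d = e + 1 := ⟨d - 1, by omega⟩
      obtain ⟨f, hf, g, hg, e1⟩ := Submodule.mem_sup.1 (hD ((mem_pow_idealOfVars_iff' D F).2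
        fun m hm => hF.coeff_eq_zero (by omega)))
      obtain ⟨G, rfl⟩ := Ideal.mem_span_range_iff_exists_fun.1 hg
      rw [← homogeneousComponent_eq_self hF, ← e1, map_add, map_add, map_sum, map_sum,
        Ideal.Quotient.eq_zero_iff_mem.2 (hI f hf _), zero_add]
      refine S.sum_mem fun k _ => ?_
      have := hS (X k) _ (ih e e.lt_succ_self _ (homogeneousComponent_isHomogeneous e (G k)))
      rwa [pm, AlgHom.comp_apply, aeval_X, Ideal.Quotient.mkₐ_eq_mk, ← map_mul, mul_comm,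
        ← fin_comp _ (ap_hom P k)] at this
  obtain ⟨F, rfl⟩ := Ideal.Quotient.mk_surjective a
  rw [← sum_homogeneousComponent F, map_sum]
  exact S.sum_mem fun d _ => key d _ (homogeneousComponent_isHomogeneous d F)

theorem Bpf.inj (h : Bpf P I) (hI : Cn I N) : Function.Injective (pm P I) := by
  have := hI.prime
  let y : Fin N → Pl ι ⧸ I := fun k => pm P I (X k)
  have e : pm P I = aeval y := algHom_ext fun k => (aeval_X y k).symm
  let φ : Pl (Fin N) →ₐ[ℂ] Algebra.adjoin ℂ (range y) :=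
    aeval fun k => ⟨y k, Algebra.subset_adjoin ⟨k, rfl⟩⟩
  have e' : (Algebra.adjoin ℂ (range y)).val.comp φ = pm P I := algHom_ext fun k => by
    simp [φ, y]
  have i : (algebraMap (Algebra.adjoin ℂ (range y)) (Pl ι ⧸ I)).IsIntegral := by
    refine RingHom.IsIntegral.tower_top φ.toRingHom _ ?_
    have := (h.finite hI.hg).to_isIntegral
    rw [← e'] at this
    exact this
  have : Algebra.IsIntegral (Algebra.adjoin ℂ (range y)) (Pl ι ⧸ I) := ⟨i⟩
  have := Algebra.IsAlgebraic.isTranscendenceBasis_of_le_trdeg_of_finite ℂ y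
    (by rw [hI.toPr.trdeg]; simp)
  rw [e]
  exact this.1

theorem Bpf.bound (h : Bpf P I) (hI : Hg I) : ∃ C : ℝ, ∀ u ∈ Zs I, ‖u‖ ≤ C * ‖P *ᵥ u‖ := by
  have c : Continuous fun u : ι → ℂ => ‖P *ᵥ u‖ := by fun_prop
  obtain ⟨a, a0, ha⟩ := ((isCompact_sphere (0 : ι → ℂ) 1).inter_left
    (isClosed_Zs I)).exists_forall_le' c.continuousOn (a := 0) fun u hu =>
      norm_pos_iff.2 fun e => by simpa [h u hu.1 e] using hu.2
  refine ⟨a⁻¹, fun u hu => ?_⟩
  by_cases e : u = 0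
  · simp [e]
  have p := norm_pos_iff.2 e
  have := ha (((‖u‖⁻¹ : ℝ) : ℂ) • u) ⟨hI.smul_mem hu _, by
    simp [norm_smul, p.ne']⟩
  rw [mulVec_smul, norm_smul, Complex.norm_real, norm_inv, norm_norm, le_inv_mul_iff₀ p] at this
  rw [le_inv_mul_iff₀ a0, mul_comm]
  exact this

/-- points `y → v` of `Z` off `I` (`dense_Zs`), `P y = P u`, `u` bounded, so `u → v` by uniqueness;
`Unr.loc_inj` gives `y = u` -/
theorem resid (hI : Hg I) (hb : Bpf P I) (h1 : I₀ ≤ I) (h2 : I₀ ≤ Z) (hZ : Z.IsPrime)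
    (hn : ¬I ≤ Z) (hi : Zs Z ⊆ Inc P P I) (hv : v ∈ Zs Z) (hu : Unr P I₀ v)
    (h5 : ∀ u ∈ Zs I, P *ᵥ u = P *ᵥ v → u = v) : False := by
  obtain ⟨F, hF, hF'⟩ := SetLike.not_le_iff_exists.1 hn
  obtain ⟨U, hU, inj⟩ := hu.loc_inj
  obtain ⟨C, hC⟩ := hb.bound hI
  have c : Continuous fun u : ι → ℂ => P *ᵥ u := by fun_prop
  have k := ((((isCompact_closedBall (0 : ι → ℂ) (|C| * (‖P *ᵥ v‖ + 1))).inter_left
    (isClosed_Zs I)).diff (isOpen_interior (s := U))).image c).isClosed.isOpen_compl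
  have e1 := c.continuousAt.eventually (k.mem_nhds (x := P *ᵥ v) fun ⟨u, a, b⟩ =>
    a.2 (h5 u a.1.1 b ▸ mem_interior_iff_mem_nhds.2 hU))
  have e2 : ∀ᶠ y in 𝓝 v, ‖P *ᵥ y‖ < ‖P *ᵥ v‖ + 1 :=
    c.norm.continuousAt.eventually_lt continuousAt_const (lt_add_one _)
  obtain ⟨y, ⟨a, b⟩, ⟨d, e⟩, f⟩ := ((dense_Zs hZ hF' hv).and_eventually
    ((e1.and e2).and hU)).exists
  obtain ⟨u, g, j⟩ := hi a
  have m : u ∈ U := by
    by_contra m
    refine d ⟨u, ⟨⟨g, mem_closedBall_zero_iff.2 ((hC u g).trans ?_)⟩,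
      fun x => m (interior_subset x)⟩, j.symm⟩
    rw [← j]
    exact mul_le_mul (le_abs_self C) e.le (norm_nonneg _) (abs_nonneg C)
  rw [inj ⟨f, Zs_anti h2 a⟩ ⟨m, Zs_anti h1 g⟩ j] at b
  exact b (mem_Zs.1 g F hF)

end Pool.Agent.Lib.MP_d3d358_ag.Mv
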