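import Pool.Agent.Lib.MP_d3d358_ag.Mv.Hk

/-! Lifting a line along a finite projection. -/

set_option autoImplicit false

namespace Pool.Agent.Lib.MP_d3d358_ag.Mv

open MvPolynomial Set Matrix Topology Filter

/-- the local ring of a homomorphism to a field -/
theorem exists_loc {K L : Type} [Field K] [Field L] [Algebra K L] (D : Subalgebra K L)
    (ε : D →ₐ[K] K) : ∃ (D' : Subalgebra K L) (h : D ≤ D') (ε' : D' →ₐ[K] K),
      (∀ d : D, ε' ⟨d, h d.2⟩ = ε d) ∧ ∀ d : D', ε' d ≠ 0 → (d : L)⁻¹ ∈ D' := by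
  let D' : Subalgebra K L :=
    { carrier := {x | ∃ a s : D, ε s ≠ 0 ∧ x * s = a}
      mul_mem' := by
        rintro x y ⟨a, s, h1, h2⟩ ⟨b, u, k1, k2⟩
        refine ⟨a * b, s * u, by rw [map_mul]; exact mul_ne_zero h1 k1, ?_⟩
        push_cast
        rw [← h2, ← k2]; ring
      add_mem' := by
        rintro x y ⟨a, s, h1, h2⟩ ⟨b, u, k1, k2⟩
        refine ⟨a * u + b * s, s * u, by rw [map_mul]; exact mul_ne_zero h1 k1, ?_⟩
        push_cast
        rw [← h2, ← k2]; ring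
      algebraMap_mem' := fun c => ⟨algebraMap K D c, 1, by simp, by simp⟩ }
  have h : ∀ d : D', ∃ a s : D, ε s ≠ 0 ∧ (d : L) * s = a := fun d => d.2
  choose a s hs e using h
  have key : ∀ (d : D') (b u : D), ε u ≠ 0 → (d : L) * u = b → ε (a d) / ε (s d) = ε b / ε u :=
    fun d b u h1 h2 => by
      rw [div_eq_div_iff (hs d) h1, ← map_mul, ← map_mul]
      refine congrArg ε (Subtype.ext ?_)
      push_cast
      rw [← h2, ← e d]; ring
  have le : D ≤ D' := fun x hx => ⟨⟨x, hx⟩, 1, by simp, by simp⟩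
  let ε' : D' →ₐ[K] K :=
    { toFun := fun d => ε (a d) / ε (s d)
      map_one' := by rw [key 1 1 1 (by simp) (by simp)]; simp
      map_zero' := by rw [key 0 0 1 (by simp) (by simp)]; simp
      map_mul' := fun x y => by
        rw [key (x * y) (a x * a y) (s x * s y) (by rw [map_mul]; exact mul_ne_zero (hs x) (hs y))
          (by push_cast; rw [← e x, ← e y]; ring), map_mul, map_mul, mul_div_mul_comm]
      map_add' := fun x y => by
        rw [key (x + y) (a x * s y + s x * a y) (s x * s y)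
          (by rw [map_mul]; exact mul_ne_zero (hs x) (hs y))
          (by push_cast; rw [← e x, ← e y]; ring), map_add, map_mul, map_mul, map_mul,
          div_add_div _ _ (hs x) (hs y)]
      commutes' := fun c => by
        rw [key _ (algebraMap K D c) 1 (by simp) (by simp)]; simp }
  refine ⟨D', le, ε', fun d => ?_, fun d hd => ?_⟩
  · exact (key _ d 1 (by simp) (by simp)).trans (by simp)
  · have h1 : ε (a d) ≠ 0 := fun k => hd (show ε (a d) / ε (s d) = 0 by rw [k, zero_div])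
    have h2 : (d : L) ≠ 0 := fun k => hd (by rw [show d = 0 from Subtype.ext k, map_zero])
    exact ⟨s d, a d, h1, by rw [← e d, inv_mul_cancel_left₀ h2]⟩

open Polynomial in
theorem lift_abs {K R S : Type} [Field K] [CommRing R] [CommRing S] [IsDomain S]
    [IsIntegrallyClosed R] [Algebra K R] [Algebra K S] (α : R →ₐ[K] S)
    (hf : α.toRingHom.IsIntegral) (hi : Function.Injective α) (σ : S →ₐ[K] K)
    (θ : R →ₐ[K] K[X]) {r₀ : R} (hr : θ r₀ = Polynomial.X) (hc : ∀ r, σ (α r) = (θ r).eval 0) :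
    ∃ (L : Type) (_ : Field L) (_ : Algebra K L) (φ : S →ₐ[K] L) (ε : φ.range →ₐ[K] K),
      (∀ s, ε (φ.rangeRestrict s) = σ s) ∧ (∀ r, φ (α r) = Polynomial.aeval (φ (α r₀)) (θ r)) ∧
      Transcendental K (φ (α r₀)) ∧ Algebra.trdeg K L ≤ 1 := by
  algebraize [α.toRingHom]
  have : FaithfulSMul R S := (faithfulSMul_iff_algebraMap_injective R S).2 hi
  have p1 : (RingHom.ker θ).IsPrime := RingHom.ker_isPrime θ
  have p2 : (RingHom.ker σ).IsPrime := RingHom.ker_isPrime σ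
  obtain ⟨P, hP, p3, p4⟩ := (RingHom.ker σ).exists_ideal_le_liesOver_of_le (p := RingHom.ker θ)
    (q := (RingHom.ker σ).under R) fun r h => by
      change σ (α r) = 0
      rw [hc, RingHom.mem_ker.1 h, Polynomial.eval_zero]
  let φ : S →ₐ[K] FractionRing (S ⧸ P) :=
    (IsScalarTower.toAlgHom K (S ⧸ P) _).comp (Ideal.Quotient.mkₐ K P)
  have k1 : ∀ s, φ s = 0 ↔ s ∈ P := fun s =>
    (map_eq_zero_iff _ (IsFractionRing.injective (S ⧸ P) _)).trans Ideal.Quotient.eq_zero_iff_mem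
  have k2 : ∀ r, φ (α r) = 0 ↔ θ r = 0 := fun r => (k1 _).trans (by
    rw [← RingHom.mem_ker, p4.over]; rfl)
  have k3 : ∀ f : K[X], θ (Polynomial.aeval r₀ f) = f := fun f => by
    rw [← Polynomial.aeval_algHom_apply, hr, Polynomial.aeval_X_left_apply]
  have k4 : ∀ f : K[X], φ (α (Polynomial.aeval r₀ f)) = Polynomial.aeval (φ (α r₀)) f :=
    fun f => by rw [Polynomial.aeval_algHom_apply, Polynomial.aeval_algHom_apply]
  have k5 : ∀ r, φ (α r) = Polynomial.aeval (φ (α r₀)) (θ r) := fun r => by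
    rw [← k4, ← sub_eq_zero, ← map_sub, ← map_sub, k2, map_sub, k3, sub_self]
  refine ⟨_, inferInstance, inferInstance, φ, AlgHom.liftOfSurjective _ φ.rangeRestrict_surjective
    σ fun s hs => hP ((k1 s).1 (congrArg Subtype.val hs)), fun s => AlgHom.liftOfSurjective_apply ..,
    k5, transcendental_iff.2 fun f h => ?_, ?_⟩
  · rw [← k3 f, ← k2, k4, h]
  · let A := Algebra.adjoin K {φ (α r₀)}
    have m : ∀ r, φ (α r) ∈ A := fun r => k5 r ▸ Polynomial.aeval_mem_adjoin_singleton _ _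
    have i : ∀ s, IsAlgebraic A (φ s) := fun s =>
      (IsIntegral.map_of_comp_eq ((φ.comp α).toRingHom.codRestrict A m) φ.toRingHom rfl
        (hf s)).isAlgebraic
    have : Algebra.IsAlgebraic A (FractionRing (S ⧸ P)) := ⟨fun x => by
      obtain ⟨a, b, -, rfl⟩ := IsFractionRing.div_surjective (S ⧸ P) x
      obtain ⟨a, rfl⟩ := Ideal.Quotient.mk_surjective a
      obtain ⟨b, rfl⟩ := Ideal.Quotient.mk_surjective b
      rw [div_eq_mul_inv]
      exact (i a).mul (i b).inv⟩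
    simpa using Algebra.IsAlgebraic.trdeg_le_cardinalMk K {φ (α r₀)}

open TensorProduct in
theorem lift_mid {K B : Type} [Field K] [Algebra ℂ K] [CommRing B] [Algebra ℂ B] [IsDomain B]
    [Algebra.FiniteType ℂ B] {N : ℕ} (π : Pl (Fin N) →ₐ[ℂ] B) (hf : π.toRingHom.Finite)
    (hi : Function.Injective π) (τ : B →ₐ[ℂ] K) {q : Fin N → K} (hq : q ≠ 0) :
    ∃ (L : Type) (_ : Field L) (_ : Algebra ℂ L) (_ : Algebra K L) (_ : IsScalarTower ℂ K L)
      (D : Subalgebra K L) (ε : D →ₐ[K] K) (μ : B →ₐ[ℂ] L) (h : ∀ b, μ b ∈ D) (t : D),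
      (∀ b, ε ⟨_, h b⟩ = τ b) ∧ ε t = 0 ∧ (∀ d : D, ε d ≠ 0 → (d : L)⁻¹ ∈ D) ∧
      (∀ k, μ (π (X k)) = algebraMap K L (τ (π (X k))) + t * algebraMap K L (q k)) ∧
      Transcendental K (t : L) ∧ Algebra.trdeg K L ≤ 1 := by
  have d1 : IsDomain (B ⊗[ℂ] K) := Cw.isDomain_tensor
  have d2 : IsDomain (K ⊗[ℂ] B) := (Algebra.TensorProduct.comm ℂ K B).toMulEquiv.isDomain _
  let e := (algebraTensorAlgEquiv (σ := Fin N) ℂ K).symm
  let α : MvPolynomial (Fin N) K →ₐ[K] K ⊗[ℂ] B :=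
    (Algebra.TensorProduct.map (AlgHom.id K K) π).comp e.toAlgHom
  have a1 : RingHom.Finite (B := K ⊗[ℂ] B) α.toRingHom :=
    (RingHom.Finite.tensorProductMap (f := AlgHom.id ℂ K) (RingHom.Finite.id K) hf).comp
      e.toRingEquiv.finite
  have a2 : Function.Injective α :=
    (TensorProduct.map_injective_of_flat_flat (LinearMap.id (R := ℂ) (M := K))
      π.toLinearMap Function.injective_id hi).comp e.injective
  have a3 : ∀ k, α (X k) = 1 ⊗ₜ π (X k) := fun k => by simp [α, e]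
  let σ : K ⊗[ℂ] B →ₐ[K] K := Algebra.TensorProduct.lift (AlgHom.id K K) τ fun _ _ => .all _ _
  have s1 : ∀ x, σ (1 ⊗ₜ x) = τ x := fun x => by simp [σ]
  let θ : MvPolynomial (Fin N) K →ₐ[K] Polynomial K :=
    aeval fun k => Polynomial.C (τ (π (X k))) + Polynomial.X * Polynomial.C (q k)
  obtain ⟨k₀, hk⟩ := Function.ne_iff.1 hq
  have hr : θ (C (q k₀)⁻¹ * (X k₀ - C (τ (π (X k₀))))) = Polynomial.X := by
    simp only [θ, map_mul, map_sub, aeval_X, aeval_C, Polynomial.algebraMap_eq, add_sub_cancel_left]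
    rw [mul_left_comm, ← map_mul, inv_mul_cancel₀ hk, map_one, mul_one]
  have hc : σ.comp α = (Polynomial.aeval 0).comp θ := MvPolynomial.algHom_ext fun k => by
    simp only [AlgHom.comp_apply, a3, s1]
    simp [θ]
  have hc' : ∀ r, σ (α r) = (θ r).eval 0 := fun r =>
    (DFunLike.congr_fun hc r).trans (Polynomial.coe_aeval_eq_eval (0 : K) ▸ rfl)
  obtain ⟨L, _, _, φ, ε, h1, h2, h3, h4⟩ :=
    lift_abs (S := K ⊗[ℂ] B) α a1.to_isIntegral a2 σ θ hr hc'
  let : Algebra ℂ L := ((algebraMap K L).comp (algebraMap ℂ K)).toAlgebra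
  have : IsScalarTower ℂ K L := .of_algebraMap_eq' rfl
  obtain ⟨D, le, ε', k1, k2⟩ := exists_loc φ.range ε
  refine ⟨L, _, _, _, this, D, ε', (φ.restrictScalars ℂ).comp Algebra.TensorProduct.includeRight,
    fun b => le (φ.rangeRestrict (1 ⊗ₜ b)).2, ⟨_, le (φ.rangeRestrict
      (α (C (q k₀)⁻¹ * (X k₀ - C (τ (π (X k₀))))))).2⟩, fun b => ?_, ?_, k2, fun k => ?_, h3, h4⟩
  · exact (k1 (φ.rangeRestrict (1 ⊗ₜ b))).trans ((h1 _).trans (s1 b))
  · rw [k1, h1, hc', hr, Polynomial.eval_X]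
  · have := h2 (X k)
    rw [a3] at this
    refine this.trans ?_
    simp only [θ, aeval_X, map_add, map_mul, Polynomial.aeval_C, Polynomial.aeval_X]
    rfl

/-- `S = K ⊗ (Pl ι ⧸ I₀)` is a domain, finite over `K[T]`; going down from
the prime of `v` to a prime `𝔭` over the kernel of `T ↦ P v + t q`; `L` = fraction field of `S ⧸ 𝔭`,
which is integral over the image `K[t]` of `K[T]` -/
theorem lift_line {ι K : Type} [Fintype ι] [Field K] [Algebra ℂ K] {N : ℕ} {I₀ : Ideal (Pl ι)}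
    (h0 : I₀.IsPrime) {P : Matrix (Fin N) ι ℂ} (hf : (pm P I₀).toRingHom.Finite)
    (hi : Function.Injective (pm P I₀)) {v : ι → K} (hv : On I₀ v) {q : Fin N → K} (hq : q ≠ 0) :
    ∃ (L : Type) (_ : Field L) (_ : Algebra ℂ L) (_ : Algebra K L) (_ : IsScalarTower ℂ K L)
      (D : Subalgebra K L) (ε : D →ₐ[K] K) (y : ι → D) (t : D),
      On I₀ (fun i => (y i : L)) ∧ (∀ i, ε (y i) = v i) ∧ ε t = 0 ∧
      (∀ d : D, ε d ≠ 0 → (d : L)⁻¹ ∈ D) ∧
      (∀ k, ap P (fun i => (y i : L)) k = algebraMap K L (ap P v k) + t * algebraMap K L (q k)) ∧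
      Transcendental K (t : L) ∧ Algebra.trdeg K L ≤ 1 := by
  let τ : (Pl ι ⧸ I₀) →ₐ[ℂ] K := Ideal.Quotient.liftₐ I₀ (aeval v) hv
  have t1 : ∀ i, τ (Ideal.Quotient.mk I₀ (X i)) = v i := fun i => by simp [τ]
  have a : ∀ k, pm P I₀ (X k) = ap P (fun i => Ideal.Quotient.mk I₀ (X i)) k := fun k => by
    rw [pm, AlgHom.comp_apply, aeval_X, map_ap]; rfl
  obtain ⟨L, _, _, _, h, D, ε, μ, m, t, h1, h2, h3, h4, h5⟩ := lift_mid (pm P I₀) hf hi τ hq
  refine ⟨L, _, _, _, h, D, ε, fun i => ⟨_, m (Ideal.Quotient.mk I₀ (X i))⟩, t, (on_mk I₀).map μ,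
    fun i => (h1 _).trans (t1 i), h2, h3, fun k => ?_, h5⟩
  simpa only [a, map_ap, t1] using h4 k

end Pool.Agent.Lib.MP_d3d358_ag.Mv
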