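import Pool.Agent.Lib.MP_d3d358_ag.Mv.Defs

/-! Norms, integrality and orders of vanishing. -/

set_option autoImplicit false

namespace Pool.Agent.Lib.MP_d3d358_ag.Mv

open Set

open Polynomial IntermediateField in
/-- `g` = the constant term of the minimal polynomial (`Polynomial.isIntegral_coeff_of_dvd`) or a
norm -/
theorem exists_norm {K L : Type} [Field K] [Field L] [Algebra K L] {t : L} (ht : IsAlgebraic K t)
    (h0 : t ≠ 0) : ∃ g : K, g ≠ 0 ∧ ∀ O : Subring K, (IsIntegral O t → IsIntegral O g) ∧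
      (IsIntegral O t⁻¹ → IsIntegral O g⁻¹) ∧
      (IsIntegral O t → IsIntegral O g⁻¹ → IsIntegral O t⁻¹) := by
  have hi := ht.isIntegral
  have g0 := minpoly.coeff_zero_ne_zero hi h0
  refine ⟨_, g0, fun O => ?_⟩
  have c : IsIntegral O t → ∀ i, IsIntegral O ((minpoly K t).coeff i) := fun ⟨p, a, b⟩ =>
    isIntegral_coeff_of_dvd p _ a (minpoly.monic hi)
      (minpoly.dvd K t ((aeval_map_algebraMap K t p).trans b))
  refine ⟨fun h => c h 0, fun h => ?_, fun h h' => ?_⟩
  · have := adjoin.finiteDimensional hi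
    have a : IsIntegral O (AdjoinSimple.gen K t)⁻¹ :=
      (isIntegral_algHom_iff (IsScalarTower.toAlgHom O K⟮t⟯ L) Subtype.val_injective).1 h
    have b := Algebra.isIntegral_norm K a
    have e := Algebra.PowerBasis.norm_gen_eq_coeff_zero_minpoly (adjoin.powerBasis hi)
    rw [adjoin.powerBasis_gen, minpoly_gen] at e
    rw [Algebra.norm_inv, e, mul_inv] at b
    have := (isIntegral_one.neg.pow (adjoin.powerBasis hi).dim).mul b
    rwa [mul_inv_cancel_left₀ (pow_ne_zero _ (neg_ne_zero.2 one_ne_zero))] at this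
  · have e := congrArg (aeval t) (X_mul_divX_add (minpoly K t))
    rw [minpoly.aeval, map_add, map_mul, aeval_X, aeval_C] at e
    have a : IsIntegral O (aeval t (minpoly K t).divX) := by
      rw [aeval_eq_sum_range]
      exact IsIntegral.sum _ fun i _ => by
        rw [Algebra.smul_def, coeff_divX]
        exact (c h _).algebraMap.mul (h.pow i)
    have b : t⁻¹ = -(algebraMap K L ((minpoly K t).coeff 0)⁻¹ * aeval t (minpoly K t).divX) := by
      have g1 := (_root_.map_ne_zero (algebraMap K L)).2 g0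
      rw [map_inv₀]
      field_simp
      linear_combination e
    rw [b]
    exact (h'.algebraMap.mul a).neg

open Polynomial in
theorem not_integral_inv {K L O : Type} [Field K] [Field L] [Algebra K L] (D : Subalgebra K L)
    (ε : D →ₐ[K] K) {t : D} (h0 : (t : L) ≠ 0) (ht : ε t = 0) [CommRing O] [Algebra O L]
    (hO : ∀ x : O, algebraMap O L x ∈ D) : ¬IsIntegral O (t : L)⁻¹ := by
  rintro ⟨p, a, b⟩
  let φ : O →+* D := (algebraMap O L).codRestrict D hO
  have := invertibleOfNonzero (inv_ne_zero h0)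
  have c := (eval₂_reverse_eq_zero_iff (algebraMap O L) (t : L)⁻¹ p).2 b
  rw [invOf_eq_inv, inv_inv] at c
  have e : eval₂ φ t p.reverse = 0 :=
    Subtype.ext ((hom_eval₂ p.reverse φ D.val.toRingHom t).trans c)
  have f := hom_eval₂ p.reverse φ ε.toRingHom t
  rw [e, map_zero, show ε.toRingHom t = 0 from ht, eval₂_at_zero, coeff_zero_reverse,
    a.leadingCoeff, map_one] at f
  exact zero_ne_one f

section

open scoped Pointwise

variable {O K : Type} [CommRing O] [IsDomain O] [IsNoetherianRing O] [Ring.KrullDimLE 1 O]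
  [Field K] [Algebra O K] [IsFractionRing O K]

omit [IsNoetherianRing O] [Ring.KrullDimLE 1 O] in
theorem ord_smul {a : O} (ha : a ≠ 0) (I : Ideal O) :
    Order.coheight (a • I) = Order.coheight I + Ring.ord O a := by
  rw [← Module.length_quotient, ← Module.length_quotient]
  exact Module.length_eq_add_of_exact (Ideal.mulQuot a I) (Ideal.quotOfMul a I)
    (Ideal.mulQuot_injective I (mem_nonZeroDivisors_of_ne_zero ha)) (Ideal.quotOfMul_surjective I)
    (Ideal.exact_mulQuot_quotOfMul I)

theorem ord_fin {I : Ideal O} (h : I ≠ ⊥) : Order.coheight I < ⊤ := by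
  obtain ⟨x, a, b⟩ := I.ne_bot_iff.1 h
  refine (Order.coheight_anti ((Ideal.span_singleton_le_iff_mem I).2 a)).trans_lt ?_
  rw [← Module.length_quotient]
  exact Ring.ord_lt_top (mem_nonZeroDivisors_of_ne_zero b)

omit [IsNoetherianRing O] [Ring.KrullDimLE 1 O] in
theorem ord_ideal {a b : O} {g : K} (hg : IsIntegral O g)
    (e : algebraMap O K a = algebraMap O K b * g) : ∃ I : Ideal O, I ≠ ⊥ ∧ a • I ≤ b • I := by
  obtain ⟨d, hd, h⟩ := FractionalIdeal.isFractional_of_fg (S := nonZeroDivisors O)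
    hg.fg_adjoin_singleton
  let I : Ideal O :=
    { carrier := {x | ∀ n : ℕ, IsLocalization.IsInteger O (x • g ^ n)}
      add_mem' := fun p q n => by
        rw [add_smul]
        exact IsLocalization.isInteger_add (p n) (q n)
      zero_mem' := fun n => by
        rw [zero_smul]
        exact IsLocalization.isInteger_zero
      smul_mem' := fun c x p n => by
        rw [smul_assoc]
        exact IsLocalization.isInteger_smul (p n) }
  refine ⟨I, I.ne_bot_iff.2 ⟨d, fun n => h _ (Subalgebra.pow_mem _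
    (Algebra.self_mem_adjoin_singleton O g) n), nonZeroDivisors.ne_zero hd⟩, fun z hz => ?_⟩
  obtain ⟨x, hx, rfl⟩ := (Submodule.mem_smul_pointwise_iff_exists _ _ _).1 hz
  obtain ⟨y, hy⟩ := hx 1
  rw [pow_one, Algebra.smul_def] at hy
  refine (Submodule.mem_smul_pointwise_iff_exists _ _ _).2 ⟨y, fun n => ?_,
    IsFractionRing.injective O K ?_⟩
  · have := hx (n + 1)
    rwa [Algebra.smul_def, pow_succ', ← mul_assoc, ← hy, ← Algebra.smul_def] at this
  · rw [smul_eq_mul, smul_eq_mul, map_mul, map_mul, hy, e]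
    ring

theorem ord_le {a b : O} (ha : a ≠ 0) (hb : b ≠ 0) {g : K} (hg : IsIntegral O g)
    (e : algebraMap O K a = algebraMap O K b * g) : Ring.ord O b ≤ Ring.ord O a := by
  obtain ⟨I, h, l⟩ := ord_ideal hg e
  have := Order.coheight_anti l
  rw [ord_smul ha, ord_smul hb] at this
  exact (ENat.add_le_add_iff_left (ord_fin h).ne).1 this

theorem ord_inv {a b : O} (ha : a ≠ 0) (hb : b ≠ 0) {g : K} (hg : IsIntegral O g)
    (e : algebraMap O K a = algebraMap O K b * g) (h : Ring.ord O a = Ring.ord O b) :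
    IsIntegral O g⁻¹ := by
  obtain ⟨I, hI, l⟩ := ord_ideal hg e
  have fin : Order.coheight (b • I) < ⊤ := by
    rw [ord_smul hb]
    exact ENat.add_lt_top.2 ⟨ord_fin hI, Ring.ord_lt_top (mem_nonZeroDivisors_of_ne_zero hb)⟩
  have q : a • I = b • I := l.eq_of_not_lt fun c => (Order.coheight_strictAnti c fin).ne (by
    rw [ord_smul ha, ord_smul hb, h])
  have inj := IsFractionRing.injective O K
  have a0 := (map_ne_zero_iff _ inj).2 ha
  have b0 := (map_ne_zero_iff _ inj).2 hb
  have g0 : g ≠ 0 := fun c => a0 (by rw [e, c, mul_zero])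
  refine isIntegral_of_smul_mem_submodule (Submodule.map (Algebra.linearMap O K) I) ?_
    ((IsNoetherian.noetherian I).map _) _ ?_
  · obtain ⟨x, p, r⟩ := I.ne_bot_iff.1 hI
    exact (Submodule.ne_bot_iff _).2 ⟨_, ⟨x, p, rfl⟩, (map_ne_zero_iff _ inj).2 r⟩
  · rintro _ ⟨x, hx, rfl⟩
    obtain ⟨y, hy, r⟩ := (Submodule.mem_smul_pointwise_iff_exists _ _ _).1
      (q.ge (Submodule.smul_mem_pointwise_smul x b I hx))
    refine ⟨y, hy, ?_⟩
    have := congrArg (algebraMap O K) r
    rw [smul_eq_mul, smul_eq_mul, map_mul, map_mul, e, mul_assoc] at this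
    rw [Algebra.linearMap_apply, Algebra.linearMap_apply, smul_eq_mul,
      ← mul_left_cancel₀ b0 this, inv_mul_cancel_left₀ g0]

end

/-- for a finite `O`-algebra `B ⊆ K` and `a ≠ 0`: `length (B / a B) = length (O / a O)`;
take `B = O[g]` and `B = O[g, g⁻¹]` -/
theorem ord_iff {O K : Type} [CommRing O] [IsDomain O] [IsNoetherianRing O] [Ring.KrullDimLE 1 O]
    [Field K] [Algebra O K] [IsFractionRing O K] {g : K} (h0 : g ≠ 0) (hg : IsIntegral O g) :
    Ring.ordFrac O g = 1 ↔ IsIntegral O g⁻¹ := by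
  obtain ⟨a, b, hb, e⟩ := IsFractionRing.div_surjective (A := O) g
  have b0 := nonZeroDivisors.ne_zero hb
  have b1 := (map_ne_zero_iff _ (IsFractionRing.injective O K)).2 b0
  have a0 : a ≠ 0 := fun c => h0 (by rw [← e, c, map_zero, zero_div])
  have ha := mem_nonZeroDivisors_of_ne_zero a0
  have e1 : algebraMap O K a = algebraMap O K b * g := by rw [← e, mul_div_cancel₀ _ b1]
  have e2 : algebraMap O K b = algebraMap O K a * g⁻¹ := by rw [e1, mul_inv_cancel_right₀ h0]
  obtain ⟨n, hn⟩ := ENat.ne_top_iff_exists.1 (Ring.ord_ne_top ha)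
  obtain ⟨m, hm⟩ := ENat.ne_top_iff_exists.1 (Ring.ord_ne_top hb)
  have k : Ring.ordFrac O g = 1 ↔ Ring.ord O a = Ring.ord O b := by
    rw [← e, map_div₀, Ring.ordFrac_eq_ord O a0, Ring.ordFrac_eq_ord O b0,
      Ring.ordMonoidWithZeroHom_eq_coe O ha hn.symm, Ring.ordMonoidWithZeroHom_eq_coe O hb hm.symm,
      div_eq_one_iff_eq WithZero.coe_ne_zero, ← hn, ← hm]
    simp
  rw [k]
  exact ⟨ord_inv a0 b0 hg e1, fun h => le_antisymm (ord_le b0 a0 h e2) (ord_le a0 b0 hg e1)⟩

end Pool.Agent.Lib.MP_d3d358_ag.Mv
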