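import Pool.Agent.Lib.MP_d3d358_ag.Mv.PDef
import Pool.Agent.Lib.MP_d3d358_ag.Cw.DivA
import Pool.Agent.Lib.MP_d3d358_ag.Cw.Push

/-! Divisors of functions; push forward along closed immersions. -/

set_option autoImplicit false

namespace Pool.Agent.Lib.MP_d3d358_ag.Mv

open CategoryTheory AlgebraicGeometry Set Matrix Cw

variable {W Z : Sch}

/-- `f` is a unit on a nonempty open set; the complement has finitely many components -/
theorem exists_div [Gd Z] [IsIntegral Z.left] [IsLocallyNoetherian Z.left]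
    {f : Z.left.functionField} (hf : f ≠ 0) : ∃ d : Cyc Z.left, ∀ z, d z = Scheme.ord f z := by
  obtain ⟨U, -, g, hU, rfl, hg⟩ := exists_isUnit_germ_eq (X := Z.left) f hf
  obtain ⟨s, hs, -⟩ := exists_comp (W := Z) U.isOpen.isClosed_compl
  have key : ∀ z, Scheme.ord (Z.left.germToFunctionField U g) z ≠ 0 → z ∈ s := fun z hz => by
    have h1 : Order.coheight z = 1 := by_contra fun n =>
      hz (Scheme.ord_eq_zero_of_coheight_neq_one n _)
    refine (hs z).2 ⟨fun m => hz (Scheme.ord_of_isUnit hg m), fun z' m k => by_contra fun n => ?_⟩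
    have l : z < z' := ⟨k, fun k' => n (k.antisymm k').eq⟩
    have h2 := Order.coheight_add_one_le l
    rw [h1] at h2
    have h3 : Order.coheight z' = 0 := by
      by_contra h3
      exact absurd ((add_le_add_left (Order.one_le_iff_ne_zero.2 h3) 1).trans h2) (by decide)
    obtain ⟨x⟩ := hU
    have h4 : z' ⤳ genericPoint Z.left := Order.coheight_eq_zero.1 h3 (div_gen z')
    exact m (h4.mem_open U.isOpen ((div_gen x.1).mem_open U.isOpen x.2))
  exact ⟨⟨fun z => Scheme.ord (Z.left.germToFunctionField U g) z, subset_univ _, fun z _ =>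
    ⟨univ, Filter.univ_mem, s.finite_toSet.subset fun x hx =>
      key x fun e => hx.2 (by simp [e])⟩⟩, fun _ => rfl⟩

theorem dm_closed (ι : Z ⟶ W) [IsClosedImmersion ι.left] (z : Z.left) :
    Order.height (ι.left z) = Order.height z := by
  have e := ι.left.isClosedEmbedding
  have i : ∀ a b : Z.left, ι.left a ≤ ι.left b ↔ a ≤ b := fun a b => e.isInducing.specializes_iff
  have j : ∀ a b : Z.left, ι.left a < ι.left b ↔ a < b := fun a b => by
    simp only [lt_iff_le_not_ge, i]
  refine (Order.height_eq_of_strictMono ι.left (fun a b h => (j a b).2 h) (fun a b h => ?_) z).symm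
  obtain ⟨a', rfl⟩ := Specializes.mem_closed h.le e.isClosed_range (mem_range_self a)
  exact ⟨a', (j a' a).1 h, rfl⟩

theorem subB_deg (ι : Z ⟶ W) [IsClosedImmersion ι.left] (z : Z.left) :
    ι.left.residueDegree z = 1 := by
  let := (ι.left.residueFieldMap z).hom.toAlgebra
  refine Algebra.finrank_eq_one_iff_bijective_algebraMap.2
    ⟨(ι.left.residueFieldMap z).hom.injective, fun x => ?_⟩
  obtain ⟨y, rfl⟩ := Z.left.residue_surjective z x
  obtain ⟨y, rfl⟩ := ι.left.stalkMap_surjective z y
  exact ⟨W.left.residue _ y, ConcreteCategory.congr_hom (Scheme.residue_residueFieldMap ι.left z) y⟩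

theorem push_closed (ι : Z ⟶ W) [IsClosedImmersion ι.left] (d : Cyc Z.left) :
    ∃ a, Push ι.left d a ∧ (∀ z, a (ι.left z) = d z) ∧ ∀ x ∉ range ι.left, a x = 0 := by
  have e := ι.left.isClosedEmbedding.injective
  refine ⟨_, ⟨inferInstance, rfl⟩, fun z => ?_, fun x hx => ?_⟩
  · change ∑ᶠ v ∈ ι.left ⁻¹' {ι.left z},
      d v * (AlgebraicCycle.mapCoeff ι.left Order.height Order.height v : ℚ) = _
    rw [← image_singleton, preimage_image_eq _ e, finsum_mem_singleton, AlgebraicCycle.mapCoeff,
      if_pos (dm_closed ι z).symm, subB_deg, Nat.cast_one, mul_one]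
  · change ∑ᶠ v ∈ ι.left ⁻¹' {x},
      d v * (AlgebraicCycle.mapCoeff ι.left Order.height Order.height v : ℚ) = _
    rw [preimage_singleton_eq_empty.2 hx, finsum_mem_empty]

end Pool.Agent.Lib.MP_d3d358_ag.Mv
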