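import Pool.Agent.Lib.MP_d3d358_ag.Mv.SubA
import Pool.Agent.Lib.MP_d3d358_ag.Mv.SubB
import Pool.Agent.Lib.MP_d3d358_ag.Mv.Ord

/-! The divisor of an element of a residue field. -/

set_option autoImplicit false

namespace Pool.Agent.Lib.MP_d3d358_ag.Mv

open CategoryTheory AlgebraicGeometry Set Matrix Cw

variable {W : Sch}

/-- `Cw.div_dm`, `Cw.div_low`, `ord_iff` -/
theorem exists_prin [Gd W] (w : W.left) {g : Kp w} (hg : g ≠ 0) : ∃ d : Cyc W.left, Prin d ∧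
    ∀ z, (d z ≠ 0 → w ⤳ z ∧ dm z + 1 = dm w) ∧ ∀ h : w ⤳ z, dm z + 1 = dm w →
      IsIntegral (loc h) g → (d z = 0 ↔ IsIntegral (loc h) g⁻¹) := by
  obtain ⟨Z, ι, _, _, rfl⟩ := exists_sub w
  have := gd_closed ι
  have : IsLocallyNoetherian Z.left := LocallyOfFiniteType.isLocallyNoetherian Z.hom
  obtain ⟨e, he⟩ := sub_field ι
  have e0 : e g ≠ 0 := (map_ne_zero e).2 hg
  obtain ⟨c, hc⟩ := exists_div e0
  obtain ⟨d, p, a, b⟩ := push_closed ι c
  have hd : ∀ z : Z.left, dm (ι.left z) = dm z := fun z => congrArg ENat.toNat (dm_closed ι z)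
  refine ⟨d, ⟨Z.left, ‹_›, ‹_›, ι.left, ‹_›, e g, c, e0, hc, p⟩, fun z => ⟨fun k => ?_,
    fun h k i => ?_⟩⟩
  · obtain ⟨y, rfl⟩ : z ∈ range ι.left := by_contra fun m => k (b z m)
    refine ⟨(div_gen y).map ι.left.continuous, ?_⟩
    rw [hd, hd, div_dm (z := y)]
    by_contra m
    exact k (by rw [a, hc, Scheme.ord_eq_zero_of_coheight_neq_one m, Int.cast_zero])
  · obtain ⟨y, rfl⟩ : z ∈ range ι.left :=
      h.mem_closed ι.left.isClosedEmbedding.isClosed_range ⟨_, rfl⟩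
    rw [hd, hd] at k
    have m : Order.coheight y = 1 := by_contra fun m =>
      (div_low (fun r => by rw [r] at k; omega) m).ne k
    have : Ring.KrullDimLE 1 (Z.left.presheaf.stalk y) := krullDimLE_of_coheight_le m.le
    rw [a, hc, Int.cast_eq_zero, Scheme.ord_eq_iff m e0, he, map_inv₀]
    exact ord_iff e0 ((he y h g).1 i)

end Pool.Agent.Lib.MP_d3d358_ag.Mv
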