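import Pool.Agent.Lib.MP_d3d358_ag.Mv.FamA
import Pool.Agent.Lib.MP_d3d358_ag.Mv.Lift
import Pool.Agent.Lib.MP_d3d358_ag.Mv.Prin
import Pool.Agent.Lib.MP_d3d358_ag.Mv.Fin

/-! The family of projections gives a principal cycle. -/

set_option autoImplicit false

namespace Pool.Agent.Lib.MP_d3d358_ag.Mv

open CategoryTheory AlgebraicGeometry Set Matrix Cw MvPolynomial

variable {W : Sch} {ι : Type} [Fintype ι]

theorem fam_ne {K : Type} [Field K] [Algebra ℂ K] {N : ℕ} {P Q : Matrix (Fin N) ι ℂ} {v : ι → K}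
    (hQ : Bpf Q (hk v)) (h : ∃ u ∈ Zs (hk v), u ∉ Inc P Q (hk v)) : ap Q v ≠ 0 := by
  intro e
  obtain ⟨u, hu, hn⟩ := h
  have : u = 0 := hQ u hu (funext fun k => by
    have := hu _ ((mem_hk_hom (ap_hom Q k)).2 (by rw [aeval_ap, e]; rfl))
    rwa [aeval_ap, ap_eq] at this)
  exact hn ⟨u, hu, by simp [this]⟩

theorem fam_alg {K K' L : Type} [Field K] [Field K'] [Field L] [Algebra ℂ K] [Algebra ℂ K']
    [Algebra ℂ L] [Algebra K L] [Algebra K' L] [IsScalarTower ℂ K L] [IsScalarTower ℂ K' L]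
    {a b : ℕ} (ha : Algebra.trdeg ℂ K = a) (hb : Algebra.trdeg ℂ K' = b) (h : a < b)
    (h1 : Algebra.trdeg K L ≤ 1) : b = a + 1 ∧ Algebra.IsAlgebraic K' L := by
  have e1 := trdeg_add_eq ℂ K (A := L)
  have e2 := trdeg_add_eq ℂ K' (A := L)
  rw [ha] at e1
  rw [hb] at e2
  have e3 : (b : Cardinal) + Algebra.trdeg K' L ≤ (a + 1 : ℕ) := by
    rw [e2, ← e1, Nat.cast_add, Nat.cast_one]
    exact add_le_add_right h1 _
  obtain ⟨c, hc⟩ := Cardinal.lt_aleph0.1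
    ((le_add_self.trans e3).trans_lt (Cardinal.natCast_lt_aleph0))
  rw [hc] at e3
  have e4 : b + c ≤ a + 1 := by exact_mod_cast e3
  refine ⟨by omega, trdeg_eq_zero_iff.1 ?_⟩
  rw [hc, show c = 0 by omega, Nat.cast_zero]

omit [Fintype ι] in
theorem fam_loc (D : Prj W ι) {w x : W.left} (h : w ⤳ x) {j : ι} (hj : x ∈ D.U j) {L : Type}
    [Field L] [Algebra ℂ L] [Algebra (Kp x) L] [IsScalarTower ℂ (Kp x) L]
    (E : Subalgebra (Kp x) L) (ε : E →ₐ[Kp x] Kp x) (y : ι → E) (hy : ∀ i, ε (y i) = D.crd hj i)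
    (hE : ∀ d : E, ε d ≠ 0 → (d : L)⁻¹ ∈ E) (ψ : Kp w →ₐ[ℂ] L)
    (hψ : ∀ k (hk : w ∈ D.U k) i, ψ (D.crd hk i) = y i / y k) {g : Kp w} (hg : g ∈ loc h) :
    ψ g ∈ E := by
  have hw : w ∈ D.U j := h.mem_open (D.U j).2 hj
  have e1 : ε (y j) = 1 := (hy j).trans (D.crd_self hj)
  have i1 := hE (y j) (by rw [e1]; exact one_ne_zero)
  have y0 : (y j : L) ≠ 0 := fun e => by
    rw [show y j = 0 from Subtype.ext e, map_zero] at e1
    exact zero_ne_one e1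
  have e2 : ε ⟨_, i1⟩ = 1 := by
    rw [← one_mul (ε _), ← e1, ← map_mul, e1,
      show y j * ⟨_, i1⟩ = 1 from Subtype.ext (mul_inv_cancel₀ y0), map_one]
  have key (a : Γ(W.left, D.U j)) : ∃ d : E, (d : L) = ψ (evA _ w hw a) ∧ ε d = evA _ x hj a := by
    obtain ⟨F, rfl⟩ := D.pi_surj j a
    refine ⟨aeval (fun i => y i * ⟨_, i1⟩) F, ?_, ?_⟩
    · have a1 := comp_aeval_apply (fun i => y i * (⟨_, i1⟩ : E)) (E.val.restrictScalars ℂ) F
      have a2 := comp_aeval_apply (fun i => D.s i j) (ψ.comp (evA _ w hw)) F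
      refine a1.trans (Eq.trans ?_ a2.symm)
      congr 2
      funext i
      exact (div_eq_mul_inv _ _).symm.trans (hψ j hw i).symm
    · have a1 := comp_aeval_apply (fun i => y i * (⟨_, i1⟩ : E)) (ε.restrictScalars ℂ) F
      have a2 := comp_aeval_apply (fun i => D.s i j) (evA _ x hj) F
      refine a1.trans (Eq.trans ?_ a2.symm)
      congr 2
      funext i
      exact show ε (_ * _) = _ by rw [map_mul, e2, mul_one, hy]; rfl
  obtain ⟨a, b, hb, rfl⟩ := exists_of_mem_loc h (D.aff j) hw hj hg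
  obtain ⟨a', ha, -⟩ := key a
  obtain ⟨b', hb1, hb2⟩ := key b
  rw [map_div₀, ← ha, ← hb1, div_eq_mul_inv]
  exact E.mul_mem a'.2 (hE b' (by rw [hb2]; exact fun e => hb ((evA_eq_zero _ hj b).1 e)))

/-- `K = Kp x`, `v = D.crd hj`, `lift_line` with `q = Q v`, `exists_pt` gives `w ⤳ x`, `w ≠ x` by
`inc_of_on`, `dm w = dm x + 1` by transcendence degrees, `exists_norm`, `exists_prin` -/
theorem Prj.fam [Gd W] (D : Prj W ι) {η x : W.left} (hη : ∀ w, η ⤳ w)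
    {P Q : Matrix (Fin (dm η + 1)) ι ℂ} (hP : Bpf P (D.cI η)) (hQ : Bpf Q (D.cI η))
    (h1 : ∃ v ∈ Zs (D.cI x), v ∉ Inc P Q (D.cI x)) (h2 : ∃ u ∈ Zs (D.cI x), u ∉ Inc Q P (D.cI x)) :
    ∃ d : Cyc W.left, Prin d ∧ d x ≠ 0 ∧ ∀ z, d z ≠ 0 → dm z = dm x ∧
      (Zs (D.cI z) ⊆ Inc P P (D.cI x) ∨ Zs (D.cI z) ⊆ Inc P Q (D.cI x)) := by
  obtain ⟨j, hj⟩ := D.cov x
  have ex := D.cI_eq hj
  have le : D.cI η ≤ D.cI x := D.spec_iff.1 (hη x)
  have hPx := hP.mono le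
  have hQx := hQ.mono le
  have hv : On (D.cI x) (D.crd hj) := ex ▸ on_hk _
  obtain ⟨L, _, _, _, _, E, ε, y, t, y1, y2, t0, hE, e, tr, td⟩ := lift_line (D.cn η).prime
    (hP.finite (D.hg η)) (hP.inj (D.cn η)) (hv.mono le)
    (fam_ne (P := P) (ex ▸ hQx) (ex ▸ h1))
  have y0 : (fun i => (y i : L)) ≠ 0 := fun k => by
    have := y2 j
    rw [show y j = 0 from Subtype.ext (congrFun k j), map_zero, D.crd_self hj] at this
    exact zero_ne_one this
  obtain ⟨w, ew, ψ, hψ⟩ := D.exists_pt y1 y0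
  have lw : D.cI w ≤ D.cI x := by
    rw [ew, ex, ← funext y2]
    exact (hk_map_inj (E.val.restrictScalars ℂ) Subtype.val_injective y).le.trans
      (hk_le_map (ε.restrictScalars ℂ) y)
  have hx : w ⤳ x := D.spec_iff.2 lw
  have lt : dm x < dm w := by
    by_contra k
    have := ((D.cn w).toPr.le_of_le (D.cn x).toPr lw).2 (by omega)
    obtain ⟨u, hu, hn⟩ := h2
    rw [ex] at hu hn hPx
    exact hn (inc_of_on hPx (by rw [← ex, ← this, ew]; exact on_hk _) y0 tr e hu)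
  let : Algebra (Kp w) L := ψ.toRingHom.toAlgebra
  have : IsScalarTower ℂ (Kp w) L := .of_algebraMap_eq fun c => (ψ.commutes c).symm
  obtain ⟨dw, al⟩ := fam_alg (trdeg_Kp x) (trdeg_Kp w) lt td
  have tn : (t : L) ≠ 0 := fun k => tr (k ▸ isAlgebraic_zero)
  obtain ⟨g, g0, hg⟩ := exists_norm (al.isAlgebraic (t : L)) tn
  obtain ⟨d, pd, hd⟩ := exists_prin w g0
  let φ := IsScalarTower.toAlgHom ℂ (Kp x) L
  have hv' : On (D.cI x) fun i => φ (D.crd hj i) := hv.map φ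
  have v0 : (fun i => φ (D.crd hj i)) ≠ 0 := fun k => by
    have := congrFun k j
    rw [D.crd_self hj, map_one] at this
    exact one_ne_zero this
  have e' (k) : ap P (fun i => (y i : L)) k =
      ap P (fun i => φ (D.crd hj i)) k + t * ap Q (fun i => φ (D.crd hj i)) k := by
    rw [e, ← map_ap, ← map_ap]
    rfl
  have i1 {z} (h : w ⤳ z) (hn : ¬Zs (D.cI z) ⊆ Inc P P (D.cI x)) :
      IsIntegral (loc h) (t : L)⁻¹ :=
    D.int_of_not_inc h ew hψ (D.hg x) hPx hv' v0 one_ne_zero tn (M' := Q)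
      (funext fun k => by simp [e']) hn
  have i2 {z} (h : w ⤳ z) (hn : ¬Zs (D.cI z) ⊆ Inc P Q (D.cI x)) : IsIntegral (loc h) (t : L) :=
    inv_inv (t : L) ▸ D.int_of_not_inc h ew hψ (D.hg x) hQx hv' v0 tn (inv_ne_zero tn) (M' := P)
      (funext fun k => by simp [e', mul_add, tn, add_comm]) hn
  refine ⟨d, pd, fun k => ?_, fun z k => ?_⟩
  · obtain ⟨u, hu, hn⟩ := h1
    have a := i2 hx fun l => hn (l hu)
    exact not_integral_inv (O := loc hx) E ε tn t0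
      (fun o => fam_loc D hx hj E ε y y2 hE ψ hψ o.2)
      ((hg _).2.2 a (((hd x).2 hx dw.symm ((hg _).1 a)).1 k))
  · obtain ⟨h, dz⟩ := (hd z).1 k
    refine ⟨by omega, ?_⟩
    by_contra c
    rw [not_or] at c
    exact k (((hd z).2 h dz ((hg _).1 (i2 h c.2))).2 ((hg _).2.1 (i1 h c.1)))

end Pool.Agent.Lib.MP_d3d358_ag.Mv
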