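import Pool.Agent.Lib.MP_d3d358_ag.Mv.Defs

/-! The cube embedding separates jets. -/

set_option autoImplicit false

namespace Pool.Agent.Lib.MP_d3d358_ag.Mv

open MvPolynomial Set Matrix Topology Filter

variable {ι : Type} {I : Ideal (Pl (ι × ι × ι))}

theorem jet_rel (h : Cub I) {v : ι × ι × ι → ℂ} (hv : v ∈ Zs I) :
    (∀ a b c d e f, v (a, b, c) * v (d, e, f) = v (d, b, c) * v (a, e, f)) ∧
      (∀ a b c, v (a, b, c) = v (b, a, c)) ∧ ∀ a b c, v (a, b, c) = v (a, c, b) := by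
  refine ⟨fun a b c d e f => ?_, fun a b c => ?_, fun a b c => ?_⟩
  · simpa [sub_eq_zero] using hv _ (h.seg a b c d e f)
  · simpa [sub_eq_zero] using hv _ (h.sy1 a b c)
  · simpa [sub_eq_zero] using hv _ (h.sy2 a b c)

/-- `v (a,b,c) ^ 3 = v (a,a,a) v (b,b,b) v (c,c,c)`; `α a = v (a,j,j) / v (j,j,j)` -/
theorem Cub.rank_one (h : Cub I) {v : ι × ι × ι → ℂ} (hv : v ∈ Zs I) :
    ∃ (c : ℂ) (α : ι → ℂ), ∀ a b d, v (a, b, d) = c * (α a * α b * α d) := by
  obtain ⟨s, s1, s2⟩ := jet_rel h hv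
  by_cases h0 : ∀ j, v (j, j, j) = 0
  · refine ⟨0, 0, fun p q r => ?_⟩
    have k1 : ∀ p r, v (p, p, r) = 0 := fun p r => by
      have := s p p p r r p
      rw [h0, zero_mul, s1 r p p, s2 p r p] at this
      exact mul_self_eq_zero.1 this.symm
    have := s p p r q q r
    rw [k1, zero_mul, s1 q p r] at this
    rw [zero_mul]
    exact mul_self_eq_zero.1 this.symm
  · obtain ⟨j, hj⟩ := not_forall.1 h0
    refine ⟨(v (j, j, j))⁻¹ ^ 2, fun a => v (a, j, j), fun a b c => ?_⟩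
    have k1 := s a b c j j j
    have k2 := s b j c j j j
    rw [s1 b j c, s2 j j c, s1 j c j] at k2
    field_simp
    linear_combination v (j, j, j) * k1 + v (a, j, j) * k2

/-- the linearised equations at the cube of `α` -/
def JetLin (α : ι → ℂ) (ξ : ι × ι × ι → ℂ) : Prop :=
  ∀ a b c d e f, ξ (a, b, c) * (α d * α e * α f) + α a * α b * α c * ξ (d, e, f) =
    ξ (d, b, c) * (α a * α e * α f) + α d * α b * α c * ξ (a, e, f)

variable [Fintype ι]

/-- the trilinear form of a tensor -/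
def jetT (ξ : ι × ι × ι → ℂ) (l m : ι → ℂ) (c : ι) : ℂ := ∑ a, ∑ b, l a * m b * ξ (a, b, c)

theorem jet_van {α : ι → ℂ} {ξ : ι × ι × ι → ℂ} (h : JetLin α ξ) {j : ι} (hj : α j ≠ 0)
    {l m : ι → ℂ} (hl : l ⬝ᵥ α = 0) (hm : m ⬝ᵥ α = 0) (c : ι) : jetT ξ l m c = 0 := by
  have k : jetT ξ l m c * (α j * α j * α j) =
      (l ⬝ᵥ α) * (∑ b, m b * ξ (j, b, c)) * (α j * α j) +
      (∑ a, l a * ξ (a, j, j)) * (m ⬝ᵥ α) * (α j * α c) -
      (l ⬝ᵥ α) * (m ⬝ᵥ α) * (α c * ξ (j, j, j)) := by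
    simp only [jetT, dotProduct, Finset.sum_mul_sum]
    simp only [Finset.sum_mul, ← Finset.sum_add_distrib, ← Finset.sum_sub_distrib]
    refine Finset.sum_congr rfl fun a _ => Finset.sum_congr rfl fun b _ => ?_
    linear_combination l a * m b * h a b c j j j
  rw [hl, hm] at k
  simpa [hj] using k

theorem jet_key {α β : ι → ℂ} {ξ : ι × ι × ι → ℂ} (hα : JetLin α ξ) (hβ : JetLin β ξ)
    (s1 : ∀ a b c, ξ (a, b, c) = ξ (b, a, c)) (s2 : ∀ a b c, ξ (a, b, c) = ξ (a, c, b))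
    {i k : ι} (hD : α i * β k - α k * β i ≠ 0) : ξ = 0 := by
  classical
  obtain ⟨ja, ha⟩ : ∃ j, α j ≠ 0 := by
    by_contra! h
    simp [h] at hD
  obtain ⟨jb, hb⟩ : ∃ j, β j ≠ 0 := by
    by_contra! h
    simp [h] at hD
  let T : (ι → ℂ) → (ι → ℂ) → (ι → ℂ) → ℂ := fun l m n =>
    ∑ a, ∑ b, ∑ c, l a * m b * n c * ξ (a, b, c)
  have t0 : ∀ l m n, T l m n = ∑ c, n c * jetT ξ l m c := fun l m n => by
    simp only [T, jetT, Finset.mul_sum]
    rw [Finset.sum_comm (s := Finset.univ) (t := Finset.univ)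
      (f := fun c a => ∑ b, n c * (l a * m b * ξ (a, b, c)))]
    refine Finset.sum_congr rfl fun a _ => ?_
    rw [Finset.sum_comm]
    exact Finset.sum_congr rfl fun c _ => Finset.sum_congr rfl fun b _ => by ring
  have t1 : ∀ l m n, T l m n = T m l n := fun l m n => by
    simp only [T]
    rw [Finset.sum_comm]
    exact Finset.sum_congr rfl fun a _ => Finset.sum_congr rfl fun b _ =>
      Finset.sum_congr rfl fun c _ => by rw [s1]; ring
  have t2 : ∀ l m n, T l m n = T l n m := fun l m n => by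
    simp only [T]
    refine Finset.sum_congr rfl fun a _ => ?_
    rw [Finset.sum_comm]
    exact Finset.sum_congr rfl fun b _ => Finset.sum_congr rfl fun c _ => by rw [s2]; ring
  have ta : ∀ l l' m n, T (l + l') m n = T l m n + T l' m n := fun l l' m n => by
    simp only [T, Pi.add_apply, add_mul, Finset.sum_add_distrib]
  have va : ∀ l m n, l ⬝ᵥ α = 0 → m ⬝ᵥ α = 0 → T l m n = 0 := fun l m n hl hm => by
    simp [t0, jet_van hα ha hl hm]
  have vb : ∀ l m n, l ⬝ᵥ β = 0 → m ⬝ᵥ β = 0 → T l m n = 0 := fun l m n hl hm => by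
    simp [t0, jet_van hβ hb hl hm]
  have sp : ∀ l : ι → ℂ, ∃ l₁ l₂, l = l₁ + l₂ ∧ l₁ ⬝ᵥ α = 0 ∧ l₂ ⬝ᵥ β = 0 := fun l => by
    refine ⟨l - (l ⬝ᵥ α / (α i * β k - α k * β i)) • (Pi.single i (β k) - Pi.single k (β i)),
      _, (sub_add_cancel _ _).symm, ?_, ?_⟩
    · simp only [sub_dotProduct, smul_dotProduct, single_dotProduct, smul_eq_mul]
      field_simp
      ring
    · simp only [sub_dotProduct, smul_dotProduct, single_dotProduct, smul_eq_mul]
      ring
  have m1 : ∀ l m n, l ⬝ᵥ α = 0 → m ⬝ᵥ β = 0 → T l m n = 0 := fun l m n hl hm => by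
    obtain ⟨n₁, n₂, rfl, h1, h2⟩ := sp n
    rw [t2, t1, ta, va _ _ _ h1 hl, t2, vb _ _ _ h2 hm, add_zero]
  have al : ∀ l m n, T l m n = 0 := fun l m n => by
    obtain ⟨l₁, l₂, rfl, h1, h2⟩ := sp l
    obtain ⟨m₁, m₂, rfl, h3, h4⟩ := sp m
    rw [ta, t1 l₁, t1 l₂, ta, ta, va _ _ _ h3 h1, t1 m₂, m1 _ _ _ h1 h4, m1 _ _ _ h3 h2,
      vb _ _ _ h4 h2]
    simp
  funext ⟨a, b, c⟩
  simpa [T, Pi.single_apply] using al (Pi.single a 1) (Pi.single b 1) (Pi.single c 1)

theorem jet_dot {κ : Type} [Fintype κ] (v ξ : κ → ℂ) (p q : κ) :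
    grad v (X p) ⬝ᵥ ξ = ξ p ∧ grad v (X p * X q) ⬝ᵥ ξ = ξ p * v q + v p * ξ q := by
  classical
  have k : ∀ p, grad v (X p) = Pi.single p 1 := fun p => funext fun i => by
    by_cases h : p = i
    · simp [grad, h]
    · simp [grad, pderiv_X_of_ne h, Ne.symm h]
  have e : grad v (X p * X q) = v p • grad v (X q) + v q • grad v (X p) := funext fun i => by
    simp only [grad, Derivation.leibniz, smul_eq_mul, map_add, map_mul, eval_X, Pi.add_apply,
      Pi.smul_apply]
  rw [e, k, k]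
  constructor
  · simp
  · simp only [add_dotProduct, smul_dotProduct, single_dotProduct, smul_eq_mul]
    ring

theorem jet_tan (h : Cub I) {v ξ : ι × ι × ι → ℂ} (hξ : ξ ∈ tan I v) {c : ℂ} {α : ι → ℂ}
    (hc : c ≠ 0) (hv : ∀ a b d, v (a, b, d) = c * (α a * α b * α d)) :
    JetLin α ξ ∧ (∀ a b c, ξ (a, b, c) = ξ (b, a, c)) ∧ ∀ a b c, ξ (a, b, c) = ξ (a, c, b) := by
  have k : ∀ F G, F - G ∈ I → grad v F ⬝ᵥ ξ = grad v G ⬝ᵥ ξ := fun F G hF => by
    have := (Submodule.mem_iInf _).1 ((Submodule.mem_iInf _).1 hξ _) hF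
    have e : grad v (F - G) = grad v F - grad v G := by
      funext i
      simp [grad]
    rw [LinearMap.mem_ker, e] at this
    rw [← sub_eq_zero, ← sub_dotProduct]
    exact this
  refine ⟨fun a b d a' e f => mul_left_cancel₀ hc ?_, fun a b d => ?_, fun a b d => ?_⟩
  · have := k _ _ (h.seg a b d a' e f)
    rw [(jet_dot v ξ _ _).2, (jet_dot v ξ _ _).2] at this
    simp only [hv] at this
    linear_combination this
  · simpa only [(jet_dot v ξ _ (a, a, a)).1] using k _ _ (h.sy1 a b d)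
  · simpa only [(jet_dot v ξ _ (a, a, a)).1] using k _ _ (h.sy2 a b d)

omit [Fintype ι] in
theorem jet_dep {u v : ι × ι × ι → ℂ} {c c' : ℂ} {α β : ι → ℂ} (hu : u ≠ 0)
    (h1 : ∀ a b d, v (a, b, d) = c * (α a * α b * α d))
    (h2 : ∀ a b d, u (a, b, d) = c' * (β a * β b * β d))
    (h : ∀ i k, α i * β k - α k * β i = 0) : ∃ t : ℂ, v = t • u := by
  obtain ⟨⟨p, q, r⟩, hp⟩ := Function.ne_iff.1 hu
  rw [h2] at hp
  have hc : c' ≠ 0 := left_ne_zero_of_mul hp
  have hb : β r ≠ 0 := right_ne_zero_of_mul (right_ne_zero_of_mul hp)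
  have e : ∀ i, α i = α r / β r * β i := fun i => by
    field_simp
    linear_combination h i r
  refine ⟨c / c' * (α r / β r) ^ 3, funext fun ⟨a, b, d⟩ => ?_⟩
  rw [Pi.smul_apply, smul_eq_mul, h1, h2, e a, e b, e d]
  field_simp

omit [Fintype ι] in
/-- a tangent vector at `α³` is a symmetric trilinear form on covectors that vanishes when two
arguments kill `α`; for independent `α`, `β` every covector is a sum of one killing `α` and one
killing `β` -/
theorem Cub.jet [Fintype ι] (h : Cub I) : Jet I := by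
  constructor
  · intro v hv u hu h0 hn
    obtain ⟨c, α, h1⟩ := h.rank_one hv
    obtain ⟨c', β, h2⟩ := h.rank_one hu
    have hc : c ≠ 0 := by
      rintro rfl
      exact hn 0 (funext fun ⟨a, b, d⟩ => by simp [h1])
    have hc' : c' ≠ 0 := by
      rintro rfl
      exact h0 (funext fun ⟨a, b, d⟩ => by simp [h2])
    obtain ⟨i, k, hD⟩ : ∃ i k, α i * β k - α k * β i ≠ 0 := by
      by_contra! k
      obtain ⟨t, ht⟩ := jet_dep h0 h1 h2 k
      exact hn t ht
    refine Submodule.disjoint_def.2 fun ξ a b => ?_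
    obtain ⟨a1, a2, a3⟩ := jet_tan h a hc h1
    exact jet_key a1 (jet_tan h b hc' h2).1 a2 a3 hD
  · intro v hv u hu u' hu' s t e
    obtain ⟨c, α, h1⟩ := h.rank_one hu
    obtain ⟨c', β, h2⟩ := h.rank_one hu'
    by_cases h0 : s • u = 0
    · exact .inr ⟨t, by rw [e, h0, zero_add]⟩
    by_cases h0' : t • u' = 0
    · exact .inl ⟨s, by rw [e, h0', add_zero]⟩
    have hs : s ≠ 0 := left_ne_zero_of_smul h0
    have ht : t ≠ 0 := left_ne_zero_of_smul h0'
    have hc : c ≠ 0 := by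
      rintro rfl
      exact h0 (funext fun ⟨a, b, d⟩ => by simp [h1])
    have hc' : c' ≠ 0 := by
      rintro rfl
      exact h0' (funext fun ⟨a, b, d⟩ => by simp [h2])
    by_cases k : ∀ i k, α i * β k - α k * β i = 0
    · obtain ⟨r, hr⟩ := jet_dep (right_ne_zero_of_smul h0') h1 h2 k
      exact .inr ⟨s * r + t, by rw [e, hr, add_smul, mul_smul]⟩
    · exfalso
      push Not at k
      obtain ⟨i, k, hD⟩ := k
      have z := jet_key (α := α) (β := β) (ξ := fun p => β p.1 * β p.2.1 * β p.2.2)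
        (fun a b d a' e' f => mul_left_cancel₀
          (mul_ne_zero (mul_ne_zero hs hc) (mul_ne_zero ht hc')) (by
            have := (jet_rel h hv).1 a b d a' e' f
            simp only [e, Pi.add_apply, Pi.smul_apply, smul_eq_mul, h1, h2] at this
            linear_combination this))
        (fun _ _ _ _ _ _ => by ring) (fun _ _ _ => by ring) (fun _ _ _ => by ring) hD
      have z' : ∀ a, β a = 0 := fun a => by simpa using congrFun z (a, a, a)
      simp [z'] at hD

end Pool.Agent.Lib.MP_d3d358_ag.Mv
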