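import Pool.Agent.Lib.MP_d3d358_ag.Mv.Cone

/-! Smooth schemes are regular; the cone is smooth off the origin. -/

set_option autoImplicit false

namespace Pool.Agent.Lib.MP_d3d358_ag.Mv

open CategoryTheory AlgebraicGeometry Set Matrix Cw MvPolynomial

variable {W : Sch} {ι : Type} {U : W.left.Opens} {η : W.left}

theorem regw_etale {P B : Type} [CommRing P] [CommRing B] [IsRegularRing P] [Algebra P B]
    [Algebra.Etale P B] (q : Ideal B) [q.IsPrime] :
    IsRegularLocalRing (Localization.AtPrime q) := by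
  have := Algebra.FiniteType.isNoetherianRing P B
  let p := q.under P
  let := Localization.AtPrime.algebraOfLiesOver p q
  have h1 := ((Algebra.isUnramifiedAt_iff_map_eq P p q).1 inferInstance).2
  have h2 : (IsLocalRing.maximalIdeal (Localization.AtPrime p)).map
      (algebraMap _ (Localization.AtPrime q)) = IsLocalRing.maximalIdeal _ := by
    rw [← Localization.AtPrime.map_eq_maximalIdeal, Ideal.map_map, ← IsScalarTower.algebraMap_eq, h1]
  have h3 := Ideal.spanFinrank_map_le_of_fg (algebraMap _ (Localization.AtPrime q))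
    (IsNoetherian.noetherian (IsLocalRing.maximalIdeal (Localization.AtPrime p)))
  have h4 := (isRegularLocalRing_iff (Localization.AtPrime p)).1 inferInstance
  rw [IsLocalization.AtPrime.ringKrullDim_eq_height p] at h4
  have h5 : (((IsLocalRing.maximalIdeal (Localization.AtPrime q)).spanFinrank : ℕ) : WithBot ℕ∞) ≤
      p.height := by
    rw [← h4, ← h2]; exact_mod_cast h3
  have h6 : p.height ≤ q.height :=
    (Ideal.height_eq_height_add_of_liesOver_of_hasGoingDown p q).symm ▸ le_self_add
  refine .of_spanFinrank_maximalIdeal_le _ ?_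
  rw [IsLocalization.AtPrime.ringKrullDim_eq_height q]
  exact h5.trans (WithBot.coe_le_coe.2 h6)

theorem regw_loc {A : Type} [CommRing A] {φ : ℂ →+* A}
    (h : RingHom.Locally RingHom.IsStandardSmooth φ) (q : Ideal A) [q.IsPrime] :
    IsRegularLocalRing (Localization.AtPrime q) := by
  obtain ⟨s, h1, h2⟩ := h
  obtain ⟨t, ht, hq⟩ : ∃ t ∈ s, t ∉ q := by
    by_contra! H
    exact Ideal.IsPrime.ne_top ‹_› (top_le_iff.1 (h1 ▸ Ideal.span_le.2 H))
  obtain ⟨n, g, -, hg⟩ := (h2 t ht).exists_etale_mvPolynomial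
  algebraize [g]
  have hd : Disjoint (Submonoid.powers t : Set A) q :=
    (Ideal.disjoint_powers_iff_notMem_of_isPrime t).2 hq
  have := IsLocalization.isPrime_of_isPrime_disjoint (Submonoid.powers t) (Localization.Away t) q
    ‹_› hd
  have e := IsLocalization.under_map_of_isPrime_disjoint (Submonoid.powers t) (Localization.Away t)
    ‹q.IsPrime› hd
  have a1 := regw_etale (P := MvPolynomial (Fin n) ℂ) (q.map (algebraMap A (Localization.Away t)))
  have a3 := IsLocalization.isLocalization_isLocalization_atPrime_isLocalization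
    (Submonoid.powers t) (Localization.AtPrime (q.map (algebraMap A (Localization.Away t))))
    (q.map (algebraMap A (Localization.Away t)))
  have a4 : IsLocalization.AtPrime
      (Localization.AtPrime (q.map (algebraMap A (Localization.Away t)))) q := by
    convert a3 using 2; exact e.symm
  exact .of_ringEquiv (IsLocalization.algEquiv q.primeCompl
    (Localization.AtPrime (q.map (algebraMap A (Localization.Away t)))) _).toRingEquiv

theorem regw_fin (R : Type) [CommRing R] [IsRegularLocalRing R] : ∃ t : Finset R,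
    IsLocalRing.maximalIdeal R = Ideal.span t ∧ ringKrullDim R = (t.card : ℕ) := by
  obtain ⟨t, h1, h2⟩ := Submodule.FG.exists_span_finset_card_eq_spanFinrank
    (IsNoetherian.noetherian (IsLocalRing.maximalIdeal R))
  exact ⟨t, h2.symm, by rw [h1]; exact ((isRegularLocalRing_iff R).1 ‹_›).symm⟩

/-- local generators of a prime of a regular ring -/
theorem regw_gen {A : Type} [CommRing A] [IsRegularRing A] (m : Ideal A) [m.IsPrime] {d : ℕ}
    (hd : ringKrullDim A = d) : ∃ (n : ℕ) (a : Fin n → A), n ≤ d ∧ (∀ k, a k ∈ m) ∧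
      ∀ x ∈ m, ∃ u ∉ m, u * x ∈ Ideal.span (range a) := by
  obtain ⟨t, h1, h2⟩ := regw_fin (Localization.AtPrime m)
  rw [IsLocalization.AtPrime.ringKrullDim_eq_height m] at h2
  have h3 := Ideal.height_le_ringKrullDim_of_ne_top (Ideal.IsPrime.ne_top ‹m.IsPrime›)
  rw [h2, hd] at h3
  choose z hz using fun k : Fin t.card =>
    IsLocalization.surj m.primeCompl (t.equivFin.symm k : Localization.AtPrime m)
  refine ⟨t.card, fun k => (z k).1, by exact_mod_cast h3, fun k => ?_, fun x hx => ?_⟩
  · rw [← IsLocalization.AtPrime.to_map_mem_maximal_iff (Localization.AtPrime m) m, ← hz, h1]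
    exact Ideal.mul_mem_right _ _ (Ideal.subset_span (t.equivFin.symm k).2)
  · have h4 : Ideal.span (t : Set (Localization.AtPrime m)) ≤
        (Ideal.span (range fun k => (z k).1)).map (algebraMap A _) := Ideal.span_le.2 fun y hy => by
      obtain ⟨k, e⟩ := t.equivFin.symm.surjective ⟨y, hy⟩
      have e' := hz k
      rw [e] at e'
      refine (Ideal.mul_unit_mem_iff_mem _ (IsLocalization.map_units _ (z k).2)).1 ?_
      exact e' ▸ Ideal.mem_map_of_mem _ (Ideal.subset_span ⟨k, rfl⟩)
    obtain ⟨⟨i, u⟩, e⟩ := (IsLocalization.mem_map_algebraMap_iff m.primeCompl _).1 (h4 (h1 ▸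
      (IsLocalization.AtPrime.to_map_mem_maximal_iff (Localization.AtPrime m) m x).2 hx))
    rw [← map_mul] at e
    obtain ⟨c, e⟩ := (IsLocalization.eq_iff_exists m.primeCompl _).1 e
    refine ⟨(c * u : m.primeCompl), (c * u).2, ?_⟩
    rw [Submonoid.coe_mul, mul_assoc, mul_comm _ x, e]
    exact Ideal.mul_mem_left _ _ i.2

/-- as `supp_etale`, `supp_loc` of `MP_d4c0ca_ag/T/Supp.lean` (copy them), with
`Algebra.Smooth.exists_span_eq_top_isStandardSmooth` -/
theorem reg_smooth (A : Type) [CommRing A] [Algebra ℂ A] [Algebra.Smooth ℂ A] : IsRegularRing A :=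
  have := Algebra.FiniteType.isNoetherianRing ℂ A
  isRegularRing_iff.2 fun q _ => regw_loc
    (RingHom.smooth_iff_locally_isStandardSmooth.1 (RingHom.smooth_algebraMap.2 ‹_›)) q

theorem reg_sec [Smooth W.hom] (hU : IsAffineOpen U) : IsRegularRing Γ(W.left, U) :=
  @reg_smooth _ _ _ (RingHom.Smooth.comp
    (.of_bijective (Scheme.ΓSpecIso (.of ℂ)).symm.commRingCatIsoToRingEquiv.bijective)
    (W.hom.smooth_appLE (isAffineOpen_top _) hU le_top))

theorem reg_stalk [Smooth W.hom] (x : W.left) : IsRegularLocalRing (W.left.presheaf.stalk x) := by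
  obtain ⟨U, hU, h, -⟩ := dm_aff (O := ⊤) (y := x) trivial
  have := reg_sec hU
  let := TopCat.Presheaf.algebra_section_stalk W.left.presheaf (⟨x, h⟩ : U)
  have := hU.isLocalization_stalk ⟨x, h⟩
  exact .of_ringEquiv (IsLocalization.algEquiv (pri hU h).primeCompl
    (Localization.AtPrime (pri hU h)) (W.left.presheaf.stalk x)).toRingEquiv

theorem gt_generic [IsIntegral W.left] [Smooth W.hom] (hη : ∀ w, η ⤳ w) (y : W.left) : GT η y := by
  intro z h
  obtain rfl : y = z := h.2.2 y (hη y) specializes_rfl h.2.1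
  obtain rfl : η = genericPoint W.left :=
    ((hη _).antisymm ((genericPoint_spec W.left).specializes trivial)).eq
  have := reg_stalk y
  obtain ⟨t, h1, h2⟩ := regw_fin (W.left.presheaf.stalk y)
  have e1 : idl h.1 = ⊥ := by
    rw [idl, (IsLocalRing.isField_iff_maximalIdeal_eq).1 (Field.toIsField W.left.functionField)]
    exact (RingHom.injective_iff_ker_eq_bot _).1
      (IsFractionRing.injective (W.left.presheaf.stalk y) W.left.functionField)
  have e2 : idl h.2.1 = IsLocalRing.maximalIdeal _ := by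
    rw [idl, TopCat.Presheaf.stalkSpecializes_refl]
    exact Ideal.comap_id _
  exact ⟨∅, t, by simp [e1], e2.trans h1, by simp [e1, e2], by simpa using h2⟩

/-- `v j = 1`; a tangent vector with `ξ j = 0` gives `Γ(U j) → ℂ[ε]` (`exists_hom`), determined by
its values on `dm η` local generators of the maximal ideal (`dim_formula`) -/
theorem Prj.reg [Fintype ι] [Gd W] [IsIntegral W.left] [Smooth W.hom] (D : Prj W ι)
    (hη : ∀ w, η ⤳ w) : Reg (D.cI η) (dm η + 1) := by
  intro v₀ hv₀ h0
  obtain ⟨j, hj⟩ := Function.ne_iff.1 h0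
  rw [← tan_smul (D.hg η) (inv_ne_zero hj) v₀]
  have hv := (D.hg η).smul_mem hv₀ (v₀ j)⁻¹
  have h1 : ((v₀ j)⁻¹ • v₀) j = 1 := inv_mul_cancel₀ hj
  generalize (v₀ j)⁻¹ • v₀ = v at hv h1
  obtain ⟨hw, φ, hφ, -⟩ := D.exists_hom hv h1
  have : Nonempty (D.U j) := ⟨⟨η, hw⟩⟩
  have := reg_sec (D.aff j)
  obtain ⟨w, hw', e⟩ := exists_pri (D.aff j) ⊥
  have e' : pri (D.aff j) hw = ⊥ := le_bot_iff.1 (e ▸ (pri_le_iff (D.aff j) hw hw').2 (hη w))
  have hd := dm_eq (D.aff j) hw
  rw [e', ringKrullDim_eq_of_ringEquiv (RingEquiv.quotientBot _)] at hd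
  have := RingHom.ker_isPrime φ
  obtain ⟨n, a, hn, ha, hg⟩ := regw_gen (RingHom.ker φ) hd
  choose F hF using fun k => D.pi_surj j (a k)
  let L : tan (D.cI η) v →ₗ[ℂ] ℂ × (Fin n → ℂ) := LinearMap.prod (.proj j ∘ₗ Submodule.subtype _)
    (LinearMap.pi fun k => dotProductBilin ℂ ℂ (grad v (F k)) ∘ₗ Submodule.subtype _)
  have hL : Function.Injective L := by
    refine (injective_iff_map_eq_zero _).2 fun ξ h => Subtype.ext (funext fun i => ?_)
    have k1 : ξ.1 j = 0 := congrArg Prod.fst h
    have k2 : ∀ k, grad v (F k) ⬝ᵥ ξ.1 = 0 := fun k => congrFun (congrArg Prod.snd h) k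
    obtain ⟨-, ψ, hψ, -⟩ := D.exists_hom (j := j) ((mem_tan_dual hv).1 ξ.2) (by simp [h1, k1])
    have e1 : ∀ G : Pl ι, ψ (aeval (fun i => D.s i j) G) =
        TrivSqZeroExt.inl (eval v G) + TrivSqZeroExt.inr (grad v G ⬝ᵥ ξ.1) := fun G => by
      rw [← aeval_dual, ← funext hψ]
      exact comp_aeval_apply _ ψ G
    have e2 : ∀ G : Pl ι, φ (aeval (fun i => D.s i j) G) = eval v G := fun G => by
      rw [← funext hφ]
      exact comp_aeval_apply _ φ G
    have e3 : Ideal.span (range a) ≤ RingHom.ker ψ := Ideal.span_le.2 (by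
      rintro _ ⟨k, rfl⟩
      have := e1 (F k)
      rw [← e2, hF, ha k, k2] at this
      simpa using this)
    obtain ⟨u, hu, e4⟩ := hg (aeval (fun i => D.s i j) (X i - C (v i) : Pl ι)) (by
      rw [RingHom.mem_ker, e2]
      simp)
    obtain ⟨G, rfl⟩ := D.pi_surj j u
    have e5 := congrArg TrivSqZeroExt.snd (RingHom.mem_ker.1 (e3 e4))
    rw [map_mul, e1, e1, grad_sub, grad_C, sub_zero, grad_X_dot] at e5
    rw [RingHom.mem_ker, e2] at hu
    simpa [hu] using e5
  have := LinearMap.finrank_le_finrank_of_injective hL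
  simp only [Module.finrank_prod, Module.finrank_self, Module.finrank_fin_fun] at this
  omega

end Pool.Agent.Lib.MP_d3d358_ag.Mv
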