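import Pool.Agent.Lib.MP_d3d358_ag.Mv.Dim

/-! The dimension of an intersection at a smooth point. -/

set_option autoImplicit false

namespace Pool.Agent.Lib.MP_d3d358_ag.Mv

open MvPolynomial Set Matrix Topology Filter TensorProduct

variable {ι κ : Type} {a b n : ℕ}

theorem il0_trdeg {A B : Type} [CommRing A] [Algebra ℂ A] [CommRing B] [Algebra ℂ B]
    [Algebra.FiniteType ℂ A] [Algebra.FiniteType ℂ B] [IsDomain (A ⊗[ℂ] B)]
    (f : Pl (Fin a) →ₐ[ℂ] A) (g : Pl (Fin b) →ₐ[ℂ] B) (hf : Function.Injective f)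
    (hg : Function.Injective g) (kf : f.toRingHom.IsIntegral) (kg : g.toRingHom.IsIntegral) :
    Algebra.trdeg ℂ (A ⊗[ℂ] B) = (a + b : ℕ) := by
  have ft : ∀ {m : ℕ} {A : Type} [CommRing A] [Algebra ℂ A] [Algebra.FiniteType ℂ A]
      (f : Pl (Fin m) →ₐ[ℂ] A), f.toRingHom.FiniteType := fun f =>
    RingHom.FiniteType.of_comp_finiteType (f := algebraMap ℂ _)
      (f.comp_algebraMap ▸ RingHom.finiteType_algebraMap.2 ‹_›)
  have fin : (Algebra.TensorProduct.map f g).toRingHom.Finite :=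
    RingHom.Finite.tensorProductMap (kf.to_finite (ft f)) (kg.to_finite (ft g))
  have inj : Function.Injective (Algebra.TensorProduct.map f g) :=
    TensorProduct.map_injective_of_flat_flat f.toLinearMap g.toLinearMap hf hg
  have e := (tensorEquivSum ℂ (Fin a) (Fin b) ℂ).trdeg_eq
  algebraize [(Algebra.TensorProduct.map f g).toRingHom]
  have : FaithfulSMul (Pl (Fin a) ⊗[ℂ] Pl (Fin b)) (A ⊗[ℂ] B) :=
    (faithfulSMul_iff_algebraMap_injective ..).2 inj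
  have : IsScalarTower ℂ (Pl (Fin a) ⊗[ℂ] Pl (Fin b)) (A ⊗[ℂ] B) :=
    .of_algebraMap_eq fun c => ((Algebra.TensorProduct.map f g).commutes c).symm
  rw [← trdeg_add_eq ℂ (Pl (Fin a) ⊗[ℂ] Pl (Fin b)), e, MvPolynomial.trdeg_of_isDomain,
    trdeg_eq_zero]
  simp

/-- the product of two irreducible varieties -/
theorem Pr.prod [Finite ι] [Finite κ] {I : Ideal (Pl ι)} {J : Ideal (Pl κ)} (hI : Pr I a)
    (hJ : Pr J b) : ∃ K : Ideal (Pl (ι ⊕ κ)), Pr K (a + b) ∧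
      ∀ y, y ∈ Zs K ↔ y ∘ Sum.inl ∈ Zs I ∧ y ∘ Sum.inr ∈ Zs J := by
  have := hI.prime
  have := hJ.prime
  have : IsDomain ((Pl ι ⧸ I) ⊗[ℂ] (Pl κ ⧸ J)) := Cw.isDomain_tensor
  let φ : Pl (ι ⊕ κ) →ₐ[ℂ] (Pl ι ⧸ I) ⊗[ℂ] (Pl κ ⧸ J) := aeval (Sum.elim
    (fun i => (Ideal.Quotient.mk I (X i) ⊗ₜ[ℂ] 1 : (Pl ι ⧸ I) ⊗[ℂ] (Pl κ ⧸ J)))
    fun j => 1 ⊗ₜ[ℂ] Ideal.Quotient.mk J (X j))
  have l : ∀ F, φ (rename Sum.inl F) = Ideal.Quotient.mk I F ⊗ₜ[ℂ] 1 := fun F =>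
    AlgHom.congr_fun (show φ.comp (rename Sum.inl) = Algebra.TensorProduct.includeLeft.comp
      (Ideal.Quotient.mkₐ ℂ I) from algHom_ext fun i => by simp [φ]) F
  have r : ∀ F, φ (rename Sum.inr F) = 1 ⊗ₜ[ℂ] Ideal.Quotient.mk J F := fun F =>
    AlgHom.congr_fun (show φ.comp (rename Sum.inr) = Algebra.TensorProduct.includeRight.comp
      (Ideal.Quotient.mkₐ ℂ J) from algHom_ext fun i => by simp [φ]) F
  have s : Function.Surjective φ := fun t => by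
    induction t with
    | zero => exact ⟨0, map_zero _⟩
    | add x y hx hy =>
      obtain ⟨F, rfl⟩ := hx
      obtain ⟨G, rfl⟩ := hy
      exact ⟨F + G, map_add ..⟩
    | tmul x y =>
      obtain ⟨F, rfl⟩ := Ideal.Quotient.mk_surjective x
      obtain ⟨G, rfl⟩ := Ideal.Quotient.mk_surjective y
      exact ⟨rename Sum.inl F * rename Sum.inr G, by simp [l, r]⟩
  obtain ⟨d, hd⟩ := exists_pr (RingHom.ker_isPrime φ)
  obtain ⟨y, y1, y2⟩ := hI.noether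
  obtain ⟨z, z1, z2⟩ := hJ.noether
  have e := AlgEquiv.trdeg_eq (R := ℂ) (A := Pl (ι ⊕ κ) ⧸ RingHom.ker φ)
    (A' := (Pl ι ⧸ I) ⊗[ℂ] (Pl κ ⧸ J)) (Ideal.quotientKerAlgEquivOfSurjective s)
  rw [hd.trdeg, il0_trdeg _ _ y1.1 z1.1 y2 z2, Nat.cast_inj] at e
  refine ⟨_, e ▸ hd, fun y => ⟨fun h => ⟨fun F hF => ?_, fun F hF => ?_⟩, fun h F hF => ?_⟩⟩
  · rw [← aeval_rename]
    exact h _ (by rw [RingHom.mem_ker, l, Ideal.Quotient.eq_zero_iff_mem.2 hF, zero_tmul])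
  · rw [← aeval_rename]
    exact h _ (by rw [RingHom.mem_ker, r, Ideal.Quotient.eq_zero_iff_mem.2 hF, tmul_zero])
  · have := AlgHom.congr_fun (show (aeval y : Pl (ι ⊕ κ) →ₐ[ℂ] ℂ) = (Algebra.TensorProduct.lift
      (Ideal.Quotient.liftₐ I (aeval (y ∘ Sum.inl)) h.1)
      (Ideal.Quotient.liftₐ J (aeval (y ∘ Sum.inr)) h.2) fun _ _ => Commute.all _ _).comp φ from
        algHom_ext (by rintro (i | i) <;> simp [φ])) F
    rw [this, AlgHom.comp_apply, show φ F = 0 from hF, map_zero]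

theorem il0_diag [Finite ι] {C : Ideal (Pl (ι ⊕ ι))} {c : ℕ} (hC : Pr C c)
    (dg : ∀ i, X (Sum.inl i) - X (Sum.inr i) ∈ C) :
    ∃ E : Ideal (Pl ι), Pr E c ∧ ∀ F, F ∈ E ↔ rename Sum.inl F ∈ C := by
  let ψ : Pl ι →ₐ[ℂ] Pl (ι ⊕ ι) ⧸ C := (Ideal.Quotient.mkₐ ℂ C).comp (rename Sum.inl)
  have s : Function.Surjective ψ := fun t => by
    obtain ⟨G, rfl⟩ := Ideal.Quotient.mk_surjective t
    refine ⟨rename (Sum.elim id id) G, AlgHom.congr_fun (show ψ.comp (rename (Sum.elim id id)) =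
      Ideal.Quotient.mkₐ ℂ C from algHom_ext ?_) G⟩
    rintro (i | i)
    · simp [ψ]
    · simpa [ψ] using Ideal.Quotient.eq.2 (dg i)
  have := hC.prime
  exact ⟨RingHom.ker ψ, ⟨RingHom.ker_isPrime ψ, (ringKrullDim_eq_of_ringEquiv
    (Ideal.quotientKerAlgEquivOfSurjective s).toRingEquiv).trans hC.dim⟩,
    fun F => Ideal.Quotient.eq_zero_iff_mem⟩

theorem il0_ev [Fintype ι] (P : Matrix (Fin n) ι ℂ) (u : ι ⊕ ι → ℂ) (k : Fin n) :
    eval u (rename Sum.inl (ap P (X : ι → Pl ι) k) - rename Sum.inr (ap P (X : ι → Pl ι) k)) =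
      (P *ᵥ (u ∘ Sum.inl)) k - (P *ᵥ (u ∘ Sum.inr)) k := by
  rw [← coe_aeval_eq_eval, RingHom.coe_coe, map_sub, aeval_rename, aeval_rename, aeval_ap,
    aeval_ap, ap_eq, ap_eq]

/-- the dimension of a component of the intersection through a point -/
theorem il0 [Fintype ι] {I₀ I J : Ideal (Pl ι)} {v : ι → ℂ} (hI : Pr I a) (hJ : Pr J b)
    (h1 : I₀ ≤ I) (h2 : I₀ ≤ J) (hv : v ∈ Zs I) (hv' : v ∈ Zs J)
    (hn : Module.finrank ℂ (tan I₀ v) ≤ n) :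
    ∃ (C : Ideal (Pl ι)) (c : ℕ), Pr C c ∧ I ≤ C ∧ J ≤ C ∧ v ∈ Zs C ∧ a + b ≤ c + n := by
  obtain ⟨K, hK, zK⟩ := hI.prod hJ
  obtain ⟨P, hP⟩ := exists_unr hn
  obtain ⟨U, hU, inj⟩ := hP.loc_inj
  obtain ⟨C, c, hC, hKC, hf, hw, hd⟩ := hK.cut (v := Sum.elim v v) ((zK _).2 ⟨hv, hv'⟩)
    (fun k => rename Sum.inl (ap P (X : ι → Pl ι) k) - rename Sum.inr (ap P (X : ι → Pl ι) k))
    fun k => (il0_ev P _ k).trans (sub_self _)
  have dg : ∀ i, X (Sum.inl i) - X (Sum.inr i) ∈ C := fun i => by_contra fun hi => by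
    have c1 : Tendsto (fun u : ι ⊕ ι → ℂ => u ∘ Sum.inl) (𝓝 (Sum.elim v v)) (𝓝 v) :=
      (continuous_pi fun i => continuous_apply (Sum.inl i)).tendsto' _ _ rfl
    have c2 : Tendsto (fun u : ι ⊕ ι → ℂ => u ∘ Sum.inr) (𝓝 (Sum.elim v v)) (𝓝 v) :=
      (continuous_pi fun i => continuous_apply (Sum.inr i)).tendsto' _ _ rfl
    obtain ⟨u, ⟨u1, u2⟩, u3, u4⟩ := ((dense_Zs hC.prime hi hw).and_eventually
      ((c1.eventually_mem hU).and (c2.eventually_mem hU))).exists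
    have z := (zK u).1 (Zs_anti hKC u1)
    have e : P *ᵥ (u ∘ Sum.inl) = P *ᵥ (u ∘ Sum.inr) := by
      funext k
      rw [← sub_eq_zero, ← il0_ev]
      exact mem_Zs.1 u1 _ (hf k)
    have := inj ⟨u3, Zs_anti h1 z.1⟩ ⟨u4, Zs_anti h2 z.2⟩ e
    exact u2 (by simpa [sub_eq_zero] using congrFun this i)
  obtain ⟨E, hE, mem⟩ := il0_diag hC dg
  refine ⟨E, c, hE, fun F hF => (mem F).2 (nss hC.prime fun u hu => ?_),
    fun F hF => (mem F).2 (nss hC.prime fun u hu => ?_), mem_Zs.2 fun F hF => ?_, hd⟩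
  · rw [eval_rename]
    exact mem_Zs.1 ((zK u).1 (Zs_anti hKC hu)).1 F hF
  · rw [eval_rename, show u ∘ Sum.inl = u ∘ Sum.inr from funext fun i => by
      simpa [sub_eq_zero] using mem_Zs.1 hu _ (dg i)]
    exact mem_Zs.1 ((zK u).1 (Zs_anti hKC hu)).2 F hF
  · have := mem_Zs.1 hw _ ((mem F).1 hF)
    rwa [eval_rename] at this

end Pool.Agent.Lib.MP_d3d358_ag.Mv
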