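import Pool.Agent.Lib.MP_d3d358_ag.Mv.Tan

/-! Transverse tangent spaces give adapted generators of the maximal ideal. -/

set_option autoImplicit false

namespace Pool.Agent.Lib.MP_d3d358_ag.Mv

open MvPolynomial Set Matrix Topology Filter

theorem la_cut {V : Type} [AddCommGroup V] [Module ℂ V] [FiniteDimensional ℂ V]
    {A T : Submodule ℂ V} (h : A ≤ T) : ∃ (k : ℕ) (s : V →ₗ[ℂ] Fin k → ℂ),
      k + Module.finrank ℂ A = Module.finrank ℂ T ∧ (∀ ξ ∈ A, s ξ = 0) ∧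
        ∀ ξ ∈ T, s ξ = 0 → ξ ∈ A := by
  obtain ⟨π, hπ⟩ := LinearMap.exists_leftInverse_of_injective (T.map A.mkQ).subtype
    (Submodule.ker_subtype _)
  refine ⟨_, (Module.finBasis ℂ (T.map A.mkQ)).equivFun.toLinearMap ∘ₗ π ∘ₗ A.mkQ, ?_,
    fun ξ k => ?_, fun ξ k e => ?_⟩
  · have := (A.mkQ.domRestrict T).finrank_range_add_finrank_ker
    rwa [LinearMap.range_domRestrict, LinearMap.ker_domRestrict, Submodule.ker_mkQ,
      (Submodule.comapSubtypeEquivOfLe h).finrank_eq] at this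
  · simp [(Submodule.Quotient.mk_eq_zero A).2 k]
  · have e1 : π (A.mkQ ξ) = 0 :=
      (Module.finBasis ℂ (T.map A.mkQ)).equivFun.map_eq_zero_iff.1 e
    have e2 : π (A.mkQ ξ) = ⟨A.mkQ ξ, Submodule.mem_map_of_mem k⟩ :=
      LinearMap.congr_fun hπ ⟨A.mkQ ξ, Submodule.mem_map_of_mem k⟩
    exact (Submodule.Quotient.mk_eq_zero A).1 (congrArg Subtype.val (e2.symm.trans e1))

theorem la_poly {ι : Type} [Fintype ι] {I : Ideal (Pl ι)} {v : ι → ℂ} {k : ℕ}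
    (s : (ι → ℂ) →ₗ[ℂ] Fin k → ℂ) (h : ∀ ξ ∈ tan I v, s ξ = 0) :
    ∃ F : Fin k → Pl ι, (∀ i, F i ∈ I) ∧ ∀ i ξ, grad v (F i) ⬝ᵥ ξ = s ξ i := by
  classical
  have e (i ξ) : (fun x => s (Pi.single x 1) i) ⬝ᵥ ξ = s ξ i := by
    conv_rhs => rw [pi_eq_sum_univ' ξ]
    simp [dotProduct, mul_comm]
  choose F h1 h2 using fun i => exists_grad (I := I) (v := v) (w := fun x => s (Pi.single x 1) i)
    fun ξ k => by rw [e, h ξ k]; rfl
  exact ⟨F, h1, fun i ξ => by rw [h2, e]⟩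

theorem la_coord {ι : Type} [Fintype ι] {I : Ideal (Pl ι)} {v ξ : ι → ℂ} (h : ξ ∈ tan I v) {i : ι}
    {c : ℂ} (k : X i - C c ∈ I) : ξ i = 0 := by
  have := mem_tan.1 h _ k
  rwa [grad_sub, grad_C, sub_zero, grad_X_dot] at this

/-- work in the dual of `T₀ = tan I₀ v ⊓ {ξ j = 0}`; bases of the annihilators of `E`, `tan J v`
(they meet in `0`), completed to a basis; `exists_grad`, `taylor`, `self_mem_tan` -/
theorem Good.gens {ι : Type} [Fintype ι] {I₀ I J : Ideal (Pl ι)} {v : ι → ℂ} {j : ι} {n a b : ℕ}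
    (h : Good I₀ I J (a + 1) (b + 1) v) (hI : Hg I) (hJ : Hg J) (hv : v ∈ Zs I) (hv' : v ∈ Zs J)
    (hv0 : v ∈ Zs I₀) (hj : v j = 1) (hn : Module.finrank ℂ (tan I₀ v) ≤ n + 1) :
    ∃ (k l c : ℕ) (s : Fin k → Pl ι) (t : Fin l → Pl ι) (u : Fin c → Pl ι), (∀ i, s i ∈ I) ∧
      (∀ i, t i ∈ J) ∧ (∀ i, eval v (u i) = 0) ∧
      RingHom.ker (eval v) ≤ Ideal.span (range s) ⊔ Ideal.span (range t) ⊔ Ideal.span (range u) ⊔
        RingHom.ker (eval v) ^ 2 ⊔ (I₀ ⊔ Ideal.span {X j - 1}) ∧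
      k + l + c ≤ n ∧ l + c ≤ a ∧ k + c ≤ b := by
  obtain ⟨hb, E, hE, ha, hT⟩ := h
  let H : Submodule ℂ (ι → ℂ) := LinearMap.ker (LinearMap.proj j)
  obtain ⟨k, s, s1, s2, s3⟩ := la_cut (A := E) (T := tan I₀ v) (hT ▸ le_sup_left)
  obtain ⟨l, t, t1, t2, t3⟩ := la_cut (A := tan J v) (T := tan I₀ v) (hT ▸ le_sup_right)
  obtain ⟨c, u, u1, -, u3⟩ := la_cut (A := ⊥) (T := E ⊓ tan J v ⊓ H) bot_le
  obtain ⟨S, S1, S2⟩ := la_poly (I := I) (v := v) s fun ξ x => s2 ξ (hE x)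
  obtain ⟨T, T1, T2⟩ := la_poly t t2
  obtain ⟨U, U1, U2⟩ := la_poly (I := RingHom.ker (eval v)) (v := v) u fun ξ x => by
    rw [show ξ = 0 from funext fun i => la_coord x (c := v i) (by simp [RingHom.mem_ker]), map_zero]
  have d1 := Submodule.finrank_sup_add_finrank_inf_eq E (tan J v)
  have d2 : Module.finrank ℂ ↥(E ⊓ tan J v ⊓ H) < Module.finrank ℂ ↥(E ⊓ tan J v) :=
    Submodule.finrank_lt_finrank_of_lt (lt_of_le_of_ne inf_le_left fun e => by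
      have : v ∈ E ⊓ tan J v ⊓ H := e.symm ▸ ⟨hE (self_mem_tan hI hv), self_mem_tan hJ hv'⟩
      exact one_ne_zero (hj.symm.trans this.2))
  rw [hT] at d1
  rw [finrank_bot] at u1
  refine ⟨k, l, c, S, T, U, S1, T1, U1, fun F hF => ?_, by omega, by omega, by omega⟩
  let K : Ideal (Pl ι) := Ideal.span (range S) ⊔ Ideal.span (range T) ⊔ Ideal.span (range U) ⊔
    (I₀ ⊔ Ideal.span {X j - 1})
  have k1 : K ≤ RingHom.ker (eval v) := by
    refine sup_le (sup_le (sup_le ?_ ?_) ?_) (sup_le (mem_Zs.1 hv0) ?_) <;>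
      rw [Ideal.span_le]
    · rintro _ ⟨i, rfl⟩
      exact mem_Zs.1 hv _ (S1 i)
    · rintro _ ⟨i, rfl⟩
      exact mem_Zs.1 hv' _ (T1 i)
    · rintro _ ⟨i, rfl⟩
      exact U1 i
    · rintro _ rfl
      simp [RingHom.mem_ker, hj]
  have k2 (ξ) (x : ξ ∈ tan K v) : ξ = 0 := by
    have x0 : ξ ∈ tan I₀ v := tan_anti (le_sup_left.trans le_sup_right) v x
    refine u3 ξ ⟨⟨s3 ξ x0 (funext fun i => ?_), t3 ξ x0 (funext fun i => ?_)⟩, ?_⟩
      (funext fun i => ?_)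
    · exact (S2 i ξ).symm.trans (mem_tan.1 x _ (Ideal.mem_sup_left (Ideal.mem_sup_left
        (Ideal.mem_sup_left (Ideal.subset_span ⟨i, rfl⟩)))))
    · exact (T2 i ξ).symm.trans (mem_tan.1 x _ (Ideal.mem_sup_left (Ideal.mem_sup_left
        (Ideal.mem_sup_right (Ideal.subset_span ⟨i, rfl⟩)))))
    · exact la_coord x (c := 1)
        (Ideal.mem_sup_right (Ideal.mem_sup_right (Ideal.subset_span rfl)))
    · exact (U2 i ξ).symm.trans (mem_tan.1 x _ (Ideal.mem_sup_left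
        (Ideal.mem_sup_right (Ideal.subset_span ⟨i, rfl⟩))))
  obtain ⟨G, G1, G2⟩ := exists_grad (I := K) (v := v) (w := grad v F) fun ξ x => by
    rw [k2 ξ x, dotProduct_zero]
  have k3 := taylor v (F - G)
  rw [grad_sub, G2, sub_self, map_sub, show eval v F = 0 from hF, show eval v G = 0 from k1 G1] at k3
  have k4 : F - G ∈ RingHom.ker (eval v) ^ 2 := by simpa using k3
  rw [sup_right_comm, ← add_sub_cancel G F]
  exact Submodule.add_mem_sup G1 k4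

end Pool.Agent.Lib.MP_d3d358_ag.Mv
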