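import Pool.Agent.Lib.MP_d3d358_ag.Mv.Dim
import Pool.Agent.Lib.MP_62d77c_ag.UFD

/-! From generators at a closed point to the generic point of a component. -/

set_option autoImplicit false

namespace Pool.Agent.Lib.MP_d3d358_ag.Mv

open Set IsLocalRing

/-- subsets of a regular system of parameters span primes of the expected height -/
theorem lmain_reg {R : Type} [CommRing R] [IsLocalRing R] [IsNoetherianRing R] {ι : Type}
    [Fintype ι] (g : ι → R) (hd : ringKrullDim R = (Fintype.card ι : ℕ))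
    (hg : Ideal.span (range g) = maximalIdeal R) (S : Finset ι) :
    (Ideal.span (g '' S)).IsPrime ∧ (S.card : ℕ∞) ≤ (Ideal.span (g '' S)).height := by
  classical
  have key : ∀ T : Set ι, (Ideal.span (g '' T)).IsPrime ∧ ∀ i ∉ T, g i ∉ Ideal.span (g '' T) := by
    intro T
    let e := (Fintype.equivFin ι).symm
    have h := MP_62d77c_ag.reg_quot (g ∘ e) hd (by rw [e.surjective.range_comp, hg]) (e ⁻¹' T)
    rw [image_comp, e.image_preimage] at h
    refine ⟨h.1, fun i hi => ?_⟩
    simpa using h.2.1 (e.symm i) (by simpa using hi)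
  refine ⟨(key _).1, ?_⟩
  induction S using Finset.induction_on with
  | empty => simp
  | insert i S hi ih =>
    have := (key S).1
    have := (key (insert i S : Finset ι)).1
    have hlt : Ideal.span (g '' S) < Ideal.span (g '' (insert i S : Finset ι)) := by
      refine lt_of_le_of_ne (Ideal.span_mono (image_mono (by simp))) fun h => ?_
      exact (key S).2 i (by simpa using hi) (h ▸ Ideal.subset_span ⟨i, by simp, rfl⟩)
    refine le_trans ?_ (Ideal.height_add_one_le_of_lt_of_isPrime hlt)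
    rw [Finset.card_insert_of_notMem hi, Nat.cast_add, Nat.cast_one]
    exact add_le_add_left ih 1

/-- an inclusion that holds after localising at `m` holds after localising at a smaller prime -/
theorem lmain_tr {A : Type} [CommRing A] {m P : Ideal A} [m.IsPrime] [P.IsPrime] (h : P ≤ m)
    (O : Type) [CommRing O] [Algebra A O] [IsLocalization.AtPrime O m]
    (L : Type) [CommRing L] [Algebra A L] [IsLocalization.AtPrime L P] {I J : Ideal A}
    (hI : I ≤ (J.map (algebraMap A O)).under A) :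
    I.map (algebraMap A L) ≤ J.map (algebraMap A L) := by
  refine Ideal.map_le_iff_le_comap.2 fun x hx => ?_
  obtain ⟨r, hr, hrx⟩ :=
    (IsLocalization.algebraMap_mem_map_algebraMap_iff m.primeCompl O J x).1 (hI hx)
  exact (IsLocalization.algebraMap_mem_map_algebraMap_iff P.primeCompl L J x).2
    ⟨r, fun k => hr (h k), hrx⟩

theorem lmain_under {A : Type} [CommRing A] {m P : Ideal A} [m.IsPrime] [P.IsPrime] (h : P ≤ m)
    (O : Type) [CommRing O] [Algebra A O] [IsLocalization.AtPrime O m] {J : Ideal A} (hJ : J ≤ P) :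
    (J.map (algebraMap A O)).under A ≤ P := by
  have d : Disjoint (m.primeCompl : Set A) (P : Set A) :=
    Set.disjoint_left.2 fun x hx hP => hx (h hP)
  exact (Ideal.comap_mono (Ideal.map_mono hJ)).trans
    (IsLocalization.under_map_of_isPrime_disjoint m.primeCompl O ‹_› d).le

/-- in the local ring `O` at `p`: Nakayama, `dim O = n` (`dim_formula`), `MP_62d77c_ag.reg_quot`
gives primes `(s)`, `(t)`, `(s, t)`; compare dimensions of quotients; localise -/
theorem lmain {A : Type} [CommRing A] [Algebra ℂ A] [Algebra.FiniteType ℂ A] [IsDomain A]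
    (p : A →ₐ[ℂ] ℂ) {P₁ P₂ P : Ideal A} [P₁.IsPrime] [P₂.IsPrime] [P.IsPrime] {n a b k l c : ℕ}
    (hn : ringKrullDim A = n) (ha : ringKrullDim (A ⧸ P₁) = a) (hb : ringKrullDim (A ⧸ P₂) = b)
    (h1 : P₁ ≤ P) (h2 : P₂ ≤ P)
    (hm : ∀ Q : Ideal A, Q.IsPrime → P₁ ≤ Q → P₂ ≤ Q → Q ≤ P → Q = P) (hp : P ≤ RingHom.ker p)
    {s : Fin k → A} {t : Fin l → A} {u : Fin c → A} (hs : ∀ i, s i ∈ P₁) (ht : ∀ i, t i ∈ P₂)
    (hu : ∀ i, p (u i) = 0)
    (hg : RingHom.ker p ≤ Ideal.span (range s) ⊔ Ideal.span (range t) ⊔ Ideal.span (range u) ⊔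
      RingHom.ker p ^ 2)
    (e0 : k + l + c ≤ n) (e1 : l + c ≤ a) (e2 : k + c ≤ b)
    (L : Type) [CommRing L] [IsLocalRing L] [Algebra A L] [IsLocalization.AtPrime L P] :
    ∃ s' t' : Finset L, P₁.map (algebraMap A L) = Ideal.span s' ∧
      P₂.map (algebraMap A L) = Ideal.span t' ∧
      maximalIdeal L = P₁.map (algebraMap A L) ⊔ P₂.map (algebraMap A L) ∧
      ringKrullDim L = (s'.card + t'.card : ℕ) := by
  classical
  have hN : IsNoetherianRing A := Algebra.FiniteType.isNoetherianRing ℂ A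
  have hsur : Function.Surjective p := fun z => ⟨algebraMap ℂ A z, by simp⟩
  have hmax : (RingHom.ker p).IsMaximal := RingHom.ker_isMaximal_of_surjective p hsur
  generalize hmdef : RingHom.ker p = m at hp hg hmax
  have hu' : ∀ i, u i ∈ m := fun i => hmdef ▸ hu i
  let O := Localization.AtPrime m
  let φ := algebraMap A O
  have hNO : IsNoetherianRing O := IsLocalization.isNoetherianRing m.primeCompl O hN
  have hNL : IsNoetherianRing L := IsLocalization.isNoetherianRing P.primeCompl L hN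
  -- heights from the dimension formula
  have hht : ∀ (Q : Ideal A) [Q.IsPrime] (r : ℕ), ringKrullDim (A ⧸ Q) = r →
      ∃ h : ℕ, Q.height = h ∧ h + r = n := by
    intro Q _ r hr
    obtain ⟨h, r', a1, a2, a3⟩ := dim_formula Q
    have b1 : r' = r := by exact_mod_cast a2.symm.trans hr
    have b2 : h + r' = n := by exact_mod_cast a3.symm.trans hn
    exact ⟨h, a1, b1 ▸ b2⟩
  have hO : ringKrullDim O = n := by
    obtain ⟨h, a1, a2⟩ := hht m 0
      (ringKrullDim_eq_zero_of_isField ((Ideal.Quotient.maximal_ideal_iff_isField_quotient m).1 hmax))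
    rw [IsLocalization.AtPrime.ringKrullDim_eq_height m O, a1, ← a2]
    rfl
  -- Nakayama
  let g₀ : Fin k ⊕ Fin l ⊕ Fin c → A := Sum.elim s (Sum.elim t u)
  let g := φ ∘ g₀
  have hmO : m.map φ = maximalIdeal O := IsLocalization.AtPrime.map_eq_maximalIdeal m O
  have hg₀ : Ideal.span (range g₀) =
      Ideal.span (range s) ⊔ Ideal.span (range t) ⊔ Ideal.span (range u) := by
    rw [Sum.elim_range, Sum.elim_range, Ideal.span_union, Ideal.span_union, sup_assoc]
  have hgg : ∀ T, Ideal.span (g '' T) = (Ideal.span (g₀ '' T)).map φ := fun T => by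
    rw [Ideal.map_span, image_comp]
  have hgO : Ideal.span (range g) = maximalIdeal O := by
    rw [← image_univ, hgg, image_univ]
    refine le_antisymm ?_ ?_
    · rw [← hmO]
      refine Ideal.map_mono (Ideal.span_le.2 ?_)
      rintro _ ⟨i | i | i, rfl⟩
      exacts [hp (h1 (hs i)), hp (h2 (ht i)), hu' i]
    · refine Submodule.le_of_le_smul_of_le_jacobson_bot (IsNoetherian.noetherian _)
        (IsLocalRing.jacobson_eq_maximalIdeal _ bot_ne_top).ge ?_
      rw [smul_eq_mul, ← pow_two, ← hmO, ← Ideal.map_pow, ← Ideal.map_sup, hg₀]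
      exact Ideal.map_mono hg
  have hc : Fintype.card (Fin k ⊕ Fin l ⊕ Fin c) = k + (l + c) := by simp
  have hn' : k + (l + c) = n := by
    refine le_antisymm (by omega) ?_
    have h := ringKrullDim_le_spanFinrank_maximalIdeal O
    have h' := MP_62d77c_ag.ufd_spanFinrank_le Finset.univ g
    rw [Finset.coe_univ, image_univ, hgO, Finset.card_univ, hc] at h'
    rw [hO] at h
    exact le_trans (by exact_mod_cast h) h'
  have reg := lmain_reg g (by rw [hc, hn', hO]) hgO
  -- the primes spanned by a subfamily, pulled back to `A`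
  have pull : ∀ S : Finset (Fin k ⊕ Fin l ⊕ Fin c),
      (((Ideal.span (g₀ '' S)).map φ).under A).IsPrime ∧
        (S.card : ℕ∞) ≤ (((Ideal.span (g₀ '' S)).map φ).under A).height := fun S => by
    obtain ⟨a1, a2⟩ := reg S
    rw [hgg] at a1 a2
    exact ⟨Ideal.IsPrime.under _ _, by rwa [IsLocalization.height_under m.primeCompl]⟩
  have one : ∀ (S : Finset (Fin k ⊕ Fin l ⊕ Fin c)) (Q : Ideal A) [Q.IsPrime] (r : ℕ),
      ringKrullDim (A ⧸ Q) = r → Q ≤ m → (∀ i ∈ S, g₀ i ∈ Q) → n ≤ S.card + r →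
        ((Ideal.span (g₀ '' S)).map φ).under A = Q := by
    intro S Q _ r hr hQ hS hle
    obtain ⟨a1, a2⟩ := pull S
    obtain ⟨h, b1, b2⟩ := hht Q r hr
    refine Ideal.eq_of_le_of_height_le _ (lmain_under hQ O (Ideal.span_le.2 ?_)) (le_trans ?_ a2)
    · rintro _ ⟨i, hi, rfl⟩
      exact hS i hi
    · rw [b1]
      exact_mod_cast (by omega : h ≤ S.card)
  let S₁ : Finset (Fin k ⊕ Fin l ⊕ Fin c) := Finset.univ.map ⟨Sum.inl, Sum.inl_injective⟩
  let S₂ : Finset (Fin k ⊕ Fin l ⊕ Fin c) :=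
    Finset.univ.map ⟨Sum.inr ∘ Sum.inl, Sum.inr_injective.comp Sum.inl_injective⟩
  have c₁ : S₁.card = k := by simp [S₁]
  have c₂ : S₂.card = l := by simp [S₂]
  have c₃ : (S₁ ∪ S₂).card = k + l := by
    rw [Finset.card_union_of_disjoint, c₁, c₂]
    simp [S₁, S₂, Finset.disjoint_left]
  have m₁ : ∀ i ∈ S₁, g₀ i ∈ P₁ := by
    intro i hi
    obtain ⟨j, -, rfl⟩ := Finset.mem_map.1 hi
    exact hs j
  have m₂ : ∀ i ∈ S₂, g₀ i ∈ P₂ := by
    intro i hi
    obtain ⟨j, -, rfl⟩ := Finset.mem_map.1 hi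
    exact ht j
  have q₁ := one S₁ P₁ a ha (h1.trans hp) m₁ (by omega)
  have q₂ := one S₂ P₂ b hb (h2.trans hp) m₂ (by omega)
  have s₁ : Ideal.span (g₀ '' S₁) ≤ P₁ := Ideal.span_le.2 (by rintro _ ⟨i, hi, rfl⟩; exact m₁ i hi)
  have s₂ : Ideal.span (g₀ '' S₂) ≤ P₂ := Ideal.span_le.2 (by rintro _ ⟨i, hi, rfl⟩; exact m₂ i hi)
  have s₃ : Ideal.span (g₀ '' (S₁ ∪ S₂ : Finset _)) =
      Ideal.span (g₀ '' S₁) ⊔ Ideal.span (g₀ '' S₂) := by
    rw [Finset.coe_union, image_union, Ideal.span_union]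
  obtain ⟨r₁, r₂⟩ := pull (S₁ ∪ S₂)
  have q₃ : ((Ideal.span (g₀ '' (S₁ ∪ S₂ : Finset _))).map φ).under A = P := by
    refine hm _ r₁ ?_ ?_ (lmain_under hp O ?_)
    · rw [← q₁, s₃]
      exact Ideal.comap_mono (Ideal.map_mono le_sup_left)
    · rw [← q₂, s₃]
      exact Ideal.comap_mono (Ideal.map_mono le_sup_right)
    · rw [s₃]
      exact sup_le (s₁.trans h1) (s₂.trans h2)
  rw [q₃, c₃] at r₂
  -- pass to `L`
  let γ := algebraMap A L ∘ g₀
  have hγ : ∀ T, (Ideal.span (g₀ '' T)).map (algebraMap A L) = Ideal.span (γ '' T) := fun T => by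
    rw [Ideal.map_span, image_comp]
  have t₁ : P₁.map (algebraMap A L) = Ideal.span (S₁.image γ : Finset L) := by
    rw [Finset.coe_image, ← hγ]
    exact le_antisymm (lmain_tr hp O L q₁.ge) (Ideal.map_mono s₁)
  have t₂ : P₂.map (algebraMap A L) = Ideal.span (S₂.image γ : Finset L) := by
    rw [Finset.coe_image, ← hγ]
    exact le_antisymm (lmain_tr hp O L q₂.ge) (Ideal.map_mono s₂)
  have t₃ : maximalIdeal L = P₁.map (algebraMap A L) ⊔ P₂.map (algebraMap A L) := by
    rw [← IsLocalization.AtPrime.map_eq_maximalIdeal P L, ← Ideal.map_sup]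
    refine le_antisymm ((lmain_tr hp O L q₃.ge).trans (Ideal.map_mono ?_))
      (Ideal.map_mono (sup_le h1 h2))
    rw [s₃]
    exact sup_le_sup s₁ s₂
  refine ⟨_, _, t₁, t₂, t₃, le_antisymm ?_ ?_⟩
  · refine (ringKrullDim_le_spanFinrank_maximalIdeal L).trans ?_
    have h := MP_62d77c_ag.ufd_spanFinrank_le (S₁.image γ ∪ S₂.image γ) (id : L → L)
    rw [image_id, Finset.coe_union, Ideal.span_union, ← t₁, ← t₂, ← t₃] at h
    exact_mod_cast h.trans (Finset.card_union_le _ _)
  · rw [IsLocalization.AtPrime.ringKrullDim_eq_height P L]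
    refine le_trans ?_ (WithBot.coe_le_coe.2 r₂)
    have : (S₁.image γ).card + (S₂.image γ).card ≤ k + l :=
      add_le_add (Finset.card_image_le.trans c₁.le) (Finset.card_image_le.trans c₂.le)
    exact_mod_cast this

end Pool.Agent.Lib.MP_d3d358_ag.Mv
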