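import Pool.Agent.Lib.MP_d3d358_ag.Mv.Tan
import Pool.Agent.Lib.MP_d3d358_ag.Cw.Ld
import Pool.Agent.Lib.MP_62d77c_ag.R.Sm

/-! The dimension formula; cutting by equations. -/

set_option autoImplicit false

namespace Pool.Agent.Lib.MP_d3d358_ag.Mv

open MvPolynomial Set Matrix Topology Filter

theorem dim_ex (A : Type) [CommRing A] [Algebra ℂ A] [Algebra.FiniteType ℂ A] [IsDomain A] :
    ∃ r : ℕ, ringKrullDim A = r :=
  have ⟨r, _, h, _⟩ := Cw.spb_noether (A := A)
  ⟨r, Cw.dim_eq h⟩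

theorem dim_ht_succ {A : Type} [CommRing A] [IsDomain A] {Q P : Ideal A} [Q.IsPrime] (hQ : Q ≠ ⊥)
    [P.IsPrime] (h : Q ≤ P) [hP' : (P.map (Ideal.Quotient.mk Q)).IsPrime] :
    (P.map (Ideal.Quotient.mk Q)).height + 1 ≤ P.height := by
  let f : WithBot (PrimeSpectrum (A ⧸ Q)) → PrimeSpectrum A :=
    WithBot.recBotCoe ⟨⊥, inferInstance⟩ (PrimeSpectrum.comap (Ideal.Quotient.mk Q))
  have hf : StrictMono f := by
    refine WithBot.strictMono_iff.2 ⟨fun x y e => ?_, fun x => ?_⟩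
    · exact RingHom.strictMono_comap_of_surjective Ideal.Quotient.mk_surjective e
    · refine bot_lt_iff_ne_bot (a := x.asIdeal.comap (Ideal.Quotient.mk Q)).2 fun e => hQ ?_
      exact le_bot_iff.1 (e ▸ fun a ha => by
        simp [Ideal.mem_comap, Ideal.Quotient.eq_zero_iff_mem.2 ha])
  have := Order.height_le_height_apply_of_strictMono f hf
    (⟨P.map (Ideal.Quotient.mk Q), hP'⟩ : PrimeSpectrum _)
  rw [Order.height_coe_withBot, ← PrimeSpectrum.height_eq_orderHeight,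
    ← PrimeSpectrum.height_eq_orderHeight] at this
  refine this.trans_eq (congrArg Ideal.height ?_)
  exact (Ideal.comap_map_of_surjective _ Ideal.Quotient.mk_surjective P).trans
    (sup_eq_left.2 ((Ideal.mk_ker (I := Q)).le.trans h))

theorem dim_ge {A : Type} [CommRing A] (P : Ideal A) [hP : P.IsPrime] :
    (P.height : WithBot ℕ∞) + ringKrullDim (A ⧸ P) ≤ ringKrullDim A := by
  have : Nonempty (PrimeSpectrum A) := ⟨⟨P, hP⟩⟩
  have e : ringKrullDim (A ⧸ P) = Order.coheight (⟨P, hP⟩ : PrimeSpectrum A) := by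
    rw [ringKrullDim_quotient, Order.coheight_eq_krullDim_Ici]
    congr 2
  rw [e, ringKrullDim, Order.krullDim_eq_iSup_height_add_coheight_of_nonempty,
    PrimeSpectrum.height_eq_orderHeight ⟨P, hP⟩]
  exact_mod_cast le_iSup (fun a : PrimeSpectrum A => Order.height a + Order.coheight a) ⟨P, hP⟩

theorem dim_one {A : Type} [CommRing A] [Algebra ℂ A] [Algebra.FiniteType ℂ A] [IsDomain A]
    (Q : Ideal A) [Q.IsPrime] (h : Q.height = 1) : ringKrullDim A = ringKrullDim (A ⧸ Q) + 1 := by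
  obtain ⟨r, y, hy, -⟩ := Cw.spb_noether (A := A ⧸ Q)
  obtain ⟨g, hg, g0⟩ := Submodule.exists_mem_ne_zero_of_ne_bot (Ideal.ne_bot_of_height_eq_one h)
  choose y' e using fun i => Ideal.Quotient.mk_surjective (y i)
  rw [(Cw.ld Q h hg g0 (y := y') (by rwa [show _ ∘ y' = y from funext e])).1, Cw.dim_eq hy]
  rfl

theorem dim_le (n : ℕ) : ∀ (A : Type) [CommRing A] [Algebra ℂ A] [Algebra.FiniteType ℂ A]
    [IsDomain A] (P : Ideal A) [P.IsPrime], P.height ≤ n →
      ringKrullDim A ≤ ringKrullDim (A ⧸ P) + n := by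
  have z : ∀ (A : Type) [CommRing A], ringKrullDim (A ⧸ (⊥ : Ideal A)) = ringKrullDim A :=
    fun A _ => ringKrullDim_eq_of_ringEquiv (RingEquiv.quotientBot A)
  induction n with
  | zero =>
    intro A _ _ _ _ P _ h
    obtain rfl := Ideal.height_eq_zero_iff_eq_bot.1 (le_zero_iff.1 h)
    simp [z]
  | succ n ih =>
    intro A _ _ _ _ P _ h
    have := Algebra.FiniteType.isNoetherianRing ℂ A
    by_cases h0 : P = ⊥
    · subst h0
      rw [z]
      exact le_add_of_nonneg_right (by positivity)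
    obtain ⟨g, hg, g0⟩ := Submodule.exists_mem_ne_zero_of_ne_bot h0
    obtain ⟨Q, hQ, hQP⟩ := Ideal.exists_minimalPrimes_le ((Ideal.span_singleton_le_iff_mem P).2 hg)
    have := hQ.1.1
    have q0 : Q ≠ ⊥ := fun e => g0 (by simpa [e] using hQ.1.2)
    have h1 : Q.height = 1 :=
      le_antisymm (Ideal.height_le_one_of_isPrincipal_of_mem_minimalPrimes _ _ hQ)
        (Order.one_le_iff_ne_zero.2 fun e => q0 (Ideal.height_eq_zero_iff_eq_bot.1 e))
    have := Ideal.map_isPrime_of_surjective (Ideal.Quotient.mk_surjective (I := Q)) (I := P)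
      ((Ideal.mk_ker (I := Q)).le.trans hQP)
    have h2 := ih (A ⧸ Q) (P.map (Ideal.Quotient.mk Q))
      ((ENat.add_le_add_iff_right ENat.one_ne_top).1 ((dim_ht_succ q0 hQP).trans h))
    rw [ringKrullDim_eq_of_ringEquiv (DoubleQuot.quotQuotEquivQuotOfLE hQP)] at h2
    rw [dim_one Q h1, Nat.cast_succ, ← add_assoc]
    exact add_le_add_left h2 _

/-- induction on the height; the height one case is the first claim of `Cw.ld` -/
theorem dim_formula {A : Type} [CommRing A] [Algebra ℂ A] [Algebra.FiniteType ℂ A] [IsDomain A]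
    (P : Ideal A) [P.IsPrime] : ∃ h r : ℕ, P.height = h ∧ ringKrullDim (A ⧸ P) = r ∧
      ringKrullDim A = (h + r : ℕ) := by
  have := Algebra.FiniteType.isNoetherianRing ℂ A
  obtain ⟨h, hh⟩ := ENat.ne_top_iff_exists.1 (Ideal.height_ne_top_of_isPrime (I := P))
  obtain ⟨r, hr⟩ := dim_ex (A ⧸ P)
  have h1 := dim_le h A P hh.ge
  have h2 := dim_ge P
  rw [hr] at h1
  rw [hr, ← hh] at h2
  exact ⟨h, r, hh.symm, hr, le_antisymm (by rw [add_comm h]; exact_mod_cast h1)
    (by exact_mod_cast h2)⟩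

variable {ι : Type} {I J : Ideal (Pl ι)} {v : ι → ℂ} {a b d r : ℕ}

theorem Pr.unique (h : Pr I a) (h' : Pr I b) : a = b := by
  exact_mod_cast h.dim.symm.trans h'.dim

variable [Finite ι]

theorem exists_pr (hI : I.IsPrime) : ∃ d, Pr I d :=
  have ⟨d, h⟩ := dim_ex (Pl ι ⧸ I)
  ⟨d, hI, h⟩

theorem dim_pair (h : Pr I a) (h' : Pr J b) (hl : I ≤ J) :
    ∃ e : ℕ, (J.map (Ideal.Quotient.mk I)).height = e ∧ a = e + b := by
  have := h.prime
  have := h'.prime
  have := Ideal.map_isPrime_of_surjective (Ideal.Quotient.mk_surjective (I := I)) (I := J)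
    ((Ideal.mk_ker (I := I)).le.trans hl)
  obtain ⟨e, r, h1, h2, h3⟩ := dim_formula (J.map (Ideal.Quotient.mk I))
  rw [ringKrullDim_eq_of_ringEquiv (DoubleQuot.quotQuotEquivQuotOfLE hl), h'.dim] at h2
  obtain rfl : b = r := by exact_mod_cast h2
  exact ⟨e, h1, by exact_mod_cast h.dim.symm.trans h3⟩

theorem Pr.le_of_le (h : Pr I a) (h' : Pr J b) (hl : I ≤ J) : b ≤ a ∧ (a ≤ b → I = J) := by
  have := h.prime
  obtain ⟨e, h1, h2⟩ := dim_pair h h' hl
  refine ⟨by omega, fun hab => le_antisymm hl ?_⟩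
  obtain rfl : e = 0 := by omega
  exact ((Ideal.map_eq_bot_iff_le_ker _).1 (Ideal.height_eq_zero_iff_eq_bot.1 h1)).trans
    (Ideal.mk_ker (I := I)).le

/-- Noether normalisation with polynomial representatives -/
theorem Pr.noether (h : Pr I d) : ∃ y : Fin d → Pl ι,
    IsTranscendenceBasis ℂ (fun i => Ideal.Quotient.mk I (y i)) ∧
      (aeval (fun i => Ideal.Quotient.mk I (y i)) : Pl (Fin d) →ₐ[ℂ] Pl ι ⧸ I).toRingHom.IsIntegral := by
  have := h.prime
  obtain ⟨r, y, hy, hi⟩ := Cw.spb_noether (A := Pl ι ⧸ I)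
  obtain rfl : d = r := by exact_mod_cast h.dim.symm.trans (Cw.dim_eq hy)
  choose y' e using fun i => Ideal.Quotient.mk_surjective (y i)
  obtain rfl : (fun i => Ideal.Quotient.mk I (y' i)) = y := funext e
  exact ⟨y', hy, hi⟩

theorem Pr.trdeg (h : Pr I d) : Algebra.trdeg ℂ (Pl ι ⧸ I) = d := by
  have := h.prime
  obtain ⟨y, hy, -⟩ := h.noether
  simpa using hy.cardinalMk_eq_trdeg.symm

/-- a minimal prime over `I + (f)` inside the maximal ideal of `v`; Krull and `dim_formula` -/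
theorem Pr.cut (h : Pr I d) (hv : v ∈ Zs I) (f : Fin r → Pl ι) (hf : ∀ i, eval v (f i) = 0) :
    ∃ (C : Ideal (Pl ι)) (c : ℕ), Pr C c ∧ I ≤ C ∧ (∀ i, f i ∈ C) ∧ v ∈ Zs C ∧ d ≤ c + r := by
  have := RingHom.ker_isPrime (eval v : Pl ι →+* ℂ)
  obtain ⟨C, hC, hv'⟩ := Ideal.exists_minimalPrimes_le (I := I ⊔ Ideal.span (range f))
    (J := RingHom.ker (eval v)) (sup_le (mem_Zs.1 hv) (Ideal.span_le.2 (range_subset_iff.2 hf)))
  obtain ⟨c, hc⟩ := exists_pr hC.1.1
  have hl : I ≤ C := le_sup_left.trans hC.1.2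
  obtain ⟨e, h1, h2⟩ := dim_pair h hc hl
  refine ⟨C, c, hc, hl, fun i => hC.1.2 (Ideal.mem_sup_right (Ideal.subset_span ⟨i, rfl⟩)),
    mem_Zs.2 hv', ?_⟩
  have h3 : C.map (Ideal.Quotient.mk I) ∈
      (Ideal.span (Ideal.Quotient.mk I '' range f)).minimalPrimes := by
    rw [← Ideal.map_span, Ideal.minimalPrimes_map_of_surjective Ideal.Quotient.mk_surjective,
      Ideal.mk_ker, sup_comm]
    exact ⟨C, hC, rfl⟩
  have h4 := Ideal.height_le_card_of_mem_minimalPrimes_span ((finite_range f).image _) h3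
  rw [h1] at h4
  have h5 : (Ideal.Quotient.mk I '' range f).ncard ≤ r :=
    (ncard_image_le (finite_range f)).trans (by
      rw [← image_univ]; exact (ncard_image_le finite_univ).trans (by simp [ncard_univ]))
  have : e ≤ (Ideal.Quotient.mk I '' range f).ncard := by exact_mod_cast h4
  omega

omit [Finite ι] in
theorem dim_point {C : Ideal (Pl ι)} {c : ℕ} (h : Pr C c)
    (hv : ∀ i, X i - MvPolynomial.C (v i) ∈ C) : c = 0 := by
  have := h.prime
  have hs : Function.Surjective (algebraMap ℂ (Pl ι ⧸ C)) := fun x => by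
    obtain ⟨F, rfl⟩ := Ideal.Quotient.mk_surjective x
    refine ⟨eval v F, ?_⟩
    rw [← aeval_mk, show (fun i => Ideal.Quotient.mk C (X i)) = fun i => algebraMap ℂ _ (v i) from
      funext fun i => Ideal.Quotient.eq.2 (hv i)]
    exact (aeval_algebraMap_apply _ v F).symm
  have := h.dim
  rw [← ringKrullDim_eq_of_ringEquiv (RingEquiv.ofBijective _
    ⟨(algebraMap ℂ (Pl ι ⧸ C)).injective, hs⟩), ringKrullDim_eq_zero_of_field] at this
  exact_mod_cast this.symm

omit [Finite ι] in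
theorem dim_unr [Fintype ι] (h : Pr I d) (hv : v ∈ Zs I) {P : Matrix (Fin r) ι ℂ}
    (hP : Unr P I v) : d ≤ r := by
  obtain ⟨U, hU, hi⟩ := hP.loc_inj
  have e : ∀ (u : ι → ℂ) (k : Fin r),
      eval u (ap P (X : ι → Pl ι) k - C ((P *ᵥ v) k)) = (P *ᵥ u) k - (P *ᵥ v) k := fun u k => by
    rw [map_sub, eval_C, ← ap_eq P u]
    exact congrArg (· - _) (aeval_ap P u k)
  obtain ⟨Q, c, hc, h1, h2, h3, h4⟩ := h.cut hv
    (fun k => ap P (X : ι → Pl ι) k - C ((P *ᵥ v) k)) fun k => (e v k).trans (sub_self _)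
  have h5 : c = 0 := by
    refine dim_point hc (v := v) fun i => ?_
    by_contra hn
    obtain ⟨u, ⟨u1, u2⟩, u3⟩ := ((dense_Zs hc.prime hn h3).and_eventually
      (eventually_mem_set.2 hU)).exists
    have e' : P *ᵥ u = P *ᵥ v := by
      funext k
      have := mem_Zs.1 u1 _ (h2 k)
      rwa [e, sub_eq_zero] at this
    have : u = v := hi ⟨u3, Zs_anti h1 u1⟩ ⟨mem_of_mem_nhds hU, hv⟩ e'
    rw [this, map_sub, eval_X, eval_C] at u2
    exact u2 (sub_self _)
  omega

omit [Finite ι] in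
/-- `exists_unr`, `Unr.loc_inj`, `Pr.cut` with the equations `P y = P v`, `dense_Zs`: the cut is the
point `v` -/
theorem Pr.le_tan [Fintype ι] (h : Pr I d) (hv : v ∈ Zs I) : d ≤ Module.finrank ℂ (tan I v) :=
  have ⟨_, hP⟩ := exists_unr (I := I) (v := v) le_rfl
  dim_unr h hv hP

end Pool.Agent.Lib.MP_d3d358_ag.Mv
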