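import Pool.Agent.Lib.MP_d3d358_ag.Mv.LS
import Pool.Agent.Lib.MP_d3d358_ag.Mv.Dim
import Pool.Agent.Lib.MP_d3d358_ag.Cw.Et

/-! Dimension and transcendence rank of points. -/

set_option autoImplicit false

namespace Pool.Agent.Lib.MP_d3d358_ag.Mv

open MvPolynomial Set Matrix Topology Filter

variable {ι : Type} {I : Ideal (Pl ι)} {d : ℕ} {k k' : Set ℂ}

theorem rkv_pt {v : ι → ℂ} (hv : v ∈ Zs I) :
    ∃ p : (Pl ι ⧸ I) →ₐ[ℂ] ℂ, ∀ F, p (Ideal.Quotient.mk I F) = eval v F :=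
  ⟨Ideal.Quotient.liftₐ I (aeval v) hv, fun _ => rfl⟩

theorem rkv_ev {A : Type} [CommRing A] [Algebra ℂ A] (p : A →ₐ[ℂ] ℂ) (z : Fin d → A)
    (G : Pl (Fin d)) : p (aeval z G) = eval (fun i => p (z i)) G :=
  DFunLike.congr_fun (comp_aeval z p) G

theorem rkv_fin {κ : Type} (Q : Polynomial (Pl κ)) :
    ∃ k : Set ℂ, k.Finite ∧ ∀ n m, coeff m (Q.coeff n) ∈ cl k := by
  refine ⟨⋃ n ∈ Q.support, range fun m => coeff m (Q.coeff n),
    Q.support.finite_toSet.biUnion fun n _ => finite_coeff _, fun n m => ?_⟩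
  by_cases c : n ∈ Q.support
  · exact subset_cl _ (mem_biUnion c ⟨m, rfl⟩)
  · rw [Polynomial.notMem_support_iff.1 c, coeff_zero]
    exact zero_mem_cl _

variable [Fintype ι]

theorem rkv_key {y : Fin d → Pl ι} (hy : (aeval (fun i => Ideal.Quotient.mk I (y i)) :
      Pl (Fin d) →ₐ[ℂ] Pl ι ⧸ I).toRingHom.IsIntegral) :
    ∃ k : Set ℂ, k.Finite ∧ ∀ v ∈ Zs I, range v ⊆ cl (k ∪ range fun i => eval v (y i)) := by
  choose Q m z using fun j => hy (Ideal.Quotient.mk I (X j))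
  choose c f h using fun j => rkv_fin (Q j)
  refine ⟨⋃ j, c j, finite_iUnion f, fun v hv => range_subset_iff.2 fun j => ?_⟩
  obtain ⟨p, hp⟩ := rkv_pt hv
  refine mem_cl_of_root (Q := (Q j).map (eval fun i => eval v (y i))) ((m j).map _).ne_zero
    (fun n => ?_) ?_
  · rw [Polynomial.coeff_map]
    exact eval_mem_cl (fun a => cl_mono (subset_union_of_subset_left (subset_iUnion c j) _)
      (h j n a)) (subset_union_right.trans (subset_cl _))
  · have e : ((Q j).map (eval fun i => p (Ideal.Quotient.mk I (y i)))).IsRoot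
      (p (Ideal.Quotient.mk I (X j))) := Cw.spb_root (z j) p
    simpa only [hp, eval_X] using e

/-- `Pr.noether`; `k` = all coefficients that occur -/
theorem Pr.sm (h : Pr I d) : Sm (Zs I) d := by
  obtain ⟨y, -, hy⟩ := h.noether
  obtain ⟨k, f, a⟩ := rkv_key hy
  exact ⟨k, f, fun v hv => (rk_range k _).mono (subset_cl _) (a v hv) (Fintype.card_fin d).le⟩

/-- lift a general point along the Noether normalisation -/
theorem Pr.ns (h : Pr I d) (hk : k.Finite) :
    ∃ v ∈ Zs I, ∀ e, Rk k (range v) e → d ≤ e := by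
  obtain ⟨y, hb, hy⟩ := h.noether
  obtain ⟨t, ht⟩ := exists_gn (Fin d)
    (hk.union (finite_iUnion fun i => finite_coeff (y i)))
  let := (aeval (fun i => Ideal.Quotient.mk I (y i)) :
    Pl (Fin d) →ₐ[ℂ] Pl ι ⧸ I).toRingHom.toAlgebra
  have : Algebra.IsIntegral (Pl (Fin d)) (Pl ι ⧸ I) := ⟨hy⟩
  obtain ⟨Q, hQ, e⟩ := Ideal.exists_ideal_over_maximal_of_isIntegral (S := Pl ι ⧸ I)
    (vanishingIdeal ℂ {t}) (((RingHom.injective_iff_ker_eq_bot _).1 hb.1).trans_le bot_le)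
  obtain ⟨v, hv⟩ := isMaximal_iff_eq_vanishingIdeal_singleton.1
    (Ideal.comap_isMaximal_of_surjective (Ideal.Quotient.mk I) Ideal.Quotient.mk_surjective (K := Q))
  have z : ∀ F, Ideal.Quotient.mk I F ∈ Q → eval v F = 0 := fun F hF =>
    (mem_vanishingIdeal_singleton_iff v F).1 (hv.le hF)
  have hy : ∀ i, eval v (y i) = t i := fun i => by
    have a : (X i - C (t i) : Pl (Fin d)) ∈ vanishingIdeal ℂ {t} :=
      (mem_vanishingIdeal_singleton_iff t _).2 (by simp)
    have b := z (y i - C (t i)) (by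
      have : (aeval (fun i => Ideal.Quotient.mk I (y i)) : Pl (Fin d) →ₐ[ℂ] Pl ι ⧸ I)
        (X i - C (t i)) ∈ Q := e.ge a
      rwa [map_sub, aeval_X, aeval_C] at this)
    rwa [map_sub, eval_C, sub_eq_zero] at b
  refine ⟨v, mem_Zs.2 fun F hF => z F (by rw [Ideal.Quotient.eq_zero_iff_mem.2 hF]; exact Q.zero_mem),
    fun e he => (Fintype.card_fin d).ge.trans (ht e (he.mono
      (subset_union_left.trans (subset_cl _)) (range_subset_iff.2 fun i => ?_) le_rfl))⟩
  rw [← hy]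
  exact eval_mem_cl (fun m => subset_cl _ (Or.inl (Or.inr (mem_iUnion.2 ⟨i, m, rfl⟩))))
    (subset_union_right.trans (subset_cl _))

/-- finitely many minimal primes over `I + (H)`, or the constant term of an equation of `H` -/
theorem Pr.sm_hyp (h : Pr I (d + 1)) {H : Pl ι} (hH : H ∉ I) :
    Sm (Zs I ∩ {v | eval v H = 0}) d := by
  obtain ⟨y, -, hy⟩ := h.noether
  obtain ⟨k, f, a⟩ := rkv_key hy
  have := h.prime
  let := (aeval (fun i => Ideal.Quotient.mk I (y i)) :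
    Pl (Fin (d + 1)) →ₐ[ℂ] Pl ι ⧸ I).toRingHom.toAlgebra
  obtain ⟨G, hG, G0⟩ := Submodule.exists_mem_ne_zero_of_ne_bot
    (Ideal.comap_ne_bot_of_integral_mem (R := Pl (Fin (d + 1)))
      (fun z => hH (Ideal.Quotient.eq_zero_iff_mem.1 z))
      (Ideal.mem_span_singleton_self (Ideal.Quotient.mk I H)) (hy _))
  obtain ⟨b, hb⟩ := Ideal.mem_span_singleton'.1 (Ideal.mem_comap.1 hG)
  refine ⟨k ∪ range fun m => coeff m G, f.union (finite_coeff G), fun v hv => ?_⟩
  obtain ⟨p, hp⟩ := rkv_pt hv.1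
  obtain ⟨e, he, r⟩ := rk_rel (k := k ∪ range fun m => coeff m G) (l := fun i => eval v (y i)) G0
    (fun m => subset_cl _ (Or.inr ⟨m, rfl⟩)) (by
      have := (rkv_ev p (fun i => Ideal.Quotient.mk I (y i)) G).symm.trans (congrArg p hb.symm)
      simp only [hp, map_mul] at this
      rw [this, hv.2, mul_zero])
  rw [Fintype.card_fin] at he
  exact r.mono (subset_cl _) ((a v hv.1).trans (cl_mono
    (union_subset_union_left _ subset_union_left))) (by omega)

/-- `Cw.gen_chart`: a tangent vector that kills the `d` coordinates is zero -/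
theorem Pr.gs (h : Pr I d) :
    ∃ H ∉ I, ∀ v ∈ Zs I, eval v H ≠ 0 → Module.finrank ℂ (tan I v) ≤ d := by
  obtain ⟨y, hb, -⟩ := h.noether
  have := h.prime
  obtain ⟨G, n, G0, -, a⟩ := Cw.gen_chart hb
  have eH : Ideal.Quotient.mk I (aeval y G) = aeval (fun i => Ideal.Quotient.mk I (y i)) G :=
    DFunLike.congr_fun (comp_aeval y (Ideal.Quotient.mkₐ ℂ I)) G
  refine ⟨aeval y G, fun c => G0 (hb.1 (eH.symm.trans
    ((Ideal.Quotient.eq_zero_iff_mem.2 c).trans (map_zero _).symm))), fun v hv hG => ?_⟩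
  obtain ⟨p, hp⟩ := rkv_pt hv
  rw [← hp, eH, rkv_ev] at hG
  have b := ((a _ hG).2 p rfl).2
  let L : tan I v →ₗ[ℂ] Fin d → ℂ :=
    (LinearMap.pi fun i => dotProductBilin ℂ ℂ (grad v (y i))).comp (tan I v).subtype
  refine (LinearMap.finrank_le_finrank_of_injective (f := L)
    ((injective_iff_map_eq_zero L).2 fun ξ z => Subtype.ext (funext fun j => ?_))).trans_eq
    (Module.finrank_fin_fun ℂ)
  let φ := Ideal.Quotient.liftₐ I (aeval _) ((mem_tan_dual hv).1 ξ.2)
  have hφ : ∀ F, φ (Ideal.Quotient.mk I F) = .inl (eval v F) + .inr (grad v F ⬝ᵥ ξ.1) :=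
    fun F => aeval_dual v ξ.1 F
  have s : ∀ F, φ (Ideal.Quotient.mk I F - algebraMap ℂ _ (p (Ideal.Quotient.mk I F))) =
      .inr (grad v F ⬝ᵥ ξ.1) := fun F => by
    rw [map_sub, hφ, AlgHom.commutes, hp]
    exact add_sub_cancel_left _ _
  obtain ⟨c, c0, m⟩ := b (Ideal.Quotient.mk I (X j))
  obtain ⟨B, rfl⟩ := Ideal.Quotient.mk_surjective c
  have w := (Ideal.span_le.2 (range_subset_iff.2 fun i => (s (y i)).trans (by
    rw [show grad v (y i) ⬝ᵥ ξ.1 = 0 from congrFun z i, TrivSqZeroExt.inr_zero])) :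
      _ ≤ RingHom.ker φ) m
  have w' : φ _ * φ _ = 0 := (map_mul φ _ _).symm.trans w
  have := congrArg TrivSqZeroExt.snd ((congrArg₂ (· * ·) (hφ B) (s (X j))).symm.trans w')
  rw [grad_X_dot] at this
  have o : ξ.1 j = 0 ∨ eval v B = 0 := by simpa using this
  exact o.resolve_right fun e => c0 ((hp B).trans e)

theorem St.mono (h : St k I d) (hk : k ⊆ k') : St k' I d :=
  ⟨fun v hv => (h.rk v hv).sub hk subset_rfl le_rfl,
    fun v hv => (h.df v hv).mono ((union_subset_union_left _ hk).trans (subset_cl _)),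
    fun v hv c => (h.sg v hv c).sub hk subset_rfl le_rfl⟩

theorem Pr.st (h : Pr I (d + 1)) : ∃ k : Set ℂ, k.Finite ∧ St k I d := by
  obtain ⟨a, fa, ha⟩ := h.sm
  obtain ⟨b, fb, hb⟩ := exists_df_tan I
  obtain ⟨H, hH, g⟩ := h.gs
  obtain ⟨c, fc, hc⟩ := h.sm_hyp hH
  refine ⟨a ∪ b ∪ c, (fa.union fb).union fc,
    fun v hv => (ha v hv).sub (subset_union_left.trans subset_union_left) subset_rfl le_rfl,
    fun v hv => (hb v hv).mono ((union_subset_union_left _
      (subset_union_right.trans subset_union_left)).trans (subset_cl _)),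
    fun v hv s => (hc v ⟨hv, ?_⟩).sub subset_union_right subset_rfl le_rfl⟩
  by_contra z
  exact s.not_ge (g v hv z)

end Pool.Agent.Lib.MP_d3d358_ag.Mv
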