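import Pool.Agent.Lib.MP_d3d358_ag.Mv.Cone2
import Pool.Agent.Lib.MP_d3d358_ag.Mv.LMain
import Pool.Agent.Lib.MP_d3d358_ag.Mv.LA
import Pool.Agent.Lib.MP_d3d358_ag.Mv.IL0
import Pool.Agent.Lib.MP_d3d358_ag.Mv.RkV
import Pool.Agent.Lib.MP_d3d358_ag.Cw.Int

/-! From good points to generic transversality. -/

set_option autoImplicit false
set_option linter.style.haveILetI false

namespace Pool.Agent.Lib.MP_d3d358_ag.Mv

open CategoryTheory AlgebraicGeometry Set Matrix Cw MvPolynomial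

variable {W : Sch} {ι : Type} [Fintype ι] [Gd W] {η x y z : W.left} (D : Prj W ι)

theorem trv_norm [IsIntegral W.left] (hη : ∀ w, η ⤳ w) (hr : Reg (D.cI η) (dm η + 1))
    (h : Meet x y z) {v : ι → ℂ} (hv : v ∈ Zs (D.cI z)) {j : ι} (hj : v j = 1)
    (hg : Good (D.cI η) (D.cI x) (D.cI y) (dm x + 1) (dm y + 1) v) : Transv h.1 h.2.1 := by
  have h0 : v ≠ 0 := fun e => by simp [e] at hj
  have hv0 := Zs_anti (D.spec_iff.1 (hη z)) hv
  obtain ⟨k, l, c, s, t, u, hs, ht, hu, hk, e0, e1, e2⟩ := hg.gens (D.hg x) (D.hg y)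
    (Zs_anti (D.spec_iff.1 h.1) hv) (Zs_anti (D.spec_iff.1 h.2.1) hv) hv0 hj (hr v hv0 h0)
  obtain ⟨hz, p, hp, hpz⟩ := D.exists_hom (R := ℂ) hv hj
  have hU := D.aff j
  have hx : x ∈ D.U j := h.1.mem_open (D.U j).2 hz
  have hy : y ∈ D.U j := h.2.1.mem_open (D.U j).2 hz
  have he : η ∈ D.U j := (hη z).mem_open (D.U j).2 hz
  haveI : Nonempty (D.U j) := ⟨⟨z, hz⟩⟩
  haveI := dm_ft hU
  letI := W.left.presheaf.algebra_section_stalk (⟨z, hz⟩ : D.U j)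
  haveI := hU.isLocalization_stalk ⟨z, hz⟩
  have hb : pri hU he = ⊥ := by
    obtain ⟨w, hw, e⟩ := exists_pri hU ⊥
    exact le_bot_iff.1 (e ▸ (pri_le_iff hU he hw).2 (hη w))
  have hn : ringKrullDim Γ(W.left, D.U j) = dm η := by
    rw [← dm_eq hU he, hb]
    exact (ringKrullDim_eq_of_ringEquiv (RingEquiv.quotientBot _)).symm
  set π : Pl ι →ₐ[ℂ] Γ(W.left, D.U j) := aeval fun i => D.s i j with hπ
  have hpπ : ∀ F, p (π F) = eval v F := fun F => by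
    rw [hπ, comp_aeval_apply, funext hp, aeval_eq_eval]
  have sp : ∀ {m : ℕ} (f : Fin m → Pl ι),
      (Ideal.span (range f)).map π = Ideal.span (range fun i => π (f i)) := fun f => by
    rw [Ideal.map_span, ← range_comp]
    rfl
  obtain ⟨s', t', q1, q2, q3, q4⟩ := lmain p (P₁ := pri hU hx) (P₂ := pri hU hy) (P := pri hU hz)
    hn (dm_eq hU hx) (dm_eq hU hy) ((pri_le_iff hU hx hz).2 h.1) ((pri_le_iff hU hy hz).2 h.2.1)
    (fun Q hQ a b c => by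
      obtain ⟨w, hw, rfl⟩ := exists_pri hU Q
      obtain rfl := h.2.2 w ((pri_le_iff hU hx hw).1 a) ((pri_le_iff hU hy hw).1 b)
        ((pri_le_iff hU hw hz).1 c)
      rfl) hpz (s := fun i => π (s i)) (t := fun i => π (t i)) (u := fun i => π (u i))
    (fun i => (D.pri_iff hx _).2 (Ideal.mem_sup_left (hs i)))
    (fun i => (D.pri_iff hy _).2 (Ideal.mem_sup_left (ht i))) (fun i => (hpπ _).trans (hu i))
    (fun a ha => by
      obtain ⟨F, rfl⟩ := D.pi_surj j a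
      have h1 := Ideal.mem_map_of_mem π (hk (show eval v F = 0 from (hpπ F).symm.trans ha))
      have h2 : (D.cI η ⊔ Ideal.span {X j - 1}).map π ≤ ⊥ :=
        Ideal.map_le_iff_le_comap.2 fun G hG => hb ▸ (D.pri_iff he G).2 hG
      have h3 : (RingHom.ker (eval v)).map π ≤ RingHom.ker p :=
        Ideal.map_le_iff_le_comap.2 fun G hG => (hpπ G).trans hG
      rw [Ideal.map_sup, Ideal.map_sup, Ideal.map_sup, Ideal.map_sup, sp, sp, sp,
        Ideal.map_pow] at h1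
      exact sup_le (sup_le_sup_left (Ideal.pow_right_mono h3 2) _) (h2.trans bot_le) h1)
    e0 e1 e2 (W.left.presheaf.stalk z)
  have i1 := int_idl hU h.1 hx hz
  have i2 := int_idl hU h.2.1 hy hz
  exact ⟨s', t', i1.symm.trans q1, i2.symm.trans q2, q3.trans (by rw [← i1, ← i2]; rfl), q4⟩

/-- scale to `v j = 1` (`tan_smul`), `Good.gens`, `lmain` for `Γ(U j)`, `Cw.int_idl` -/
theorem Prj.transv [IsIntegral W.left] (hη : ∀ w, η ⤳ w) (hr : Reg (D.cI η) (dm η + 1))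
    (h : Meet x y z) {v : ι → ℂ} (hv : v ∈ Zs (D.cI z)) (h0 : v ≠ 0)
    (hg : Good (D.cI η) (D.cI x) (D.cI y) (dm x + 1) (dm y + 1) v) : Transv h.1 h.2.1 := by
  obtain ⟨j, hj⟩ := Function.ne_iff.1 h0
  have hj' : v j ≠ 0 := hj
  refine trv_norm D hη hr h ((D.hg z).smul_mem hv (v j)⁻¹) (j := j) (inv_mul_cancel₀ hj') ?_
  unfold Good at hg ⊢
  rwa [tan_smul (D.hg x) (inv_ne_zero hj'), tan_smul (D.hg y) (inv_ne_zero hj'),
    tan_smul (D.hg η) (inv_ne_zero hj')]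

/-- a point `v ≠ 0` of the cone of `z` off the other components (`Cw.exists_comp`, `nss`), `il0`,
`exists_pt` for the generic point of `C` -/
theorem Prj.il (hη : ∀ w, η ⤳ w) (hr : Reg (D.cI η) (dm η + 1)) (h : Meet x y z) :
    dm x + dm y ≤ dm z + dm η := by
  classical
  obtain ⟨s, s1, s2⟩ := exists_comp (D := (closure {x} ∩ closure {y} : Set W.left))
    (isClosed_closure.inter isClosed_closure)
  simp only [mem_inter_iff, ← specializes_iff_mem_closure] at s1 s2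
  have hF : ∀ z' ∈ s.erase z, ∃ F ∈ D.cI z', F ∉ D.cI z := fun z' hz' => by
    obtain ⟨q1, q2⟩ := Finset.mem_erase.1 hz'
    by_contra! hn
    exact q1 (h.2.2 z' ((s1 z').1 q2).1.1 ((s1 z').1 q2).1.2 (D.spec_iff.2 hn))
  choose! F F1 F2 using hF
  obtain ⟨j, hj⟩ := D.cov z
  have hP := (D.cn z).prime
  have hG : X j * ∏ z' ∈ s.erase z, F z' ∉ D.cI z := fun hm => by
    rcases hP.mem_or_mem hm with hm | hm
    · exact D.mem_iff.1 hj hm
    · obtain ⟨z', h1, h2⟩ := Ideal.IsPrime.prod_mem_iff.1 hm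
      exact F2 z' h1 h2
  obtain ⟨v, hv, hv'⟩ : ∃ v ∈ Zs (D.cI z), eval v (X j * ∏ z' ∈ s.erase z, F z') ≠ 0 := by
    by_contra! hn
    exact hG (nss hP hn)
  rw [map_mul, eval_X, map_prod, mul_ne_zero_iff, Finset.prod_ne_zero_iff] at hv'
  have hv0 := Zs_anti (D.spec_iff.1 (hη z)) hv
  obtain ⟨C, c, hC, c1, c2, c3, c4⟩ := il0 (D.cn x).toPr (D.cn y).toPr (D.spec_iff.1 (hη x))
    (D.spec_iff.1 (hη y)) (Zs_anti (D.spec_iff.1 h.1) hv) (Zs_anti (D.spec_iff.1 h.2.1) hv)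
    (hr v hv0 fun e => hv'.1 (congrFun e j))
  haveI := hC.prime
  let φ := IsScalarTower.toAlgHom ℂ (Pl ι ⧸ C) (FractionRing (Pl ι ⧸ C))
  have hφ : Function.Injective φ := IsFractionRing.injective (Pl ι ⧸ C) _
  have e : ∀ G, aeval (fun i => φ (Ideal.Quotient.mk C (X i))) G = 0 ↔ G ∈ C := fun G => by
    rw [← comp_aeval_apply, aeval_mk, map_eq_zero_iff φ hφ, Ideal.Quotient.eq_zero_iff_mem]
  have on : ∀ I ≤ C, On I fun i => φ (Ideal.Quotient.mk C (X i)) := fun I hI G hG =>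
    (e G).2 (hI hG)
  obtain ⟨w, hw, -⟩ := D.exists_pt (on _ c1) fun e0 => hv'.1 (by
    have := mem_Zs.1 c3 (X j) ((e _).1 (by rw [aeval_X]; exact congrFun e0 j))
    rwa [eval_X] at this)
  obtain ⟨z', h1, h2⟩ := (s2 w).1 ⟨D.spec_iff.2 (hw ▸ (le_hk (D.hg x)).2 (on _ c1)),
    D.spec_iff.2 (hw ▸ (le_hk (D.hg y)).2 (on _ c2))⟩
  have h3 : D.cI z' ≤ C := fun G hG => (e G).1 (on_hk _ G (hw ▸ D.spec_iff.1 h2 hG))
  obtain rfl : z' = z := by
    by_contra hne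
    have hm := Finset.mem_erase.2 ⟨hne, h1⟩
    exact hv'.2 z' hm (mem_Zs.1 c3 _ (h3 (F1 z' hm)))
  have := ((D.cn z').toPr.le_of_le hC h3).1
  omega

theorem Prj.gt [IsIntegral W.left] (hη : ∀ w, η ⤳ w) (hr : Reg (D.cI η) (dm η + 1))
    (hs : Sm ((Zs (D.cI x) ∩ Zs (D.cI y)) \
      {v | Good (D.cI η) (D.cI x) (D.cI y) (dm x + 1) (dm y + 1) v}) (dm x + dm y - dm η)) :
    GT x y := by
  intro z h
  obtain ⟨k, hk, hs⟩ := hs
  obtain ⟨v, hv, hd⟩ := (D.cn z).toPr.ns hk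
  refine D.transv hη hr h hv (fun e => ?_) (by_contra fun hn => ?_)
  · have := hd 0 (e ▸ rk_zero_vec k 0)
    omega
  · have h1 := hd _ (hs v ⟨⟨Zs_anti (D.spec_iff.1 h.1) hv, Zs_anti (D.spec_iff.1 h.2.1) hv⟩, hn⟩)
    have h2 := D.il hη hr h
    omega

end Pool.Agent.Lib.MP_d3d358_ag.Mv
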