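import Pool.Agent.Lib.MP_d3d358_ag.Mv.PDef
import Pool.Agent.Lib.MP_d3d358_ag.Mv.Dim
import Pool.Agent.Lib.MP_d3d358_ag.Cw.Fnd
import Pool.Agent.Lib.MP_d3d358_ag.Cw.PushA

/-! Points of a projective scheme and their cones. -/

set_option autoImplicit false

namespace Pool.Agent.Lib.MP_d3d358_ag.Mv

open CategoryTheory AlgebraicGeometry Set Matrix Cw MvPolynomial

variable {W : Sch} {ι R : Type} [CommRing R] [Algebra ℂ R] {U : W.left.Opens} {w x z : W.left}
  {j k : ι} (D : Prj W ι)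

theorem evA_eq_zero (hU : IsAffineOpen U) (hw : w ∈ U) (a : Γ(W.left, U)) :
    evA U w hw a = 0 ↔ a ∈ pri hU hw := push_ev_zero hU hw a

theorem Prj.crd_self (hj : w ∈ D.U j) : D.crd hj j = 1 := by
  rw [Prj.crd, D.one, map_one]

theorem Prj.crd_eq (hj : w ∈ D.U j) (hk : w ∈ D.U k) : D.crd hj = D.crd hj k • D.crd hk :=
  funext fun i => (D.coc i j k w hj hk).trans (mul_comm _ _)

theorem Prj.cI_eq (hj : w ∈ D.U j) : D.cI w = hk (D.crd hj) := by
  refine le_antisymm (iInf₂_le j hj) (le_iInf₂ fun k h => ?_)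
  rw [D.crd_eq hj h]
  exact (hk_smul ((D.mem j k w hj).1 h) _).le

theorem Prj.hg (w : W.left) : Hg (D.cI w) := by
  obtain ⟨j, hj⟩ := D.cov w
  rw [D.cI_eq hj]
  exact hg_hk _

theorem Prj.mem_iff : w ∈ D.U j ↔ X j ∉ D.cI w := by
  obtain ⟨k, h⟩ := D.cov w
  rw [D.cI_eq h, mem_hk_hom (isHomogeneous_X ℂ j), aeval_X]
  exact D.mem k j w h

theorem Prj.pi_surj (j : ι) :
    Function.Surjective (aeval fun i => D.s i j : Pl ι →ₐ[ℂ] Γ(W.left, D.U j)) := by
  rw [← AlgHom.range_eq_top, ← Algebra.adjoin_range_eq_range_aeval]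
  exact D.gen j

theorem Prj.cone_ev (hj : w ∈ D.U j) (F : Pl ι) :
    evA (D.U j) w hj (aeval (fun i => D.s i j) F) = aeval (D.crd hj) F :=
  comp_aeval_apply _ (evA (D.U j) w hj) F

theorem Prj.pri_iff (hj : w ∈ D.U j) (F : Pl ι) :
    aeval (fun i => D.s i j) F ∈ pri (D.aff j) hj ↔ F ∈ D.cI w ⊔ Ideal.span {X j - 1} := by
  rw [← evA_eq_zero, D.cone_ev, D.cI_eq hj, ← ker_aeval (D.crd_self hj), RingHom.mem_ker]

theorem pri_le_iff (hU : IsAffineOpen U) (hx : x ∈ U) (hz : z ∈ U) :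
    pri hU hx ≤ pri hU hz ↔ x ⤳ z := (specializes_iff_pri hU hx hz).symm

theorem exists_pri (hU : IsAffineOpen U) (P : Ideal Γ(W.left, U)) [P.IsPrime] :
    ∃ (w : W.left) (hw : w ∈ U), pri hU hw = P := by
  let q : Spec Γ(W.left, U) := ⟨P, ‹_›⟩
  have hw : hU.fromSpec q ∈ U := hU.range_fromSpec.le ⟨q, rfl⟩
  have e : hU.primeIdealOf ⟨_, hw⟩ = q :=
    hU.fromSpec.isOpenEmbedding.injective (hU.fromSpec_primeIdealOf ⟨_, hw⟩)
  exact ⟨_, hw, congrArg PrimeSpectrum.asIdeal e⟩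

theorem Prj.spec_iff : x ⤳ z ↔ D.cI x ≤ D.cI z := by
  obtain ⟨j, hz⟩ := D.cov z
  constructor
  · intro h
    have hx : x ∈ D.U j := h.mem_open (D.U j).isOpen hz
    rw [D.cI_eq hz, le_hk (D.hg x)]
    intro F hF
    rw [← D.cone_ev, evA_eq_zero (D.aff j)]
    exact (pri_le_iff _ hx hz).2 h ((D.pri_iff hx F).2 (Ideal.mem_sup_left hF))
  · intro h
    have hx : x ∈ D.U j := D.mem_iff.2 fun k => D.mem_iff.1 hz (h k)
    refine (pri_le_iff (D.aff j) hx hz).1 fun a ha => ?_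
    obtain ⟨F, rfl⟩ := D.pi_surj j a
    exact (D.pri_iff hz F).2 (sup_le_sup_right h _ ((D.pri_iff hx F).1 ha))

theorem Prj.cI_inj : Function.Injective D.cI := fun _ _ h =>
  ((D.spec_iff.2 h.le).antisymm (D.spec_iff.2 h.ge)).eq

/-- the affine cone has one dimension more than its chart -/
theorem cone_dim [Finite ι] {I : Ideal (Pl ι)} [hI : I.IsPrime] (hg : Hg I) {B : Type} [CommRing B]
    [IsDomain B] (ψ : Pl ι →+* B) (hs : Function.Surjective ψ)
    (hk : RingHom.ker ψ = I ⊔ Ideal.span {X j - 1}) {r : ℕ} (hr : ringKrullDim B = r) :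
    ringKrullDim (Pl ι ⧸ I) = (r + 1 : ℕ) := by
  let f := Ideal.Quotient.mk I (X j - 1)
  have hm : (Ideal.span {X j - 1}).map (Ideal.Quotient.mk I) = Ideal.span {f} := by
    rw [Ideal.map_span, image_singleton]
  let e : ((Pl ι ⧸ I) ⧸ Ideal.span {f}) ≃+* B :=
    (Ideal.quotEquivOfEq hm.symm).trans ((DoubleQuot.quotQuotEquivQuotSup _ _).trans
      ((Ideal.quotEquivOfEq hk.symm).trans (RingHom.quotientKerEquivOfSurjective hs)))
  have hp : (Ideal.span {f}).IsPrime :=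
    (Ideal.Quotient.isDomain_iff_prime _).1 (e.toMulEquiv.isDomain B)
  have f0 : f ≠ 0 := fun h => by
    have h0 := hg _ (Ideal.Quotient.eq_zero_iff_mem.1 h) 0
    rw [homogeneousComponent_zero] at h0
    have : coeff 0 (X j - 1 : Pl ι) = -1 := by simp
    rw [this] at h0
    exact hI.ne_top (Ideal.eq_top_of_isUnit_mem _ h0 (isUnit_one.neg.map C))
  have h1 := Ideal.height_span_singleton_eq_one_of_mem_nonZeroDivisors
    (mem_nonZeroDivisors_of_ne_zero f0) fun h => hp.ne_top (Ideal.span_singleton_eq_top.2 h)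
  obtain ⟨h, r', a1, a2, a3⟩ := dim_formula (Ideal.span {f})
  have b1 : h = 1 := by exact_mod_cast a1.symm.trans h1
  have b2 : r' = r := by
    exact_mod_cast a2.symm.trans ((ringKrullDim_eq_of_ringEquiv e).trans hr)
  rw [a3, b1, b2, add_comm]

/-- the prime `(X j - 1)` of `Pl ι ⧸ cI w` has height one and quotient `Γ(U j) ⧸ pri` -/
theorem Prj.cn [Gd W] [Finite ι] (w : W.left) : Cn (D.cI w) (dm w + 1) := by
  obtain ⟨j, hj⟩ := D.cov w
  have hp : (D.cI w).IsPrime := by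
    rw [D.cI_eq hj]
    exact hk_prime _
  refine ⟨⟨hp, cone_dim (j := j) (D.hg w) ((Ideal.Quotient.mk (pri (D.aff j) hj)).comp
    (aeval fun i => D.s i j : Pl ι →ₐ[ℂ] Γ(W.left, D.U j)).toRingHom)
    (Ideal.Quotient.mk_surjective.comp (D.pi_surj j)) (Ideal.ext fun F => ?_) (dm_eq _ hj)⟩, D.hg w⟩
  exact Ideal.Quotient.eq_zero_iff_mem.trans (D.pri_iff hj F)

theorem Prj.exists_hom [Nontrivial R] {y : ι → R} (h : On (D.cI w) y) (hj : y j = 1) :
    ∃ (hw : w ∈ D.U j) (φ : Γ(W.left, D.U j) →ₐ[ℂ] R), (∀ i, φ (D.s i j) = y i) ∧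
      pri (D.aff j) hw ≤ RingHom.ker φ := by
  have hw : w ∈ D.U j := D.mem_iff.2 fun k => by simpa [hj] using h _ k
  have key : ∀ F : Pl ι, aeval (fun i => D.s i j) F ∈ pri (D.aff j) hw → aeval y F = 0 := by
    intro F hF
    refine (show _ ≤ RingHom.ker (aeval y : Pl ι →ₐ[ℂ] R) from sup_le (fun G hG => h G hG) ?_)
      ((D.pri_iff hw F).1 hF)
    rw [Ideal.span_le, singleton_subset_iff]
    simp [RingHom.mem_ker, hj]
  have H : RingHom.ker (aeval fun i => D.s i j : Pl ι →ₐ[ℂ] Γ(W.left, D.U j)).toRingHom ≤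
      RingHom.ker (aeval y : Pl ι →ₐ[ℂ] R).toRingHom := fun F hF =>
    key F ((show aeval (fun i => D.s i j) F = 0 from hF) ▸ zero_mem _)
  have e := AlgHom.liftOfSurjective_apply _ (D.pi_surj j) (aeval y) H
  refine ⟨hw, AlgHom.liftOfSurjective _ (D.pi_surj j) (aeval y) H, fun i => ?_, fun a ha => ?_⟩
  · simpa using e (X i)
  · obtain ⟨F, rfl⟩ := D.pi_surj j a
    exact (e F).trans (key F ha)

end Pool.Agent.Lib.MP_d3d358_ag.Mv
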