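import Pool.Agent.Lib.MP_d3d358_ag.Mv.PP
import Pool.Agent.Lib.MP_d3d358_ag.Mv.Cone

/-! The cube embedding. -/

set_option autoImplicit false

namespace Pool.Agent.Lib.MP_d3d358_ag.Mv

open CategoryTheory AlgebraicGeometry Set Matrix Cw MvPolynomial

section

variable {W : Sch} {ι : Type}

theorem ver_alg {U : W.left.Opens} (f : Γ(W.left, U)) (c : ℂ) :
    algebraMap Γ(W.left, U) Γ(W.left, W.left.basicOpen f) (algebraMap ℂ Γ(W.left, U) c) =
      algebraMap ℂ Γ(W.left, W.left.basicOpen f) c :=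
  ConcreteCategory.congr_hom (W.hom.appLE_map (U := ⊤) (V := U) le_top
    (homOfLE (W.left.basicOpen_le f)).op) _

theorem ver_ev {U : W.left.Opens} (f : Γ(W.left, U)) {w : W.left} (hw : w ∈ W.left.basicOpen f)
    (a : Γ(W.left, U)) :
    evA _ w hw (algebraMap Γ(W.left, U) Γ(W.left, W.left.basicOpen f) a) =
      evA U w (W.left.basicOpen_le f hw) a :=
  evA_res (W.left.basicOpen_le f) hw a

theorem ver_mem {U : W.left.Opens} (f : Γ(W.left, U)) {w : W.left} (hw : w ∈ U) :
    w ∈ W.left.basicOpen f ↔ evA U w hw f ≠ 0 :=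
  (W.left.evaluation_ne_zero_iff_mem_basicOpen w hw f).symm

theorem ver_inv {U : W.left.Opens} (hU : IsAffineOpen U) (f : Γ(W.left, U)) :
    ∃ g, algebraMap Γ(W.left, U) Γ(W.left, W.left.basicOpen f) f * g = 1 :=
  haveI := hU.isLocalization_basicOpen f
  (IsLocalization.Away.algebraMap_isUnit f).exists_right_inv

theorem ver_gen {U : W.left.Opens} (hU : IsAffineOpen U) (f : Γ(W.left, U)) {s : ι → Γ(W.left, U)}
    (hs : Algebra.adjoin ℂ (range s) = ⊤) {g : Γ(W.left, W.left.basicOpen f)}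
    (hg : algebraMap Γ(W.left, U) _ f * g = 1) (A : Subalgebra ℂ Γ(W.left, W.left.basicOpen f))
    (h1 : ∀ i, algebraMap Γ(W.left, U) _ (s i) ∈ A) (h2 : g ∈ A) : A = ⊤ := by
  haveI := hU.isLocalization_basicOpen f
  have k : ∀ a : Γ(W.left, U), algebraMap Γ(W.left, U) _ a ∈ A := fun a => by
    have ha : a ∈ Algebra.adjoin ℂ (range s) := hs ▸ Algebra.mem_top
    induction ha using Algebra.adjoin_induction with
    | mem x hx => obtain ⟨i, rfl⟩ := hx; exact h1 i
    | algebraMap c => rw [ver_alg]; exact A.algebraMap_mem c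
    | add x y _ _ hx hy => rw [map_add]; exact A.add_mem hx hy
    | mul x y _ _ hx hy => rw [map_mul]; exact A.mul_mem hx hy
  refine eq_top_iff.2 fun z _ => ?_
  obtain ⟨n, a, h⟩ := IsLocalization.Away.surj f z
  have e : z = algebraMap Γ(W.left, U) _ a * g ^ n := by
    rw [← h, mul_assoc, ← mul_pow, hg, one_pow, mul_one]
  rw [e]
  exact A.mul_mem (k a) (A.pow_mem h2 n)

/-- the cubic monomials -/
def verT {K : Type} [Mul K] (x : ι → K) (i : ι × ι × ι) : K := x i.1 * x i.2.1 * x i.2.2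

variable (D : Prj W ι)

/-- the function inverted on the chart `j` -/
noncomputable def verF (j : ι × ι × ι) : Γ(W.left, D.U j.1) := D.s j.2.1 j.1 * D.s j.2.2 j.1

theorem ver_T {w : W.left} {m a : ι} (hm : w ∈ D.U m) (ha : w ∈ D.U a) (i : ι × ι × ι) :
    verT (D.crd hm) i = D.crd hm a ^ 3 * evA _ w ha (verT (fun k => D.s k a) i) := by
  have h : ∀ k, D.crd hm k = evA _ w ha (D.s k a) * D.crd hm a := fun k => D.coc k m a w hm ha
  simp only [verT, map_mul]
  rw [h i.1, h i.2.1, h i.2.2]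
  ring

theorem ver_F (j : ι × ι × ι) : verT (fun k => D.s k j.1) j = verF D j := by
  rw [verT, D.one, one_mul, verF]

theorem ver_U {w : W.left} {m : ι} (hm : w ∈ D.U m) (j : ι × ι × ι) :
    w ∈ W.left.basicOpen (verF D j) ↔ verT (D.crd hm) j ≠ 0 := by
  constructor
  · intro h
    have ha := W.left.basicOpen_le _ h
    rw [ver_T D hm ha, ver_F]
    exact mul_ne_zero (pow_ne_zero 3 ((D.mem m j.1 w hm).1 ha)) ((ver_mem _ ha).1 h)
  · intro h
    have ha : w ∈ D.U j.1 := (D.mem m j.1 w hm).2 (left_ne_zero_of_mul (left_ne_zero_of_mul h))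
    rw [ver_T D hm ha, ver_F] at h
    exact (ver_mem _ ha).2 (right_ne_zero_of_mul h)

end

/-- `U (a,b,c) = U a ⊓ U b ⊓ U c` = the basic open set of `s b a * s c a` in `U a`;
`s (d,e,f) (a,b,c) = s d a * s e b * s f c` restricted -/
theorem Prj.cube {W : Sch} {ι : Type} (D : Prj W ι) :
    ∃ D' : Prj W (ι × ι × ι), ∀ w, Cub (D'.cI w) := by
  choose g hg using fun j : ι × ι × ι => ver_inv (D.aff j.1) (verF D j)
  obtain ⟨s, hs⟩ : ∃ s : ι × ι × ι → ∀ j, Γ(W.left, W.left.basicOpen (verF D j)), ∀ i j,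
      s i j = algebraMap Γ(W.left, D.U j.1) _ (verT (fun k => D.s k j.1) i) * g j :=
    ⟨_, fun _ _ => rfl⟩
  have val : ∀ {w : W.left} {m : ι} (hm : w ∈ D.U m) (i j : ι × ι × ι)
      (hw : w ∈ W.left.basicOpen (verF D j)),
      evA _ w hw (s i j) = verT (D.crd hm) i / verT (D.crd hm) j := fun {w m} hm i j hw => by
    have ha := W.left.basicOpen_le _ hw
    have e := congrArg (evA _ w hw) (hg j)
    rw [map_mul, map_one, ver_ev] at e
    rw [eq_div_iff ((ver_U D hm j).1 hw), hs, map_mul, ver_ev, ver_T D hm ha i, ver_T D hm ha j,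
      ver_F]
    linear_combination D.crd hm j.1 ^ 3 * evA _ w ha (verT (fun k => D.s k j.1) i) * e
  refine ⟨⟨fun j => W.left.basicOpen (verF D j), s, fun j => (D.aff j.1).basicOpen _,
    fun w => ?_, fun j => by rw [hs, ver_F, hg], fun j => ?_, fun j k w hj => ?_,
    fun i j k w hj hk => ?_⟩, fun w => ?_⟩
  · obtain ⟨m, hm⟩ := D.cov w
    refine ⟨(m, m, m), (ver_U D hm _).2 ?_⟩
    simp only [verT, D.crd_self hm, mul_one]
    exact one_ne_zero
  · refine ver_gen (D.aff j.1) _ (D.gen j.1) (hg j) _ (fun i => ?_) ?_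
    · refine Algebra.subset_adjoin ⟨(i, j.2), ?_⟩
      change s (i, j.2) j = _
      rw [hs, verT, mul_assoc, map_mul, mul_assoc]
      exact (congrArg _ (hg j)).trans (mul_one _)
    · refine Algebra.subset_adjoin ⟨(j.1, j.1, j.1), ?_⟩
      change s (j.1, j.1, j.1) j = _
      simp only [hs, verT, D.one, mul_one, map_one, one_mul]
  · obtain ⟨m, hm⟩ := D.cov w
    rw [val hm k j hj, ver_U D hm, div_ne_zero_iff]
    exact (and_iff_left ((ver_U D hm j).1 hj)).symm
  · obtain ⟨m, hm⟩ := D.cov w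
    have := (ver_U D hm k).1 hk
    rw [val hm i j hj, val hm i k hk, val hm k j hj]
    field_simp
  · obtain ⟨m, hm⟩ := D.cov w
    have key : ∀ {F : Pl (ι × ι × ι)} {d : ℕ}, F.IsHomogeneous d →
        (∀ c : Kp w, aeval (fun i => verT (D.crd hm) i / c) F = 0) →
        ∀ j (hj : w ∈ W.left.basicOpen (verF D j)), F ∈ hk fun i => evA _ w hj (s i j) :=
      fun hF h j hj => (mem_hk_hom hF).2 (by simp only [val hm _ j hj]; exact h _)
    refine ⟨fun a b c d e f => ?_, fun a b c => ?_, fun a b c => ?_⟩ <;>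
      refine (Submodule.mem_iInf _).2 fun j => (Submodule.mem_iInf _).2 fun hj => ?_
    · refine key (((isHomogeneous_X ℂ _).mul (isHomogeneous_X ℂ _)).sub
        ((isHomogeneous_X ℂ _).mul (isHomogeneous_X ℂ _))) (fun t => ?_) j hj
      simp only [map_sub, map_mul, aeval_X, verT]
      ring
    · refine key ((isHomogeneous_X ℂ _).sub (isHomogeneous_X ℂ _)) (fun t => ?_) j hj
      simp only [map_sub, aeval_X, verT]
      ring
    · refine key ((isHomogeneous_X ℂ _).sub (isHomogeneous_X ℂ _)) (fun t => ?_) j hj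
      simp only [map_sub, aeval_X, verT]
      ring

end Pool.Agent.Lib.MP_d3d358_ag.Mv
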