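import Pool.Agent.Lib.MP_d3d358_ag.Mv.Step
import Pool.Agent.Lib.MP_d3d358_ag.Mv.Jet
import Pool.Agent.Lib.MP_d3d358_ag.Mv.Fam
import Pool.Agent.Lib.MP_d3d358_ag.Mv.RegW
import Pool.Agent.Lib.MP_d3d358_ag.Mv.Trv
import Pool.Agent.Lib.MP_d3d358_ag.Mv.Ver
import Pool.Agent.Lib.MP_d3d358_ag.Mv.Cyc
import Pool.Agent.Lib.MP_d3d358_ag.Cw.Pul

/-! The moving lemma for cycles with rational coefficients on a smooth projective variety. -/

set_option autoImplicit false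

namespace Pool.Agent.Lib.MP_d3d358_ag.Mv

open CategoryTheory AlgebraicGeometry Set Cw MonoidalCategory CartesianMonoidalCategory

variable {W X Y : Sch}

theorem Prj.move [Gd W] [IsIntegral W.left] {ι β : Type} [Fintype ι] [Finite β] (D : Prj W ι)
    {η : W.left} (hη : ∀ w, η ⤳ w) (hj : Jet (D.cI η)) (hr : Reg (D.cI η) (dm η + 1))
    (y : β → W.left) (δ : ℕ) : ∀ x : W.left, dm x < dm η →
      (∀ i, Sm (Zs (D.cI x) ∩ Zs (D.cI (y i))) (dm x + dm (y i) - dm η + δ + 1)) →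
      Mv1 (fun x => ∀ i, GT x (y i)) x := by
  have key : ∀ (δ : ℕ) (x : W.left), dm x < dm η →
      (∀ i, Sm (Zs (D.cI x) ∩ Zs (D.cI (y i))) (dm x + dm (y i) - dm η + δ + 1)) →
      ∃ d : Cyc W.left, Prin d ∧ d x ≠ 0 ∧ ∀ z, d z ≠ 0 → z ≠ x → dm z = dm x ∧ ∀ i,
        Sm ((Zs (D.cI z) ∩ Zs (D.cI (y i))) \
          {v | Good (D.cI η) (D.cI z) (D.cI (y i)) (dm x + 1) (dm (y i) + 1) v})
          (dm x + dm (y i) - dm η + δ) ∧
        (0 < δ → Sm (Zs (D.cI z) ∩ Zs (D.cI (y i))) (dm x + dm (y i) - dm η + δ)) := by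
    intro δ x hx hs
    obtain ⟨P, Q, hP, hQ, h1, h2, H⟩ := step (D.cn η) hj hr (D.cn x) (D.spec_iff.1 (hη x)) hx
      (fun i => D.cn (y i)) (fun i => D.spec_iff.1 (hη _)) hs fun i => Nat.le_add_right _ _
    obtain ⟨d, hd, hx', hz⟩ := D.fam hη hP hQ h1 h2
    refine ⟨d, hd, hx', fun z h0 hne => ⟨(hz z h0).1, fun i => ?_⟩⟩
    have := H (D.cI z) ((hz z h0).1 ▸ D.cn z) (D.spec_iff.1 (hη z)) (D.cI_inj.ne hne) (hz z h0).2 i
    exact ⟨this.1, fun h => this.2 (Nat.lt_add_of_pos_right h)⟩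
  induction δ with
  | zero =>
    intro x hx hs
    obtain ⟨d, hd, hx', hz⟩ := key 0 x hx hs
    refine Mv1.step hd (supp_fin d) hx' fun z h0 hne => Mv1.of fun i => D.gt hη hr ?_
    obtain ⟨e, H⟩ := hz z h0 hne
    rw [e]
    exact (H i).1
  | succ δ ih =>
    intro x hx hs
    obtain ⟨d, hd, hx', hz⟩ := key (δ + 1) x hx hs
    refine Mv1.step hd (supp_fin d) hx' fun z h0 hne => ?_
    obtain ⟨e, H⟩ := hz z h0 hne
    exact ih z (e ▸ hx) fun i => e ▸ (H i).2 δ.succ_pos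

theorem moving [Gd W] [IsIntegral W.left] [Smooth W.hom] (h : HasPrj W) : Mov W.left := by
  intro a b
  obtain ⟨ι, _, ⟨D₀⟩⟩ := h
  obtain ⟨D, hD⟩ := D₀.cube
  obtain ⟨η, hη⟩ := pul_gen W
  have := (supp_fin b).to_subtype
  obtain ⟨a', h1, h2⟩ : Mvb (fun x => ∀ i : Function.support b, GT x i.1) a := by
    refine Mvb.of_mv1 (supp_fin a) fun x _ => ?_
    by_cases e : η = x
    · exact Mv1.of fun i => e ▸ gt_generic hη _
    · exact D.move hη (hD η).jet (D.reg hη) _ (dm x) x (dm_lt (hη x) e) fun i =>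
        (D.cn x).toPr.sm.mono inter_subset_left (by omega)
  obtain ⟨c, hc⟩ := exists_cap (a := a') (b := b) fun x y hx hy => h2 x hx ⟨y, hy⟩
  exact ⟨a', c, h1, hc⟩

variable (W) in
/-- a smooth projective variety -/
structure Ok : Prop where
  gd : Gd W
  int : IsIntegral W.left
  sm : Smooth W.hom
  prj : HasPrj W

theorem Ok.tensor (hX : Ok X) (hY : Ok Y) : Ok (X ⊗ Y) := by
  have := hX.gd
  have := hY.gd
  have := hX.int
  have := hY.int
  have := hX.sm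
  have := hY.sm
  refine ⟨inferInstance, (sq_prod X Y).integral, ?_, hX.prj.tensor hY.prj⟩
  have : Smooth (fst X Y).left := MorphismProperty.of_isPullback (sq_prod X Y).flip hY.sm
  rw [← Over.w (fst X Y)]
  infer_instance

theorem Ok.mov (h : Ok W) : Mov W.left :=
  have := h.gd
  have := h.int
  have := h.sm
  moving h.prj

end Pool.Agent.Lib.MP_d3d358_ag.Mv
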