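import Pool.Agent.Lib.MP_d3d358_ag.Mv.PDef
import Pool.Agent.Lib.MP_d3d358_ag.Cw.PntP
import Pool.Agent.Lib.MP_d3d358_ag.Cw.PushA

/-! The Segre embedding. -/

set_option autoImplicit false

namespace Pool.Agent.Lib.MP_d3d358_ag.Mv

open CategoryTheory AlgebraicGeometry Set Matrix Cw MonoidalCategory

variable {V W F : Sch}

theorem evA_res {U U' : W.left.Opens} (h : U' ≤ U) {w : W.left} (hw : w ∈ U') (a : Γ(W.left, U)) :
    evA U' w hw (W.left.presheaf.map (homOfLE h).op a) = evA U w (h hw) a := by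
  change W.left.residue w (W.left.presheaf.germ U' w hw _) =
    W.left.residue w (W.left.presheaf.germ U w (h hw) _)
  rw [TopCat.Presheaf.germ_res_apply]

theorem evA_map (f : V ⟶ W) {U : W.left.Opens} {T : V.left.Opens} (h : T ≤ f.left ⁻¹ᵁ U)
    {v : V.left} (hv : v ∈ T) (a : Γ(W.left, U)) :
    evA T v hv (f.left.appLE U T h a) = f.left.residueFieldMap v (evA U _ (h hv) a) :=
  (evA_res h hv (f.left.app U a)).trans (Scheme.evaluation_naturality_apply f.left v (h hv) a).symm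

theorem PP_alg (f : V ⟶ W) {U : W.left.Opens} {T : V.left.Opens} (h : T ≤ f.left ⁻¹ᵁ U) (c : ℂ) :
    f.left.appLE U T h (algebraMap ℂ Γ(W.left, U) c) = algebraMap ℂ Γ(V.left, T) c := by
  have e : W.hom.appLE ⊤ U le_top ≫ f.left.appLE U T h = V.hom.appLE ⊤ T le_top := by
    refine (Scheme.Hom.appLE_comp_appLE ..).trans ?_
    simp only [Over.w f]
  exact ConcreteCategory.congr_hom e _

theorem PP_mem (f : V ⟶ W) {U : W.left.Opens} {T : V.left.Opens} (h : T ≤ f.left ⁻¹ᵁ U) {ι : Type}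
    {s : ι → Γ(W.left, U)} (hs : Algebra.adjoin ℂ (range s) = ⊤) {A : Subalgebra ℂ Γ(V.left, T)}
    (k : ∀ i, f.left.appLE U T h (s i) ∈ A) (a : Γ(W.left, U)) : f.left.appLE U T h a ∈ A := by
  induction hs.ge (Algebra.mem_top (x := a)) using Algebra.adjoin_induction with
  | mem x hx =>
    obtain ⟨i, rfl⟩ := hx
    exact k i
  | algebraMap c =>
    rw [PP_alg]
    exact A.algebraMap_mem c
  | add x y _ _ p q =>
    rw [map_add]
    exact A.add_mem p q
  | mul x y _ _ p q =>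
    rw [map_mul]
    exact A.mul_mem p q

/-- boxes (`Sq.box_affine`, `Sq.box`), `s (i, i') (j, j') = s i j * s' i' j'` -/
theorem HasPrj.sq {f : V ⟶ W} {g : V ⟶ F} (h : Sq f g) (hW : HasPrj W) (hF : HasPrj F) :
    HasPrj V := by
  obtain ⟨ι, _, ⟨D⟩⟩ := hW
  obtain ⟨κ, _, ⟨E⟩⟩ := hF
  have ev (i j : ι × κ) (v : V.left) (hj : v ∈ f.left ⁻¹ᵁ D.U j.1 ⊓ g.left ⁻¹ᵁ E.U j.2) :
      evA _ v hj (f.left.appLE (D.U j.1) _ inf_le_left (D.s i.1 j.1) *
        g.left.appLE (E.U j.2) _ inf_le_right (E.s i.2 j.2)) =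
      f.left.residueFieldMap v (evA (D.U j.1) (f.left v) hj.1 (D.s i.1 j.1)) *
        g.left.residueFieldMap v (evA (E.U j.2) (g.left v) hj.2 (E.s i.2 j.2)) := by
    rw [map_mul, evA_map, evA_map]
  refine ⟨ι × κ, inferInstance, ⟨⟨fun j => f.left ⁻¹ᵁ D.U j.1 ⊓ g.left ⁻¹ᵁ E.U j.2,
    fun i j => f.left.appLE (D.U j.1) _ inf_le_left (D.s i.1 j.1) *
      g.left.appLE (E.U j.2) _ inf_le_right (E.s i.2 j.2),
    fun j => h.box_affine (D.aff _) (E.aff _), fun v => ?_, fun j => ?_, fun j => ?_,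
    fun j k v hj => ?_, fun i j k v hj hk => ?_⟩⟩⟩
  · obtain ⟨a, p⟩ := D.cov (f.left v)
    obtain ⟨b, q⟩ := E.cov (g.left v)
    exact ⟨(a, b), p, q⟩
  · rw [D.one, E.one, map_one, map_one, one_mul]
  · refine top_unique fun s _ => ?_
    induction h.box (D.aff j.1) (E.aff j.2) s using AddSubmonoid.closure_induction with
    | mem x hx =>
      obtain ⟨a, b, rfl⟩ := hx
      refine Subalgebra.mul_mem _ (PP_mem f _ (D.gen _) (fun i => Algebra.subset_adjoin ?_) a)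
        (PP_mem g _ (E.gen _) (fun i => Algebra.subset_adjoin ?_) b)
      · exact ⟨(i, j.2), by simp only [E.one, map_one, mul_one]⟩
      · exact ⟨(j.1, i), by simp only [D.one, map_one, one_mul]⟩
    | zero => exact zero_mem _
    | add x y _ _ p q => exact add_mem (p trivial) (q trivial)
  · rw [ev, mul_ne_zero_iff]
    exact and_congr ((D.mem j.1 k.1 _ hj.1).trans (map_ne_zero _).symm)
      ((E.mem j.2 k.2 _ hj.2).trans (map_ne_zero _).symm)
  · rw [ev, ev, ev, D.coc i.1 j.1 k.1 _ hj.1 hk.1, E.coc i.2 j.2 k.2 _ hj.2 hk.2, map_mul, map_mul]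
    ring

theorem HasPrj.tensor (hW : HasPrj W) (hF : HasPrj F) : HasPrj (W ⊗ F) :=
  HasPrj.sq (sq_prod W F) hW hF

end Pool.Agent.Lib.MP_d3d358_ag.Mv
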