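import Pool.Agent.Lib.MP_d3d358_ag.Mv.PDef
import Pool.Agent.Lib.MP_d3d358_ag.Cw.PntX
import Pool.Agent.Lib.MP_d3d358_ag.Cw.PushA

/-! Homogeneous coordinates on `Proj`. -/

set_option autoImplicit false

namespace Pool.Agent.Lib.MP_d3d358_ag.Mv

open CategoryTheory AlgebraicGeometry Set Matrix Cw
open Pool.Agent.Lib.MP_9ff3e7_ag.F Pool.Agent.Lib.MP_cd184e_ag.B
open HomogeneousLocalization (Away awayMap fromZeroRingHom)

variable {S : Type} [CommRing S] [Algebra ℂ S] {𝒜 : ℕ → Submodule ℂ S} [GradedAlgebra 𝒜]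
  {f g a : S}

theorem px_const (hf : f ∈ 𝒜 1) (c : ℂ) :
    PX.sec (PX.dh hf (algebraMap ℂ S c)) = algebraMap ℂ Γ((PX.PW 𝒜).left, PX.UU 𝒜 f) c := by
  have e := IsAffineOpen.SpecMap_appLE_fromSpec (PX.PW 𝒜).hom (isAffineOpen_top _)
    (PX.aff_UU hf one_pos) le_top
  rw [IsAffineOpen.fromSpec_top, Scheme.isoSpec_Spec_inv, ← Spec.map_comp] at e
  have e2 : (PX.aff_UU hf one_pos).fromSpec ≫ (PX.PW 𝒜).hom =
      Spec.map (Proj.awayToSection 𝒜 f) ≫ Proj.awayι 𝒜 f hf one_pos ≫ strMap 𝒜 :=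
    (congrArg (· ≫ strMap 𝒜) (PX.fromSpec_eq hf one_pos).symm).trans (Category.assoc _ _ _)
  rw [strMap, Proj.awayι_toSpecZero_assoc, ← Spec.map_comp, ← Spec.map_comp] at e2
  have := congrArg (fun φ : CommRingCat.of ℂ ⟶ Γ((PX.PW 𝒜).left, PX.UU 𝒜 f) => φ c)
    (Spec.map_injective (e.trans e2))
  refine Eq.trans (congrArg PX.sec ?_) this.symm
  exact (PX.dh_eq hf (algebraMap ℂ (𝒜 0) c).2).trans (PX.fromZero_eq hf _).symm

theorem px_hom (hf : f ∈ 𝒜 1) : ∃ ρ : S →ₐ[ℂ] Γ((PX.PW 𝒜).left, PX.UU 𝒜 f),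
    Function.Surjective ρ ∧ ∀ a, ρ a = PX.sec (PX.dh hf a) := by
  refine ⟨{ (Proj.awayToSection 𝒜 f).hom.comp (PX.dh hf) with commutes' := px_const hf },
    fun s => ?_, fun _ => rfl⟩
  obtain ⟨k, a, ha, rfl⟩ := PX.sec_surj hf one_pos s
  exact ⟨a, congrArg PX.sec (PX.dh_eq hf (by simpa using ha))⟩

theorem px_mem (hf : f ∈ 𝒜 1) (hg : g ∈ 𝒜 1) {w : (PX.PW 𝒜).left} (hw : w ∈ PX.UU 𝒜 f) :
    w ∈ PX.UU 𝒜 g ↔ evA _ w hw (PX.sec (PX.dh hf g)) ≠ 0 := by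
  refine Iff.trans ?_ (push_ev_zero (PX.aff_UU hf one_pos) hw _).not.symm
  have e : w = Proj.awayι 𝒜 f hf one_pos (Spec.map (Proj.awayToSection 𝒜 f)
      ((PX.aff_UU hf one_pos).primeIdealOf ⟨w, hw⟩)) :=
    ((PX.aff_UU hf one_pos).fromSpec_primeIdealOf ⟨w, hw⟩).symm.trans
      (congrArg (fun φ : Spec _ ⟶ Proj 𝒜 => φ _) (PX.fromSpec_eq hf one_pos).symm)
  refine Iff.trans (iff_of_eq (congrArg (· ∈ PX.UU 𝒜 g) e) : _ ↔ Spec.map (Proj.awayToSection 𝒜 f)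
      ((PX.aff_UU hf one_pos).primeIdealOf ⟨w, hw⟩) ∈
    Proj.awayι 𝒜 f hf one_pos ⁻¹ᵁ Proj.basicOpen 𝒜 g) ?_
  rw [Proj.awayι_preimage_basicOpen 𝒜 hf one_pos hg one_pos]
  have e2 : HomogeneousLocalization.Away.isLocalizationElem hf hg = PX.dh hf g :=
    HomogeneousLocalization.val_injective _ (by
      simp [PX.dh_eq hf hg, HomogeneousLocalization.Away.val_mk])
  rw [e2]
  rfl

theorem px_res (hg : g ∈ 𝒜 1) {x : S} (hx : x = f * g) {w : (PX.PW 𝒜).left} (hw : w ∈ PX.UU 𝒜 f)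
    (hw' : w ∈ PX.UU 𝒜 x) (y : Away 𝒜 f) :
    evA _ w hw (PX.sec y) = evA _ w hw' (PX.sec (awayMap 𝒜 hg hx y)) := by
  have e := ConcreteCategory.congr_hom (Proj.awayMap_awayToSection 𝒜 hg hx) y
  exact congrArg ((Proj 𝒜).residue w)
    (((Proj 𝒜).presheaf.germ_res_apply _ w hw' _).symm.trans (congrArg _ e.symm))

theorem px_coc (ha : a ∈ 𝒜 1) (hf : f ∈ 𝒜 1) (hg : g ∈ 𝒜 1) {w : (PX.PW 𝒜).left}
    (hw : w ∈ PX.UU 𝒜 f) (hw' : w ∈ PX.UU 𝒜 g) : evA _ w hw (PX.sec (PX.dh hf a)) =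
      evA _ w hw' (PX.sec (PX.dh hg a)) * evA _ w hw (PX.sec (PX.dh hf g)) := by
  have h : w ∈ PX.UU 𝒜 (f * g) := (Proj.basicOpen_mul 𝒜 f g).ge ⟨hw, hw'⟩
  rw [px_res hg rfl hw h, px_res hg rfl hw h, px_res hf (mul_comm f g) hw' h, ← map_mul]
  refine congrArg _ (Eq.trans (congrArg PX.sec ?_) (map_mul (Proj.awayToSection 𝒜 (f * g)).hom _ _))
  rw [PX.dh_eq hf ha, PX.dh_eq hg ha, PX.dh_eq hf hg]
  simp only [HomogeneousLocalization.awayMap_mk]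
  refine HomogeneousLocalization.val_injective _ ?_
  simp only [HomogeneousLocalization.val_mul, HomogeneousLocalization.Away.val_mk,
    Localization.mk_mul, Localization.mk_eq_mk_iff, Localization.r_iff_exists]
  exact ⟨1, by simp; ring⟩

/-- `ι` = the finite set of generators, `U l = PX.UU 𝒜 l`, `s a l = PX.sec (a / l)` -/
theorem hasPrj_proj {S : Type} [CommRing S] [Algebra ℂ S] {𝒜 : ℕ → Submodule ℂ S}
    [GradedAlgebra 𝒜] (h : Gen1 𝒜) : HasPrj (Over.mk (strMap 𝒜)) := by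
  obtain ⟨s, h1, hs⟩ := h
  refine ⟨s, inferInstance, ⟨⟨fun l => PX.UU 𝒜 l, fun a l => PX.sec (PX.dh (h1 l l.2) a),
    fun l => PX.aff_UU (h1 l l.2) one_pos, fun w => ?_, fun l => ?_, fun l => ?_,
    fun j k w hj => px_mem _ (h1 k k.2) hj, fun i j k w hj hk => px_coc (h1 i i.2) _ _ hj hk⟩⟩⟩
  · exact TopologicalSpace.Opens.mem_iSup.1 ((Proj.iSup_basicOpen_eq_top' 𝒜
      (fun a : s => (a : S)) (fun a => ⟨1, h1 a a.2⟩) (PX.adjoin_zero (by simpa using hs))).ge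
      (mem_univ w))
  · refine Eq.trans (congrArg PX.sec ((PX.dh_eq _ (h1 l l.2)).trans ?_))
      (map_one (Proj.awayToSection 𝒜 (l : S)).hom)
    exact HomogeneousLocalization.val_injective _ (by simp [HomogeneousLocalization.Away.val_mk])
  · obtain ⟨ρ, r1, r2⟩ := px_hom (h1 l l.2)
    have e : (range fun i : s => PX.sec (PX.dh (h1 l l.2) i)) = ρ '' s := by
      rw [image_eq_range]
      exact congrArg range (funext fun i => (r2 i).symm)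
    exact (congrArg (Algebra.adjoin ℂ) e).trans (by
      rw [← AlgHom.map_adjoin, hs, Algebra.map_top, (AlgHom.range_eq_top ρ).2 r1])

end Pool.Agent.Lib.MP_d3d358_ag.Mv
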