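import Pool.Agent.Lib.MP_d3d358_ag.Mv.LS

/-! Counting conditions on a general matrix. -/

set_option autoImplicit false

namespace Pool.Agent.Lib.MP_d3d358_ag.Mv

open MvPolynomial Set Matrix Topology Filter

variable {ι κ : Type} {N c d : ℕ} {k T : Set ℂ}

theorem em_inj (s : Bool) : Function.Injective (em s : (ι → ℂ) → ι ⊕ ι → ℂ) := by
  cases s
  · exact fun v u h => funext fun i => congrFun h (Sum.inl i)
  · exact fun v u h => funext fun i => congrFun h (Sum.inr i)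

theorem em_disj {v u : ι → ℂ} (h : em false v = em true u) : v = 0 ∧ u = 0 := 
  ⟨funext fun i => congrFun h (Sum.inl i), funext fun i => (congrFun h (Sum.inr i)).symm⟩

theorem hf_mulVec [Fintype ι] (Λ : Matrix (Fin N) (ι ⊕ ι) ℂ) (s : Bool) (v : ι → ℂ) :
    hf Λ s *ᵥ v = Λ *ᵥ em s v := by
  cases s <;> funext k <;> simp [hf, em, mulVec, dotProduct, Fintype.sum_sum_type]

variable [Fintype κ] {Λ : Matrix (Fin N) κ ℂ}

theorem c12_gen (hk : k.Finite) (hg : Gn k (ent Λ)) (hT : Rk k T d) {μ : Type} [Fintype μ]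
    {φ : μ → Fin N × κ → ℂ} (hi : LinearIndependent ℂ φ) (h : ∀ m, range (φ m) ⊆ cl (k ∪ T))
    (h0 : ∀ m, φ m ⬝ᵥ ent Λ = 0) :
    Fintype.card μ ≤ d ∧ Rk (k ∪ range (ent Λ)) T (d - Fintype.card μ) := by
  obtain ⟨h1, h2⟩ := ls hi h h0
  obtain ⟨h3, h4⟩ := hg.ml hk hT h2
  exact ⟨by omega, h4.sub subset_rfl subset_rfl (by omega)⟩

theorem c12_dot (Λ : Matrix (Fin N) κ ℂ) (α : Fin N → ℂ) (ξ : κ → ℂ) :
    (fun p : Fin N × κ => α p.1 * ξ p.2) ⬝ᵥ ent Λ = α ⬝ᵥ (Λ *ᵥ ξ) := by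
  simp only [dotProduct, mulVec, ent, Fintype.sum_prod_type, Finset.mul_sum]
  exact Finset.sum_congr rfl fun i _ => Finset.sum_congr rfl fun a _ => by ring

omit [Fintype κ] in
theorem c12_cl {A : Set ℂ} {α : Fin N → ℂ} {ξ : κ → ℂ} (h : range α ⊆ cl A)
    (h' : range ξ ⊆ cl A) : range (fun p : Fin N × κ => α p.1 * ξ p.2) ⊆ cl A := by
  obtain ⟨K, hK⟩ := exists_clF A
  rw [← hK] at h h' ⊢
  rintro _ ⟨p, rfl⟩
  exact K.mul_mem (h ⟨_, rfl⟩) (h' ⟨_, rfl⟩)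

theorem c12_one (A : Set ℂ) : (1 : ℂ) ∈ cl A := by
  obtain ⟨K, hK⟩ := exists_clF A
  exact hK ▸ K.one_mem

theorem c12_single (A : Set ℂ) (i : Fin N) : range (Pi.single i 1 : Fin N → ℂ) ⊆ cl A := by
  rintro _ ⟨i', rfl⟩
  rw [Pi.single_apply]
  split_ifs
  exacts [c12_one A, zero_mem_cl A]

/-- the `N * c` covectors `eᵢ ⊗ ξ m` kill `ent Λ`; `ls` and `Gn.ml` -/
theorem c1 (hk : k.Finite) (hg : Gn k (ent Λ)) (hT : Rk k T d) {ξ : Fin c → κ → ℂ}
    (hi : LinearIndependent ℂ ξ) (h : ∀ m, range (ξ m) ⊆ cl (k ∪ T)) (h0 : ∀ m, Λ *ᵥ ξ m = 0) :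
    N * c ≤ d ∧ Rk (k ∪ range (ent Λ)) T (d - N * c) := by
  have := c12_gen hk hg hT (μ := Fin N × Fin c)
    (φ := fun q p => (Pi.single q.1 1 : Fin N → ℂ) p.1 * ξ q.2 p.2)
    (Fintype.linearIndependent_iff.2 fun g hg q => Fintype.linearIndependent_iff.1 hi
      (fun m => g (q.1, m)) (funext fun a => by
        simpa [Fintype.sum_prod_type, Pi.single_apply] using congrFun hg (q.1, a)) q.2)
    (fun q => c12_cl (c12_single _ _) (h _)) fun q => by rw [c12_dot, h0, dotProduct_zero]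
  simpa using this

theorem c1_one (hk : k.Finite) (hg : Gn k (ent Λ)) (hT : Rk k T d) {ξ : κ → ℂ} (hi : ξ ≠ 0)
    (h : range ξ ⊆ cl (k ∪ T)) (h0 : Λ *ᵥ ξ = 0) :
    N ≤ d ∧ Rk (k ∪ range (ent Λ)) T (d - N) := by
  simpa using c1 hk hg hT (c := 1) (ξ := fun _ => ξ) (linearIndependent_unique_iff.2 hi)
    (fun _ => h) fun _ => h0

theorem c1_two (hk : k.Finite) (hg : Gn k (ent Λ)) (hT : Rk k T d) {ξ ξ' : κ → ℂ} (hi : ξ ≠ 0)
    (hi' : ∀ c : ℂ, ξ' ≠ c • ξ) (h : range ξ ⊆ cl (k ∪ T)) (h' : range ξ' ⊆ cl (k ∪ T))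
    (h0 : Λ *ᵥ ξ = 0) (h0' : Λ *ᵥ ξ' = 0) :
    N * 2 ≤ d ∧ Rk (k ∪ range (ent Λ)) T (d - N * 2) := 
  c1 hk hg hT (ξ := ![ξ, ξ']) ((LinearIndependent.pair_iff' hi).2 fun a e => hi' a e.symm)
    (Fin.forall_fin_two.2 ⟨h, h'⟩) (Fin.forall_fin_two.2 ⟨h0, h0'⟩)

/-- otherwise a covector `α`, `α i₀ = 1` (`N - 1` more parameters), kills the image; the covectors
`α ⊗ b m` (`Df.basis`) and `eᵢ ⊗ ξ`, `i ≠ i₀`, are independent (look at row `i₀`) -/
theorem c2 (hk : k.Finite) (hg : Gn k (ent Λ)) (hT : Rk k T d) {E : Submodule ℂ (κ → ℂ)}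
    (hE : Df (k ∪ T) E) (hd : d < Module.finrank ℂ E) {ξ : κ → ℂ} (hi : ξ ≠ 0)
    (h : range ξ ⊆ cl (k ∪ T)) (h0 : Λ *ᵥ ξ = 0) : E.map Λ.mulVecLin = ⊤ := by
  by_contra hne
  obtain ⟨f, f0, hf⟩ := Submodule.exists_le_ker_of_lt_top _ (lt_top_iff_ne_top.2 hne)
  have e1 : ∀ x, f x = (fun i => f (Pi.single i 1)) ⬝ᵥ x := fun x => by
    rw [LinearMap.pi_apply_eq_sum_univ f x, dotProduct]
    refine Finset.sum_congr rfl fun i _ => ?_
    rw [smul_eq_mul, mul_comm]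
    congr 2
    funext j
    simp [Pi.single_apply, eq_comm]
  obtain ⟨i₀, h1⟩ : ∃ i, f (Pi.single i 1) ≠ 0 := by
    by_contra! hn
    exact f0 (LinearMap.ext fun x => by rw [e1]; simp [hn, dotProduct])
  obtain ⟨α, a1, a2⟩ : ∃ α : Fin N → ℂ, α i₀ = 1 ∧ ∀ e ∈ E, α ⬝ᵥ (Λ *ᵥ e) = 0 :=
    ⟨(f (Pi.single i₀ 1))⁻¹ • fun i => f (Pi.single i 1), inv_mul_cancel₀ h1, fun e he => by
      rw [smul_dotProduct, ← e1, show f (Λ *ᵥ e) = 0 from hf ⟨e, he, rfl⟩, smul_zero]⟩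
  obtain ⟨b, b1, b2, b3⟩ := hE.basis
  have hT' := hT.union (rk_range k fun i : {i // i ≠ i₀} => α i)
  have s1 : cl (k ∪ T) ⊆ cl (k ∪ (T ∪ range fun i : {i // i ≠ i₀} => α i)) :=
    cl_mono (union_subset_union_right k subset_union_left)
  have s2 : range α ⊆ cl (k ∪ (T ∪ range fun i : {i // i ≠ i₀} => α i)) := by
    rintro _ ⟨i, rfl⟩
    rcases eq_or_ne i i₀ with rfl | hi
    · exact a1 ▸ c12_one _
    · exact subset_cl _ (Or.inr (Or.inr ⟨⟨i, hi⟩, rfl⟩))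
  have := (c12_gen hk hg hT' (μ := Fin (Module.finrank ℂ E) ⊕ {i // i ≠ i₀})
    (φ := Sum.elim (fun m p => α p.1 * b m p.2)
      fun i p => (Pi.single i.1 1 : Fin N → ℂ) p.1 * ξ p.2)
    (Fintype.linearIndependent_iff.2 fun g hg => by
      have g1 : ∀ m, g (Sum.inl m) = 0 := Fintype.linearIndependent_iff.1 b1 _ (funext fun a => by
        have := congrFun hg (i₀, a)
        simp only [Fintype.sum_sum_type, Sum.elim_inl, Sum.elim_inr,
          Finset.sum_apply, Pi.smul_apply, a1, one_mul] at this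
        rw [Finset.sum_eq_zero (s := (Finset.univ : Finset {i // i ≠ i₀})) fun i _ => by
          rw [Pi.single_eq_of_ne' i.2, zero_mul, smul_zero], add_zero] at this
        simpa using this)
      refine Sum.rec g1 fun i => ?_
      obtain ⟨a, ha⟩ := Function.ne_iff.1 hi
      have := congrFun hg (i.1, a)
      simp only [Fintype.sum_sum_type, Sum.elim_inl, Sum.elim_inr,
        Finset.sum_apply, Pi.smul_apply, g1, zero_smul, Finset.sum_const_zero, zero_add] at this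
      rw [Finset.sum_eq_single i (fun i' _ hn => by
        rw [Pi.single_eq_of_ne' fun e => hn (Subtype.ext e), zero_mul, smul_zero]) (by simp)]
        at this
      simpa [show ξ a ≠ 0 from ha] using this)
    (Sum.rec (fun m => c12_cl s2 ((b3 m).trans s1))
      fun i => c12_cl (c12_single _ _) (h.trans s1))
    (Sum.rec (fun m => (c12_dot Λ α _).trans (a2 _ (b2 ▸ Submodule.subset_span ⟨m, rfl⟩)))
      fun i => (c12_dot Λ _ _).trans (by rw [h0, dotProduct_zero]))).1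
  rw [Fintype.card_sum, Fintype.card_fin] at this
  omega

end Pool.Agent.Lib.MP_d3d358_ag.Mv
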