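import Pool.Agent.Lib.MP_d3d358_ag.Mv.Cone

/-! Points with values in a field; local rings inside residue fields. -/

set_option autoImplicit false

namespace Pool.Agent.Lib.MP_d3d358_ag.Mv

open CategoryTheory AlgebraicGeometry Set Matrix Cw MvPolynomial

variable {W : Sch} {ι L : Type} [Field L] [Algebra ℂ L] {U : W.left.Opens} {w z η : W.left}

theorem cone2_lift (hU : IsAffineOpen U) (hw : w ∈ U) (φ : Γ(W.left, U) →ₐ[ℂ] L)
    (h : pri hU hw = RingHom.ker φ) : ∃ ψ : Kp w →ₐ[ℂ] L, ∀ a, ψ (evA U w hw a) = φ a := by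
  obtain ⟨e, he, k, s⟩ := push_quot (push_ev_zero hU hw) (push_ev_surj hU hw)
  let _ := e.toAlgebra
  have : FaithfulSMul (Γ(W.left, U) ⧸ pri hU hw) (Kp w) :=
    (faithfulSMul_iff_algebraMap_injective _ _).2 k
  have := IsFractionRing.of_field (Γ(W.left, U) ⧸ pri hU hw) (Kp w) s
  let g : Γ(W.left, U) ⧸ pri hU hw →+* L :=
    Ideal.Quotient.lift _ φ.toRingHom fun a ha => (RingHom.mem_ker (f := φ)).1 (h ▸ ha)
  have hg : Function.Injective g := (injective_iff_map_eq_zero _).2 fun a ha => by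
    obtain ⟨a, rfl⟩ := Ideal.Quotient.mk_surjective a
    exact Ideal.Quotient.eq_zero_iff_mem.2 (h ▸ (RingHom.mem_ker (f := φ)).2 ha)
  have q (a) : IsFractionRing.lift (K := Kp w) hg (evA U w hw a) = φ a :=
    (congrArg _ (he a).symm).trans (IsFractionRing.lift_algebraMap hg _)
  exact ⟨{ IsFractionRing.lift (K := Kp w) hg with
    commutes' := fun c => by
      rw [← (evA U w hw).commutes, ← φ.commutes]
      exact q _ }, q⟩

theorem Prj.exists_pt (D : Prj W ι) {y : ι → L} (h : On (D.cI η) y) (h0 : y ≠ 0) :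
    ∃ w, D.cI w = hk y ∧ ∃ ψ : Kp w →ₐ[ℂ] L,
      ∀ k (hk : w ∈ D.U k) i, ψ (D.crd hk i) = y i / y k := by
  obtain ⟨j, hj⟩ := Function.ne_iff.1 h0
  have c0 : (y j)⁻¹ ≠ 0 := inv_ne_zero hj
  have h1 : ((y j)⁻¹ • y) j = 1 := inv_mul_cancel₀ hj
  obtain ⟨-, φ, hφ, -⟩ := D.exists_hom (h.smul (D.hg η) (y j)⁻¹) h1
  have := RingHom.ker_isPrime φ
  obtain ⟨w, hw, e⟩ := exists_pri (D.aff j) (RingHom.ker φ)
  obtain ⟨ψ, hψ⟩ := cone2_lift (D.aff j) hw φ e
  have q (i) : ψ (D.crd hw i) = (y j)⁻¹ * y i := (hψ _).trans (hφ i)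
  refine ⟨w, ?_, ψ, fun k hk i => ?_⟩
  · rw [D.cI_eq hw, ← hk_map_inj ψ ψ.injective, ← hk_smul c0 y]
    exact congrArg _ (funext q)
  · have r (i) : y i = y k * ψ (D.crd hk i) := by
      have := congrArg ψ (congrFun (D.crd_eq hw hk) i)
      rw [Pi.smul_apply, smul_eq_mul, map_mul, q, q, mul_assoc] at this
      exact mul_left_cancel₀ c0 this
    have k0 : y k ≠ 0 := fun z => hj (by rw [r j, z, zero_mul]; rfl)
    rw [r i, mul_div_cancel_left₀ _ k0]

theorem cone2_germ (h : w ⤳ z) (hw : w ∈ U) (hz : z ∈ U) (a : Γ(W.left, U)) :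
    (W.left.presheaf.stalkSpecializes h ≫ W.left.residue w).hom
      (W.left.presheaf.germ U z hz a) = evA U w hw a :=
  congrArg (W.left.residue w)
    (ConcreteCategory.congr_hom (W.left.presheaf.germ_stalkSpecializes hz h) a)

theorem evA_mem_loc (h : w ⤳ z) (hw : w ∈ U) (hz : z ∈ U) (a : Γ(W.left, U)) :
    evA U w hw a ∈ loc h := ⟨_, cone2_germ h hw hz a⟩

theorem cone2_unit (hU : IsAffineOpen U) (hz : z ∈ U) {b : Γ(W.left, U)} (hb : b ∉ pri hU hz) :
    IsUnit (W.left.presheaf.germ U z hz b) :=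
  (W.left.mem_basicOpen b z hz).1 (not_not.1 ((push_mem_pri hU hz b).not.1 hb))

theorem evA_inv_mem_loc (h : w ⤳ z) (hU : IsAffineOpen U) (hw : w ∈ U) (hz : z ∈ U)
    {b : Γ(W.left, U)} (hb : b ∉ pri hU hz) : (evA U w hw b)⁻¹ ∈ loc h := by
  obtain ⟨u, hu⟩ := cone2_unit hU hz hb
  refine ⟨↑u⁻¹, (map_units_inv _ u).trans ?_⟩
  rw [hu, cone2_germ h hw hz]

theorem exists_of_mem_loc (h : w ⤳ z) (hU : IsAffineOpen U) (hw : w ∈ U) (hz : z ∈ U) {g : Kp w}
    (hg : g ∈ loc h) : ∃ a b, b ∉ pri hU hz ∧ g = evA U w hw a / evA U w hw b := by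
  obtain ⟨t, rfl⟩ := hg
  let _ := W.left.presheaf.algebra_section_stalk ⟨z, hz⟩
  have := hU.isLocalization_stalk ⟨z, hz⟩
  obtain ⟨⟨a, b⟩, e⟩ := IsLocalization.surj (pri hU hz).primeCompl t
  refine ⟨a, b, b.2, ?_⟩
  rw [← cone2_germ h hw hz, ← cone2_germ h hw hz]
  refine (eq_div_iff ((cone2_unit hU hz b.2).map _).ne_zero).2 ?_
  exact (map_mul _ _ _).symm.trans (congrArg _ e)

theorem cone2_tr {A : Type} [CommRing A] [IsDomain A] [Algebra ℂ A] (e : A →+* L)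
    (k : Function.Injective e) (s : ∀ z : L, ∃ a b, z = e a / e b)
    (c : ∀ x : ℂ, algebraMap ℂ L x = e (algebraMap ℂ A x)) :
    Algebra.trdeg ℂ L = Algebra.trdeg ℂ A := by
  let _ := e.toAlgebra
  have : FaithfulSMul A L := (faithfulSMul_iff_algebraMap_injective _ _).2 k
  have := IsFractionRing.of_field A L s
  have : IsScalarTower ℂ A L := .of_algebraMap_eq c
  have := IsLocalization.isAlgebraic L (nonZeroDivisors A)
  rw [← trdeg_add_eq ℂ A, trdeg_eq_zero (R := A), add_zero]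

theorem trdeg_Kp [Gd W] (w : W.left) : Algebra.trdeg ℂ (Kp w) = dm w := by
  obtain ⟨U, hU, hw, -⟩ := dm_aff (O := ⊤) (y := w) trivial
  obtain ⟨e, he, k, s⟩ := push_quot (push_ev_zero hU hw) (push_ev_surj hU hw)
  exact (cone2_tr (L := Kp w) e k s fun c =>
    ((evA U w hw).commutes c).symm.trans (he _).symm).trans (dm_trdeg hU hw).1

end Pool.Agent.Lib.MP_d3d358_ag.Mv
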