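import Mathlib

/-! Cones in a vector space, tangent spaces, transcendence ranks, places. -/

set_option autoImplicit false

namespace Pool.Agent.Lib.MP_d3d358_ag.Mv

open MvPolynomial Set Matrix

noncomputable section

/-- the polynomial ring -/
abbrev Pl (ι : Type) : Type := MvPolynomial ι ℂ

variable {ι κ R L : Type} [CommRing R] [Algebra ℂ R] [Field L] [Algebra ℂ L] {N : ℕ}

/-- `y` is a zero of `I` with values in `R` -/
def On (I : Ideal (Pl ι)) (y : ι → R) : Prop := ∀ F ∈ I, aeval y F = 0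

/-- the complex zeros -/
def Zs (I : Ideal (Pl ι)) : Set (ι → ℂ) := {v | On I v}

/-- the ideal of the cone spanned by `y` -/
def hk (y : ι → R) : Ideal (Pl ι) :=
  RingHom.ker (aeval fun i => Polynomial.C (y i) * Polynomial.X : Pl ι →ₐ[ℂ] Polynomial R)

/-- `I` is homogeneous -/
def Hg (I : Ideal (Pl ι)) : Prop := ∀ F ∈ I, ∀ k, homogeneousComponent k F ∈ I

/-- `I` is a prime ideal of dimension `d` -/
structure Pr (I : Ideal (Pl ι)) (d : ℕ) : Prop where
  prime : I.IsPrime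
  dim : ringKrullDim (Pl ι ⧸ I) = d

/-- `I` is the ideal of an irreducible cone of dimension `d` -/
structure Cn (I : Ideal (Pl ι)) (d : ℕ) : Prop extends Pr I d where
  hg : Hg I

/-- the gradient -/
def grad (v : ι → ℂ) (F : Pl ι) : ι → ℂ := fun i => eval v (pderiv i F)

/-- the elements algebraic over `A` -/
def cl (A : Set ℂ) : Set ℂ := (AlgebraicIndependent.matroid ℚ ℂ).closure A

/-- `T` has transcendence degree at most `d` over `k` -/
def Rk (k T : Set ℂ) (d : ℕ) : Prop := ∃ β : Finset ℂ, β.card ≤ d ∧ T ⊆ cl (k ∪ β)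

/-- all points of `E` have transcendence degree at most `r` over one finite set -/
def Sm (E : Set (ι → ℂ)) (r : ℕ) : Prop :=
  ∃ k : Set ℂ, k.Finite ∧ ∀ v ∈ E, Rk k (range v) r

/-- `E` is spanned by vectors with entries algebraic over `K` -/
def Df (K : Set ℂ) (E : Submodule ℂ (ι → ℂ)) : Prop :=
  E ≤ Submodule.span ℂ {ξ | ξ ∈ E ∧ range ξ ⊆ cl K}

/-- the entries of a matrix -/
def ent (Λ : Matrix (Fin N) κ ℂ) : Fin N × κ → ℂ := fun p => Λ p.1 p.2

/-- the two halves of a matrix -/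
def hf (Λ : Matrix (Fin N) (ι ⊕ ι) ℂ) (s : Bool) : Matrix (Fin N) ι ℂ :=
  Λ.submatrix id (bif s then Sum.inr else Sum.inl)

/-- the two inclusions -/
def em (s : Bool) : (ι → ℂ) →ₗ[ℂ] (ι ⊕ ι → ℂ) :=
  bif s then LinearMap.pi (Sum.elim (fun _ => 0) LinearMap.proj)
  else LinearMap.pi (Sum.elim LinearMap.proj fun _ => 0)

/-- a place of `L` over `ℂ` with values in `ℂ` -/
structure Pc (L : Type) [Field L] [Algebra ℂ L] where
  V : ValuationSubring L
  ψ : V →+* ℂ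
  ker : ∀ x, ψ x = 0 ↔ ¬IsUnit x
  con : ∀ c, ∃ h : algebraMap ℂ L c ∈ V, ψ ⟨_, h⟩ = c

/-- `x` has the value `c` at the place -/
def Pc.To (π : Pc L) (x : L) (c : ℂ) : Prop := ∃ h : x ∈ π.V, π.ψ ⟨x, h⟩ = c

/-- the binomials of the cube embedding lie in `I` -/
structure Cub (I : Ideal (Pl (ι × ι × ι))) : Prop where
  seg : ∀ a b c d e f, X (a, b, c) * X (d, e, f) - X (d, b, c) * X (a, e, f) ∈ I
  sy1 : ∀ a b c, X (a, b, c) - X (b, a, c) ∈ I
  sy2 : ∀ a b c, X (a, b, c) - X (a, c, b) ∈ I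

variable [Fintype ι] [Fintype κ]

/-- the family `l` is algebraically independent over `k` -/
def Gn (k : Set ℂ) (l : κ → ℂ) : Prop := ∀ d, Rk k (range l) d → Fintype.card κ ≤ d

/-- the tangent space -/
def tan (I : Ideal (Pl ι)) (v : ι → ℂ) : Submodule ℂ (ι → ℂ) :=
  ⨅ F ∈ I, LinearMap.ker (dotProductBilin ℂ ℂ (grad v F))

/-- a complex matrix applied to a vector with values in `R` -/
def ap (P : Matrix (Fin N) ι ℂ) (y : ι → R) : Fin N → R := fun k => ∑ i, P k i • y i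

/-- the projection on coordinate rings -/
def pm (P : Matrix (Fin N) ι ℂ) (I : Ideal (Pl ι)) : Pl (Fin N) →ₐ[ℂ] Pl ι ⧸ I :=
  (Ideal.Quotient.mkₐ ℂ I).comp (aeval (ap P X))

/-- the centre of the projection misses the cone -/
def Bpf (P : Matrix (Fin N) ι ℂ) (I : Ideal (Pl ι)) : Prop := ∀ v ∈ Zs I, P *ᵥ v = 0 → v = 0

/-- the preimage under `P` of the image under `M` -/
def Inc (P M : Matrix (Fin N) ι ℂ) (I : Ideal (Pl ι)) : Set (ι → ℂ) :=
  {v | ∃ u ∈ Zs I, P *ᵥ v = M *ᵥ u}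

/-- `P` is injective on the tangent space -/
def Unr (P : Matrix (Fin N) ι ℂ) (I : Ideal (Pl ι)) (v : ι → ℂ) : Prop :=
  ∀ ξ ∈ tan I v, P *ᵥ ξ = 0 → ξ = 0

/-- tangent spaces at different points are independent and there are no trisecant lines -/
structure Jet (I : Ideal (Pl ι)) : Prop where
  two : ∀ v ∈ Zs I, ∀ u ∈ Zs I, u ≠ 0 → (∀ c : ℂ, v ≠ c • u) → Disjoint (tan I v) (tan I u)
  three : ∀ v ∈ Zs I, ∀ u ∈ Zs I, ∀ u' ∈ Zs I, ∀ α β : ℂ, v = α • u + β • u' →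
    (∃ c : ℂ, v = c • u) ∨ ∃ c : ℂ, v = c • u'

/-- the cone is smooth of dimension `d` off the origin -/
def Reg (I : Ideal (Pl ι)) (d : ℕ) : Prop :=
  ∀ v ∈ Zs I, v ≠ 0 → Module.finrank ℂ (tan I v) ≤ d

/-- the cones `I`, `J` of dimensions `a`, `b` are smooth and transverse at `v` inside `I₀` -/
def Good (I₀ I J : Ideal (Pl ι)) (a b : ℕ) (v : ι → ℂ) : Prop :=
  Module.finrank ℂ (tan J v) ≤ b ∧
    ∃ E, tan I v ≤ E ∧ Module.finrank ℂ E ≤ a ∧ E ⊔ tan J v = tan I₀ v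

/-- the cone of dimension `d + 1`, its tangent spaces and its singular points are defined over `k` -/
structure St (k : Set ℂ) (I : Ideal (Pl ι)) (d : ℕ) : Prop where
  rk : ∀ v ∈ Zs I, Rk k (range v) (d + 1)
  df : ∀ v ∈ Zs I, Df (k ∪ range v) (tan I v)
  sg : ∀ v ∈ Zs I, d + 1 < Module.finrank ℂ (tan I v) → Rk k (range v) d

/-- the ambient cone and a pair of general projections -/
structure Amb (k : Set ℂ) (I₀ : Ideal (Pl ι)) (n : ℕ) (Λ : Matrix (Fin (n + 1)) (ι ⊕ ι) ℂ) :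
    Prop where
  fin : k.Finite
  gn : Gn k (ent Λ)
  cn : Cn I₀ (n + 1)
  jet : Jet I₀
  reg : Reg I₀ (n + 1)
  st : St k I₀ n

/-- a cone of dimension `a + 1` inside `I₀`, defined over `k` -/
structure Sub (k : Set ℂ) (I₀ I : Ideal (Pl ι)) (a : ℕ) : Prop where
  le : I₀ ≤ I
  cn : Cn I (a + 1)
  st : St k I a

/-- the conditions at a general pair `v ∈ J`, `u ∈ I` with `P v = M u` -/
structure Nice (P M : Matrix (Fin N) ι ℂ) (I₀ I J : Ideal (Pl ι)) (a b : ℕ) (v u : ι → ℂ) :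
    Prop where
  b1 : Module.finrank ℂ (tan J v) ≤ b + 1
  b2 : Module.finrank ℂ (tan I u) ≤ a + 1
  b3 : Unr P I₀ v
  b4 : Unr M I u
  b5 : ∀ u' ∈ Zs I, M *ᵥ u' = M *ᵥ u → u' = u
  b6 : (tan J v).map P.mulVecLin ⊔ (tan I u).map M.mulVecLin = ⊤

end

end Pool.Agent.Lib.MP_d3d358_ag.Mv
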