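import Pool.Agent.Lib.MP_d3d358_ag.Mv.Defs

/-! Places with complex values. -/

set_option autoImplicit false
set_option linter.unusedVariables false

namespace Pool.Agent.Lib.MP_d3d358_ag.Mv

open MvPolynomial Set Matrix Topology Filter

variable {ι L : Type} [Field L] [Algebra ℂ L] {π : Pc L} {x x' : L} {c c' : ℂ} {N : ℕ}

theorem place_root {K : Type} [Field K] (θ : ℂ →+* K) (t : K) :
    ∃ c : ℂ, ∀ p : Polynomial ℂ, p.eval₂ θ t = 0 → p.eval c = 0 := by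
  let _ := θ.toAlgebra
  by_cases h : IsIntegral ℂ t
  · obtain ⟨c, hc⟩ := IsAlgClosed.exists_root _ (minpoly.degree_pos h).ne'
    exact ⟨c, fun p hp => hc.dvd (minpoly.dvd ℂ t hp)⟩
  · refine ⟨0, fun p hp => ?_⟩
    rw [show p = 0 from by_contra fun e => h (IsAlgebraic.isIntegral ⟨p, e, hp⟩),
      Polynomial.eval_zero]

theorem place_graph (G₀ : Subring (L × ℂ)) (h1 : ∀ c, (algebraMap ℂ L c, c) ∈ G₀)
    (h2 : ((0, 1) : L × ℂ) ∉ G₀) : ∃ π : Pc L, ∀ p ∈ G₀, π.To p.1 p.2 := by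
  obtain ⟨G, hG, hm⟩ := zorn_le_nonempty₀ {G : Subring (L × ℂ) | ((0, 1) : L × ℂ) ∉ G}
    (fun s hs hc y hy => ⟨sSup s, fun h => by
      obtain ⟨z, a, b⟩ := (Subring.mem_sSup_of_directedOn ⟨y, hy⟩ hc.directedOn).1 h
      exact hs a b, fun z hz => le_sSup hz⟩) G₀ h2
  let I : Ideal (G.map (RingHom.fst L ℂ)) :=
    { carrier := {b | (b.1, 0) ∈ G}
      add_mem' := fun a b => by simpa using G.add_mem a b
      zero_mem' := G.zero_mem
      smul_mem' := fun ⟨_, a, ha, rfl⟩ b hb => show (a.1 * b.1, 0) ∈ G from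
        (Prod.ext rfl (mul_zero _) : a * (b.1, 0) = (a.1 * b.1, 0)) ▸ G.mul_mem ha hb }
  obtain ⟨V, hV, hI⟩ := Ideal.image_subset_nonunits_valuationSubring I
    ((Ideal.ne_top_iff_one _).2 fun h => hm.1
      ((Prod.ext (sub_self _) (sub_zero _) : 1 - (1, 0) = ((0, 1) : L × ℂ)) ▸ G.sub_mem G.one_mem h))
  have m : ∀ p ∈ G, p.1 ∈ V := fun p hp => hV ⟨p, hp, rfl⟩
  let j : ℂ →+* V := (algebraMap ℂ L).codRestrict V fun c => m _ (hG (h1 c))
  let ρ := IsLocalRing.residue V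
  have r : ∀ p (hp : p ∈ G), ρ ⟨p.1, m p hp⟩ = ρ.comp j p.2 := fun p hp => by
    have k : (p.1 - algebraMap ℂ L p.2, 0) ∈ G := sub_self p.2 ▸ G.sub_mem hp (hG (h1 p.2))
    rw [← sub_eq_zero, RingHom.comp_apply, ← map_sub, IsLocalRing.residue_eq_zero_iff]
    exact V.coe_mem_nonunits_iff.1 (hI ⟨⟨_, _, k, rfl⟩, k, rfl⟩)
  have e : ∀ x : V, ∃ c, (x.1, c) ∈ G := fun x => by
    obtain ⟨c, hc⟩ := place_root (ρ.comp j) (ρ x)
    let G' : Subring (L × ℂ) := ((⊤ : Subring (Polynomial ℂ)).map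
      ((Polynomial.eval₂RingHom (ρ.comp j) (ρ x)).prod (Polynomial.evalRingHom c))).comap
        (ρ.prodMap (RingHom.id ℂ)) |>.map (V.subtype.prodMap (RingHom.id ℂ))
    refine ⟨c, hm.2 (y := G') ?_ (fun p hp => ⟨(⟨p.1, m p hp⟩, p.2), ⟨Polynomial.C p.2, trivial,
      Prod.ext (by simpa using (r p hp).symm) (by simp)⟩, rfl⟩)
        ⟨(x, c), ⟨Polynomial.X, trivial, Prod.ext (by simp) (by simp)⟩, rfl⟩⟩
    rintro ⟨⟨y, d⟩, ⟨p, -, a⟩, b⟩
    obtain rfl : y = 0 := Subtype.ext (congrArg Prod.fst b)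
    obtain rfl : d = 1 := congrArg Prod.snd b
    exact zero_ne_one ((hc p ((congrArg Prod.fst a).trans ρ.map_zero)).symm.trans
      (congrArg Prod.snd a))
  choose ψ hψ using e
  have i := (ρ.comp j).injective
  have q : ∀ x, ρ.comp j (ψ x) = ρ x := fun x => (r _ (hψ x)).symm
  refine ⟨⟨V, ⟨⟨⟨ψ, i (by rw [q, map_one, map_one])⟩, fun a b => i (by
    rw [map_mul, q, q, q, map_mul])⟩, i (by rw [q, map_zero, map_zero]), fun a b => i (by
      rw [map_add, q, q, q, map_add])⟩, fun x => ?_, fun c => ⟨(j c).2, i (q _)⟩⟩,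
    fun p hp => ⟨m p (hG hp), i ((q _).trans (r p (hG hp)))⟩⟩
  exact (map_eq_zero_iff _ i).symm.trans ((q x).symm ▸ IsLocalRing.residue_eq_zero_iff x)

/-- Chevalley's extension theorem (Zorn on pairs subalgebra, homomorphism to `ℂ`) -/
theorem exists_pc (A : Subalgebra ℂ L) (φ : A →ₐ[ℂ] ℂ) : ∃ π : Pc L, ∀ a : A, π.To a (φ a) := by
  obtain ⟨π, h⟩ := place_graph (A.val.toRingHom.prod φ.toRingHom).range
    (fun c => ⟨algebraMap ℂ A c, Prod.ext rfl (φ.commutes c)⟩) (by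
      rintro ⟨a, h⟩
      obtain rfl : a = 0 := Subtype.ext (congrArg Prod.fst h)
      exact zero_ne_one ((map_zero φ).symm.trans (congrArg Prod.snd h)))
  exact ⟨π, fun a => h _ ⟨a, rfl⟩⟩

theorem Pc.To.unique (h : π.To x c) (h' : π.To x c') : c = c' := h.2.symm.trans h'.2

theorem Pc.to_const (π : Pc L) (c : ℂ) : π.To (algebraMap ℂ L c) c := π.con c

theorem Pc.To.add (h : π.To x c) (h' : π.To x' c') : π.To (x + x') (c + c') :=
  ⟨add_mem h.1 h'.1, (π.ψ.map_add ⟨x, h.1⟩ ⟨x', h'.1⟩).trans (by rw [h.2, h'.2])⟩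

theorem Pc.To.mul (h : π.To x c) (h' : π.To x' c') : π.To (x * x') (c * c') :=
  ⟨mul_mem h.1 h'.1, (π.ψ.map_mul ⟨x, h.1⟩ ⟨x', h'.1⟩).trans (by rw [h.2, h'.2])⟩

theorem Pc.To.inv (h : π.To x c) (hc : c ≠ 0) : π.To x⁻¹ c⁻¹ := by
  obtain ⟨y, e⟩ := (not_not.1 (mt (π.ker ⟨x, h.1⟩).2 (h.2 ▸ hc))).exists_right_inv
  obtain e' : y.1 = x⁻¹ := eq_inv_of_mul_eq_one_right (congrArg Subtype.val e)
  refine e' ▸ ⟨y.2, eq_inv_of_mul_eq_one_right ?_⟩
  rw [← h.2, ← map_mul, e, map_one]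

theorem Pc.dich (π : Pc L) (x : L) : (∃ c, π.To x c) ∨ π.To x⁻¹ 0 := by
  rcases π.V.mem_or_inv_mem x with h | h
  · exact .inl ⟨_, h, rfl⟩
  · by_cases e : π.ψ ⟨_, h⟩ = 0
    · exact .inr ⟨h, e⟩
    · exact .inl ⟨_, inv_inv x ▸ Pc.To.inv ⟨h, rfl⟩ e⟩

theorem Pc.to_aeval {y : ι → L} {v : ι → ℂ} (h : ∀ i, π.To (y i) (v i)) (F : Pl ι) :
    π.To (aeval y F) (eval v F) := by
  induction F using MvPolynomial.induction_on with
  | C a => simpa using π.to_const a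
  | add p q a b => simpa using a.add b
  | mul_X p i a => simpa using a.mul (h i)

theorem place_zero (π : Pc L) : π.To 0 0 := ⟨zero_mem _, π.ψ.map_zero⟩

theorem Pc.to_on {y : ι → L} {v : ι → ℂ} (h : ∀ i, π.To (y i) (v i)) {I : Ideal (Pl ι)}
    (hy : On I y) : v ∈ Zs I := fun F hF =>
  (Pc.to_aeval h F).unique (hy F hF ▸ place_zero π)

theorem Pc.norm [Finite ι] (π : Pc L) {y : ι → L} (hy : y ≠ 0) :
    ∃ j, y j ≠ 0 ∧ ∃ v : ι → ℂ, v j = 1 ∧ ∀ i, π.To (y i / y j) (v i) := by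
  obtain ⟨i, hi⟩ := Function.ne_iff.1 hy
  have : Nonempty ι := ⟨i⟩
  obtain ⟨j, hj⟩ := Finite.exists_max fun i => π.V.valuation (y i)
  have h0 : 0 < π.V.valuation (y j) := ((Valuation.pos_iff _).2 hi).trans_le (hj i)
  have h1 : y j ≠ 0 := (Valuation.pos_iff _).1 h0
  have m : ∀ i, y i / y j ∈ π.V := fun i => (π.V.valuation_le_one_iff _).1 (by
    rw [map_div₀]; exact (div_le_one₀ h0).2 (hj i))
  exact ⟨j, h1, fun i => π.ψ ⟨_, m i⟩, (congrArg π.ψ (Subtype.ext (div_self h1))).trans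
    π.ψ.map_one, fun i => ⟨m i, rfl⟩⟩

/-- either the kernel of `A[X] → L`, `X ↦ u`, is killed by `(φ, X ↦ 0)`, or reverse a polynomial -/
theorem pc_or_int (A : Subalgebra ℂ L) (φ : A →ₐ[ℂ] ℂ) {u : L} (hu : u ≠ 0) :
    (∃ π : Pc L, (∀ a : A, π.To a (φ a)) ∧ π.To u 0) ∨
      ∃ Q : Polynomial A, φ Q.leadingCoeff ≠ 0 ∧ Polynomial.aeval u⁻¹ Q = 0 := by
  let f : Polynomial A →+* L × ℂ := (Polynomial.eval₂RingHom (algebraMap A L) u).prod
    (Polynomial.eval₂RingHom φ.toRingHom 0)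
  have c : ∀ a : A, f (Polynomial.C a) = (a.1, φ a) := fun a => by simp [f]
  by_cases h : ((0, 1) : L × ℂ) ∈ f.range
  · obtain ⟨p, h⟩ := h
    have h1 : φ (p.coeff 0) = 1 := by simpa [f] using congrArg Prod.snd h
    let _ := invertibleOfNonzero hu
    refine .inr ⟨p.reverse, ?_, (Polynomial.eval₂_reverse_eq_zero_iff _ u p).2
      (congrArg Prod.fst h)⟩
    rw [Polynomial.reverse_leadingCoeff, Polynomial.trailingCoeff_eq_coeff_zero fun e => by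
      simp [e] at h1, h1]
    exact one_ne_zero
  · obtain ⟨π, k⟩ := place_graph f.range
      (fun d => ⟨_, (c (algebraMap ℂ A d)).trans (Prod.ext rfl (φ.commutes d))⟩) h
    exact .inl ⟨π, fun a => k (_, _) ⟨_, c a⟩, k (u, 0) ⟨Polynomial.X, by simp [f]⟩⟩

variable [Fintype ι]

theorem Pc.to_ap {y : ι → L} {v : ι → ℂ} (h : ∀ i, π.To (y i) (v i)) (P : Matrix (Fin N) ι ℂ)
    (k : Fin N) : π.To (ap P y k) ((P *ᵥ v) k) := by
  classical
  have : ∀ s : Finset ι, π.To (∑ i ∈ s, P k i • y i) (∑ i ∈ s, P k i * v i) := fun s => by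
    induction s using Finset.induction_on with
    | empty => exact place_zero π
    | insert i s hi ih =>
      rw [Finset.sum_insert hi, Finset.sum_insert hi, Algebra.smul_def]
      exact ((π.to_const _).mul (h i)).add ih
  exact this _

theorem Pc.par {P M M' : Matrix (Fin N) ι ℂ} {y v : ι → L} {y' v' : ι → ℂ}
    (hy : ∀ i, π.To (y i) (y' i)) (hv : ∀ i, π.To (v i) (v' i)) {γ δ : L} (hγ : γ ≠ 0)
    (hδ : π.To δ 0) (e : ap P y = γ • (ap M v + δ • ap M' v)) (h1 : P *ᵥ y' ≠ 0)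
    (h2 : M *ᵥ v' ≠ 0) : ∃ c : ℂ, c ≠ 0 ∧ P *ᵥ y' = c • M *ᵥ v' := by
  have w : ∀ k, π.To (ap M v k + δ * ap M' v k) ((M *ᵥ v') k) := fun k => by
    simpa using (Pc.to_ap hv M k).add (hδ.mul (Pc.to_ap hv M' k))
  have e' : ∀ k, π.To (γ * (ap M v k + δ * ap M' v k)) ((P *ᵥ y') k) := fun k => by
    have := Pc.to_ap hy P k
    rwa [e] at this
  obtain ⟨k, hk⟩ := Function.ne_iff.1 h2
  have n : ap M v k + δ * ap M' v k ≠ 0 := fun z => hk ((w k).unique (z ▸ place_zero π))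
  have g := (e' k).mul ((w k).inv hk)
  rw [mul_inv_cancel_right₀ n] at g
  have r : P *ᵥ y' = ((P *ᵥ y') k * ((M *ᵥ v') k)⁻¹) • M *ᵥ v' :=
    funext fun l => (e' l).unique (g.mul (w l))
  exact ⟨_, fun z => h1 (by rw [r, z, zero_smul]), r⟩

end Pool.Agent.Lib.MP_d3d358_ag.Mv
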