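import Pool.Agent.Lib.MP_d3d358_ag.Mv.Cone2
import Pool.Agent.Lib.MP_d3d358_ag.Mv.Place

/-! Places of the family and the incidence set. -/

set_option autoImplicit false

namespace Pool.Agent.Lib.MP_d3d358_ag.Mv

open CategoryTheory AlgebraicGeometry Set Matrix Cw MvPolynomial

variable {W : Sch} {ι L : Type} [Fintype ι] [Field L] [Algebra ℂ L] {N : ℕ}
  {P M M' Q : Matrix (Fin N) ι ℂ} {I : Ideal (Pl ι)}

theorem FamA_int {R : Type} [CommRing R] [Algebra R L] (A : Subalgebra ℂ L) (q : Polynomial A)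
    {x : L} (hx : Polynomial.aeval x q = 0) (h0 : q.leadingCoeff ≠ 0)
    (hc : ∀ a : A, (a : L) ∈ (algebraMap R L).range)
    (hl : ((q.leadingCoeff : A) : L)⁻¹ ∈ (algebraMap R L).range) : IsIntegral R x := by
  have inj : Function.Injective (algebraMap A L) := Subtype.val_injective
  have l0 : ((q.leadingCoeff : A) : L) ≠ 0 := fun h => h0 (Subtype.ext h)
  have hm : (Polynomial.C ((q.leadingCoeff : A) : L)⁻¹ * q.map (algebraMap A L)).Monic := by
    refine Polynomial.monic_C_mul_of_mul_leadingCoeff_eq_one ?_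
    rw [Polynomial.leadingCoeff_map_of_injective inj]
    exact inv_mul_cancel₀ l0
  have hf : Polynomial.C ((q.leadingCoeff : A) : L)⁻¹ * q.map (algebraMap A L) ∈
      Polynomial.lifts (algebraMap R L) := by
    rw [Polynomial.lifts_iff_coeff_lifts]
    intro n
    rw [Polynomial.coeff_C_mul, Polynomial.coeff_map]
    exact Subring.mul_mem _ hl (hc _)
  obtain ⟨r, e, -, hr⟩ := Polynomial.lifts_and_natDegree_eq_and_monic hf hm
  refine ⟨r, hr, ?_⟩
  rw [Polynomial.eval₂_eq_eval_map, e, Polynomial.eval_mul, Polynomial.eval_map_algebraMap, hx,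
    mul_zero]

omit [Fintype ι] in
theorem FamA_zero (hI : Hg I) {v : ι → L} (hv : On I v) : (0 : ι → ℂ) ∈ Zs I := by
  intro F hF
  have h := hv.smul hI 0 F hF
  rw [zero_smul, MvPolynomial.aeval_zero, map_eq_zero] at h
  rw [MvPolynomial.aeval_zero, h, map_zero]

omit [Fintype ι] in
theorem FamA_X {u : ι → ℂ} (hu : u ∈ Zs I) {k : ι} (h1 : u k = 1) : X k ∉ I := fun h => by
  have e := hu _ h
  rw [aeval_X, h1] at e
  exact one_ne_zero e

omit [Fintype ι] in
theorem FamA_ne {y : ι → L} {u : ι → ℂ} (hu : u ∈ Zs (hk y)) {k : ι} (h1 : u k = 1) :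
    y k ≠ 0 := fun h =>
  FamA_X hu h1 ((mem_hk_hom (isHomogeneous_X ℂ k)).2 (by rw [aeval_X, h]))

omit [Fintype ι] [Algebra ℂ L] in
theorem FamA_div (y : ι → L) (k : ι) : (fun i => y i / y k) = (y k)⁻¹ • y := by
  funext i
  rw [Pi.smul_apply, smul_eq_mul, div_eq_inv_mul]

/-- it is enough to treat the points with one coordinate equal to one -/
theorem FamA_norm {J : Ideal (Pl ι)} (hJ : Hg J) (hI : Hg I) (h0 : (0 : ι → ℂ) ∈ Zs I)
    (H : ∀ u ∈ Zs J, ∀ k, u k = 1 → u ∈ Inc P M I) : Zs J ⊆ Inc P M I := by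
  intro u hu
  by_cases u0 : u = 0
  · exact ⟨0, h0, by rw [u0, mulVec_zero, mulVec_zero]⟩
  obtain ⟨k, hk⟩ := Function.ne_iff.1 u0
  have h := Inc.smul hI (H _ (hJ.smul_mem hu (u k)⁻¹) k (inv_mul_cancel₀ hk)) (u k)
  rwa [smul_smul, mul_inv_cancel₀ hk, one_smul] at h

/-- the relation between the normalised vectors at a place with `δ ↦ 0` -/
theorem FamA_par (π : Pc L) {y v : ι → L} {y' v' : ι → ℂ} {j k : ι} (hk : y k ≠ 0)
    (hj : v j ≠ 0) (hy : ∀ i, π.To (y i / y k) (y' i)) (hv : ∀ i, π.To (v i / v j) (v' i))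
    {γ δ : L} (hγ : γ ≠ 0) (hδ : π.To δ 0) (e : ap P y = γ • (ap M v + δ • ap M' v))
    (h1 : P *ᵥ y' ≠ 0) (h2 : M *ᵥ v' ≠ 0) : ∃ c : ℂ, c ≠ 0 ∧ P *ᵥ y' = c • M *ᵥ v' := by
  refine Pc.par (M' := M') (γ := (y k)⁻¹ * γ * v j) hy hv
    (mul_ne_zero (mul_ne_zero (inv_ne_zero hk) hγ) hj) hδ ?_ h1 h2
  rw [FamA_div, FamA_div, ap_smul, ap_smul, ap_smul, e, smul_comm δ, ← smul_add, smul_smul,
    smul_smul, mul_inv_cancel_right₀ hj]

/-- take a point of the cone of `z` off `Inc`, normalise it (`Inc.smul`), `exists_spec`,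
`pc_or_int`; a place with `δ ↦ 0` is excluded by `Pc.norm`, `Pc.par`; the leading coefficient is a
unit of `loc h` -/
theorem Prj.int_of_not_inc (D : Prj W ι) {w z : W.left} (h : w ⤳ z) [Algebra (Kp w) L]
    [IsScalarTower ℂ (Kp w) L] {y v : ι → L} (hw : D.cI w = hk y)
    (hy : ∀ k (hk : w ∈ D.U k) i, algebraMap (Kp w) L (D.crd hk i) = y i / y k) (hI : Hg I)
    (hM : Bpf M I) (hv : On I v) (v0 : v ≠ 0) {γ δ : L} (hγ : γ ≠ 0) (hδ : δ ≠ 0)
    (e : ap P y = γ • (ap M v + δ • ap M' v)) (hn : ¬Zs (D.cI z) ⊆ Inc P M I) :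
    IsIntegral (loc h) δ⁻¹ := by
  by_contra hc
  refine hn (FamA_norm (D.hg z) hI (FamA_zero hI hv) fun u hu k h1 => ?_)
  have hz : z ∈ D.U k := D.mem_iff.2 (FamA_X hu h1)
  have hwk : w ∈ D.U k := h.mem_open (D.U k).isOpen hz
  have hu' : u ∈ Zs (hk y) := hw ▸ Zs_anti (D.spec_iff.1 h) hu
  have yk : y k ≠ 0 := FamA_ne hu' h1
  obtain ⟨φ, hφ⟩ := exists_spec yk hu' h1
  rcases pc_or_int _ φ hδ with ⟨π, hπ, h0⟩ | ⟨q, hq, e0⟩
  · obtain ⟨j, hj, v', j1, hv'⟩ := π.norm v0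
    have m : v' ∈ Zs I := Pc.to_on hv' (by rw [FamA_div]; exact hv.smul hI _)
    by_cases p0 : P *ᵥ u = 0
    · exact ⟨0, FamA_zero hI hv, by rw [p0, mulVec_zero]⟩
    obtain ⟨c, -, ec⟩ := FamA_par π yk hj (fun i => hφ i ▸ hπ ⟨_, Algebra.subset_adjoin ⟨i, rfl⟩⟩)
      hv' hγ h0 e p0 fun m0 => by
        rw [hM v' m m0] at j1
        exact zero_ne_one j1
    exact ⟨c • v', hI.smul_mem m c, by rw [ec, mulVec_smul]⟩
  · have key : ∀ a : Algebra.adjoin ℂ (range fun i => y i / y k), ∃ F : Pl ι,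
        (a : L) = algebraMap (Kp w) L (evA (D.U k) w hwk (aeval (fun i => D.s i k) F)) ∧
          φ a = aeval u F := by
      intro a
      obtain ⟨F, hF⟩ := (Algebra.adjoin_range_eq_range_aeval ℂ fun i => y i / y k).le a.2
      have e1 : ((IsScalarTower.toAlgHom ℂ (Kp w) L).comp ((evA (D.U k) w hwk).comp
          (aeval fun i => D.s i k)) : Pl ι →ₐ[ℂ] L) = aeval fun i => y i / y k := by
        ext i
        simp only [AlgHom.comp_apply, aeval_X]
        exact hy k hwk i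
      let g : ι → Algebra.adjoin ℂ (range fun i => y i / y k) := fun i =>
        ⟨y i / y k, Algebra.subset_adjoin ⟨i, rfl⟩⟩
      have e2 : ((Subalgebra.val _).comp (aeval g) : Pl ι →ₐ[ℂ] L) = aeval fun i => y i / y k := by
        ext i
        simp only [AlgHom.comp_apply, aeval_X]
        rfl
      have e3 : (φ.comp (aeval g) : Pl ι →ₐ[ℂ] ℂ) = aeval u := by
        ext i
        simp only [AlgHom.comp_apply, aeval_X]
        exact hφ i
      have e4 : aeval g F = a := Subtype.ext ((DFunLike.congr_fun e2 F).trans hF)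
      exact ⟨F, hF.symm.trans (DFunLike.congr_fun e1 F).symm, e4 ▸ DFunLike.congr_fun e3 F⟩
    refine (hc (FamA_int _ q e0 (fun l => hq (by rw [l, map_zero])) (fun a => ?_) ?_)).elim
    · obtain ⟨F, hF, -⟩ := key a
      exact ⟨⟨_, evA_mem_loc h hwk hz _⟩, hF.symm⟩
    · obtain ⟨F, hF, hF'⟩ := key q.leadingCoeff
      have hb : aeval (fun i => D.s i k) F ∉ pri (D.aff k) hz := fun hb => by
        have le : D.cI z ⊔ Ideal.span {X k - 1} ≤ RingHom.ker (aeval u : Pl ι →ₐ[ℂ] ℂ) := by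
          refine sup_le (fun G hG => hu G hG) ?_
          rw [Ideal.span_singleton_le_iff_mem, RingHom.mem_ker, map_sub, aeval_X, h1, map_one,
            sub_self]
        exact hq (hF'.trans (le ((D.pri_iff hz F).1 hb)))
      refine ⟨⟨_, evA_inv_mem_loc h (D.aff k) hwk hz hb⟩, ?_⟩
      rw [hF]
      exact map_inv₀ (algebraMap (Kp w) L) _

/-- a place with `v / v k ↦ u / u k` and `t ↦ ∞` (`pc_or_int` with `t⁻¹`) -/
theorem inc_of_on {K : Type} [Field K] [Algebra ℂ K] [Algebra K L] [IsScalarTower ℂ K L]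
    {v : ι → K} {y : ι → L} {t : L} (hP : Bpf P (hk v)) (hy : On (hk v) y) (y0 : y ≠ 0)
    (ht : Transcendental K t)
    (e : ∀ k, ap P y k = algebraMap K L (ap P v k) + t * algebraMap K L (ap Q v k)) :
    Zs (hk v) ⊆ Inc Q P (hk v) := by
  refine FamA_norm (hg_hk v) (hg_hk v) (FamA_zero (hg_hk v) (on_hk v)) fun u hu k h1 => ?_
  have t0 : t ≠ 0 := fun h => ht (h ▸ isAlgebraic_zero)
  have ev : hk (fun i => algebraMap K L (v i)) = hk v :=
    hk_map_inj (IsScalarTower.toAlgHom ℂ K L) (algebraMap K L).injective v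
  have hu' : u ∈ Zs (hk fun i => algebraMap K L (v i)) := ev ▸ hu
  have vk := FamA_ne hu' h1
  obtain ⟨φ, hφ⟩ := exists_spec (y := fun i => algebraMap K L (v i)) vk hu' h1
  rcases pc_or_int _ φ (inv_ne_zero t0) with ⟨π, hπ, h0⟩ | ⟨q, hq, e0⟩
  · obtain ⟨j, hj, y', j1, hy'⟩ := π.norm y0
    have m : y' ∈ Zs (hk v) := Pc.to_on hy' (by rw [FamA_div]; exact hy.smul (hg_hk v) _)
    by_cases p0 : Q *ᵥ u = 0
    · exact ⟨0, FamA_zero (hg_hk v) (on_hk v), by rw [p0, mulVec_zero]⟩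
    have e' : ap P y = t • (ap Q (fun i => algebraMap K L (v i)) +
        t⁻¹ • ap P fun i => algebraMap K L (v i)) := by
      funext n
      have a := map_ap (IsScalarTower.toAlgHom ℂ K L) P v n
      have b := map_ap (IsScalarTower.toAlgHom ℂ K L) Q v n
      simp only [IsScalarTower.coe_toAlgHom'] at a b
      rw [smul_add, smul_smul, mul_inv_cancel₀ t0, one_smul, Pi.add_apply, Pi.smul_apply,
        smul_eq_mul, e, a, b, add_comm]
    obtain ⟨c, c0, ec⟩ := FamA_par π hj vk hy'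
      (fun i => hφ i ▸ hπ ⟨_, Algebra.subset_adjoin ⟨i, rfl⟩⟩) t0 h0 e' (fun m0 => by
        rw [hP y' m m0] at j1
        exact zero_ne_one j1) p0
    exact ⟨c⁻¹ • y', (hg_hk v).smul_mem m _, by
      rw [mulVec_smul, ec, smul_smul, inv_mul_cancel₀ c0, one_smul]⟩
  · have le : Algebra.adjoin ℂ (range fun i => algebraMap K L (v i) / algebraMap K L (v k)) ≤
        (IsScalarTower.toAlgHom ℂ K L).range := by
      refine Algebra.adjoin_le ?_
      rintro _ ⟨i, rfl⟩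
      exact ⟨v i / v k, map_div₀ _ _ _⟩
    rw [inv_inv] at e0
    refine (ht (FamA_int (R := K) _ q e0 (fun l => hq (by rw [l, map_zero])) (fun a => le a.2)
      ?_).isAlgebraic).elim
    obtain ⟨b, hb⟩ := le q.leadingCoeff.2
    exact ⟨b⁻¹, by rw [map_inv₀]; exact congrArg _ hb⟩

end Pool.Agent.Lib.MP_d3d358_ag.Mv
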