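import Pool.Agent.Lib.MP_d3d358_ag.Mv.C12
import Pool.Agent.Lib.MP_d3d358_ag.Mv.RkV

/-! General projections, first counts. -/

set_option autoImplicit false

namespace Pool.Agent.Lib.MP_d3d358_ag.Mv

open MvPolynomial Set Matrix Topology Filter

variable {ι : Type} [Fintype ι] {n a b r : ℕ} {k : Set ℂ} {I₀ I J : Ideal (Pl ι)}
  {Λ : Matrix (Fin (n + 1)) (ι ⊕ ι) ℂ} {v u : ι → ℂ} {s : Bool}

theorem g1_one (h : Amb k I₀ n Λ) {T : Set ℂ} {d : ℕ} {t : Bool} (hT : Rk k T d)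
    (hv : range v ⊆ T) (hu : range u ⊆ T) (e : hf Λ t *ᵥ v = hf Λ s *ᵥ u)
    (hne : em t v ≠ em s u) : n + 1 ≤ d ∧ Rk (k ∪ range (ent Λ)) T (d - (n + 1)) := by
  refine c1_one h.fin h.gn hT (sub_ne_zero.2 hne) ?_
    (by rw [mulVec_sub, ← hf_mulVec, ← hf_mulVec, e, sub_self])
  have p := (range_em t v).trans (cl_mono (hv.trans (subset_union_right (s := k))))
  have q := (range_em s u).trans (cl_mono (hu.trans (subset_union_right (s := k))))
  obtain ⟨K, hK⟩ := exists_clF (k ∪ T)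
  rw [← hK] at p q ⊢
  rintro _ ⟨i, rfl⟩
  exact K.sub_mem (p ⟨i, rfl⟩) (q ⟨i, rfl⟩)

theorem g1_ker (h : Amb k I₀ n Λ) {T : Set ℂ} {d : ℕ} (hT : Rk k T d) (hv : range v ⊆ T)
    (e : hf Λ s *ᵥ v = 0) (h0 : v ≠ 0) : n + 1 ≤ d ∧ Rk (k ∪ range (ent Λ)) T (d - (n + 1)) :=
  c1_one h.fin h.gn hT (ξ := em s v) (fun z => h0 (em_inj s (z.trans (map_zero _).symm)))
    ((range_em s v).trans (cl_mono (hv.trans subset_union_right))) ((hf_mulVec ..).symm.trans e)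

/-- normalise (`rk_norm`), `c1_one` -/
theorem Amb.bpf (h : Amb k I₀ n Λ) (s : Bool) : Bpf (hf Λ s) I₀ := by
  refine fun v hv e => by_contra fun h0 => ?_
  obtain ⟨j, hj⟩ := Function.ne_iff.1 h0
  have r : Rk k (range ((v j)⁻¹ • v)) n := rk_norm h.fin
    (fun c => h.st.rk _ (h.cn.hg.smul_mem (h.cn.hg.smul_mem hv _) c)) (j := j) (inv_mul_cancel₀ hj)
  exact Nat.not_succ_le_self n (g1_ker h (s := s) r subset_rfl (by rw [mulVec_smul, e, smul_zero])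
    (smul_ne_zero (inv_ne_zero hj) h0)).1

theorem Amb.g1 (h : Amb k I₀ n Λ) (hI : Sub k I₀ I a) (hJ : Sub k I₀ J b) (hv : v ∈ Zs J)
    (hu : u ∈ Zs I) (e : hf Λ false *ᵥ v = hf Λ s *ᵥ u) (hne : em false v ≠ em s u) :
    Rk (k ∪ range (ent Λ)) (range v ∪ range u) (a + b + 1 - n) :=
  (g1_one h ((hJ.st.rk v hv).union (hI.st.rk u hu)) subset_union_left subset_union_right e
    hne).2.sub subset_rfl subset_rfl (by omega)

theorem Amb.g2 (h : Amb k I₀ n Λ) (hI : Sub k I₀ I a) (ha : a < n) (hv : Rk k (range v) (r + 1))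
    (hu : u ∈ Zs I) (e : hf Λ false *ᵥ u = hf Λ false *ᵥ v) (hne : u ≠ v) :
    Rk (k ∪ range (ent Λ)) (range v) r :=
  (g1_one h (hv.union (hI.st.rk u hu)) subset_union_right subset_union_left e
    fun z => hne (em_inj _ z)).2.sub subset_rfl subset_union_left (by omega)

/-- `Df.norm` for the tangent vector, `c1_one` -/
theorem Amb.g3 (h : Amb k I₀ n Λ) (hv0 : v ∈ Zs I₀) (h0 : v ≠ 0) (hv : Rk k (range v) (r + 1))
    (hn : ¬Unr (hf Λ false) I₀ v) : Rk (k ∪ range (ent Λ)) (range v) r := by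
  refine by_contra fun m => hn fun ξ hξ e => by_contra fun x0 => m ?_
  obtain ⟨c, c0, q⟩ := (h.st.df v hv0).norm (h.reg v hv0 h0) hξ x0
  exact (g1_ker h (s := false) (hv.trans q) subset_union_right
    (by rw [mulVec_smul, e, smul_zero]) (smul_ne_zero c0 x0)).2.sub subset_rfl subset_union_left
    (by omega)

/-- `Pr.ns` over `k ∪ range (ent Λ)` and `g1` with `J = I` -/
theorem Amb.not_inc (h : Amb k I₀ n Λ) (hI : Sub k I₀ I a) (ha : a < n) :
    (∃ v ∈ Zs I, v ∉ Inc (hf Λ false) (hf Λ true) I) ∧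
      ∃ u ∈ Zs I, u ∉ Inc (hf Λ true) (hf Λ false) I := by
  obtain ⟨v, hv, g⟩ := hI.cn.toPr.ns (h.fin.union (finite_range (ent Λ)))
  have v0 : v ≠ 0 := fun z => Nat.not_succ_le_zero _ (g 0 (z ▸ rk_zero_vec _ _))
  refine ⟨⟨v, hv, fun ⟨u, hu, e⟩ => ?_⟩, v, hv, fun ⟨u, hu, e⟩ => ?_⟩
  · have := g _ ((h.g1 hI hI hv hu e fun z => v0 (em_disj z).1).sub subset_rfl subset_union_left
      le_rfl)
    omega
  · have := g _ ((h.g1 hI hI hu hv e.symm fun z => v0 (em_disj z).2).sub subset_rfl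
      subset_union_right le_rfl)
    omega

theorem Amb.sep (h : Amb k I₀ n Λ) (hv : v ∈ Zs I₀) (hu : u ∈ Zs I₀) (h0 : u ≠ 0)
    (hs : s = true ∨ ∀ c : ℂ, v ≠ c • u) :
    Disjoint ((tan I₀ v).map (em false)) ((tan I₀ u).map (em s)) := by
  refine Submodule.disjoint_def.2 ?_
  rintro _ ⟨x, hx, rfl⟩ ⟨y, hy, e⟩
  cases s
  · obtain rfl : y = x := em_inj _ e
    rw [Submodule.disjoint_def.1 (h.jet.two v hv u hu h0 (hs.resolve_left (by simp))) y hx hy,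
      map_zero]
  · rw [(em_disj e.symm).1, map_zero]

end Pool.Agent.Lib.MP_d3d358_ag.Mv
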