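import Pool.Agent.Lib.MP_d3d358_ag.Mv.G1

/-! General projections, the conditions at a general pair. -/

set_option autoImplicit false

namespace Pool.Agent.Lib.MP_d3d358_ag.Mv

open MvPolynomial Set Matrix Topology Filter

variable {ι : Type} [Fintype ι] {n a b : ℕ} {k : Set ℂ} {I₀ I J : Ideal (Pl ι)}
  {Λ : Matrix (Fin (n + 1)) (ι ⊕ ι) ℂ} {v u : ι → ℂ} {s : Bool}

theorem g2_sub {κ : Type} {A : Set ℂ} {x y : κ → ℂ} (hx : range x ⊆ cl A) (hy : range y ⊆ cl A) :
    range (x - y) ⊆ cl A := by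
  obtain ⟨K, hK⟩ := exists_clF A
  rw [← hK] at hx hy ⊢
  rintro _ ⟨i, rfl⟩
  exact K.sub_mem (hx ⟨i, rfl⟩) (hy ⟨i, rfl⟩)

omit [Fintype ι] in
theorem g2_em {A : Set ℂ} {x : ι → ℂ} (s : Bool) (hx : range x ⊆ A) : range (em s x) ⊆ cl A :=
  (range_em s x).trans (cl_mono hx)

omit [Fintype ι] in
theorem g2_ne {x : ι → ℂ} (s : Bool) (hx : x ≠ 0) : em s x ≠ 0 := fun e =>
  hx (em_inj s (e.trans (map_zero _).symm))

theorem g2_two (h : Amb k I₀ n Λ) (e : hf Λ false *ᵥ v = hf Λ s *ᵥ u) {x y : ι → ℂ} {t : Bool}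
    {d : ℕ} (hT : Rk k (range v ∪ range u ∪ range x ∪ range y) d) (h0 : x ≠ y)
    (e' : hf Λ t *ᵥ x = hf Λ t *ᵥ y) (hi : ∀ c : ℂ, em false v - em s u ≠ c • em t (x - y)) :
    Rk (k ∪ range (ent Λ)) (range v) (d - (n + 1) * 2) := by
  refine (c1_two h.fin h.gn hT (g2_ne t (sub_ne_zero.2 h0)) hi ?_ (g2_sub (g2_em _ ?_) (g2_em _ ?_))
    ?_ ?_).2.sub subset_rfl (fun _ m => .inl (.inl (.inl m))) le_rfl
  · rw [map_sub]
    exact g2_sub (g2_em _ fun _ m => .inr (.inl (.inr m))) (g2_em _ fun _ m => .inr (.inr m))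
  · exact fun _ m => .inr (.inl (.inl (.inl m)))
  · exact fun _ m => .inr (.inl (.inl (.inr m)))
  · rw [← hf_mulVec, mulVec_sub, e', sub_self]
  · rw [mulVec_sub, ← hf_mulVec, ← hf_mulVec, e, sub_self]

/-- `w = em false v - em s u ≠ 0` is killed by `Λ`. -/
theorem Amb.nice (h : Amb k I₀ n Λ) (hI : Sub k I₀ I a) (hJ : Sub k I₀ J b) (ha : a < n)
    (hv : v ∈ Zs J) (hu : u ∈ Zs I) (e : hf Λ false *ᵥ v = hf Λ s *ᵥ u)
    (hs : s = true ∨ v ∉ Zs I) (hr : ¬Rk (k ∪ range (ent Λ)) (range v) (a + b - n)) :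
    Nice (hf Λ false) (hf Λ s) I₀ I J a b v u := by
  have hv0 : v ∈ Zs I₀ := Zs_anti hJ.le hv
  have hu0 : u ∈ Zs I₀ := Zs_anti hI.le hu
  have v0 : v ≠ 0 := fun z => hr (z ▸ rk_zero_vec _ _)
  have u0 : u ≠ 0 := fun z => v0 (h.bpf false v hv0 (by rw [e, z, mulVec_zero]))
  have sp := h.sep hv0 hu0 u0 (hs.imp_right fun m c z => m (z ▸ hI.cn.hg.smul_mem hu c))
  have sv := self_mem_tan h.cn.hg hv0
  have su := self_mem_tan h.cn.hg hu0
  have sp' {x y} (hx : x ∈ tan I₀ v) (hy : y ∈ tan I₀ u) (z : em false x = em s y) :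
      x = 0 ∧ y = 0 := by
    have : em false x = 0 := (Submodule.disjoint_def.1 sp) _ ⟨x, hx, rfl⟩ ⟨y, hy, z.symm⟩
    exact ⟨by_contra fun m => g2_ne _ m this, by_contra fun m => g2_ne _ m (z.symm.trans this)⟩
  have one (d) (hT : Rk k (range v ∪ range u) d) :
      Rk (k ∪ range (ent Λ)) (range v) (d - (n + 1)) :=
    (c1_one h.fin h.gn hT (ξ := em false v - em s u) (fun z => v0 (sp' sv su (sub_eq_zero.1 z)).1)
      (g2_sub (g2_em _ fun _ m => .inr (.inl m)) (g2_em _ fun _ m => .inr (.inr m)))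
      (by rw [mulVec_sub, ← hf_mulVec, ← hf_mulVec, e, sub_self])).2.sub subset_rfl
      subset_union_left le_rfl
  have rv := hJ.st.rk v hv
  have ru := hI.st.rk u hu
  have b1 : Module.finrank ℂ (tan J v) ≤ b + 1 := not_lt.1 fun m => hr
    ((one _ ((hJ.st.sg v hv m).union ru)).sub subset_rfl subset_rfl (by omega))
  have b2 : Module.finrank ℂ (tan I u) ≤ a + 1 := not_lt.1 fun m => hr
    ((one _ (rv.union (hI.st.sg u hu m))).sub subset_rfl subset_rfl (by omega))
  refine ⟨b1, b2, fun ξ m z => by_contra fun x0 => hr ?_, fun ξ m z => by_contra fun x0 => hr ?_,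
    fun u' m z => by_contra fun x0 => hr ?_, ?_⟩
  · obtain ⟨c, c0, r⟩ := (h.st.df v hv0).norm (h.reg v hv0 v0) m x0
    refine (g2_two h e (t := false) (x := c • ξ) (y := 0)
      (((rv.union ru).trans (r.sub (union_subset_union_right _ subset_union_left) subset_rfl
        le_rfl)).union (rk_zero_vec k 0)) (smul_ne_zero c0 x0)
      (by rw [mulVec_smul, z, smul_zero, mulVec_zero]) fun c' y => u0 ?_).sub subset_rfl subset_rfl
      (by omega)
    refine (sp' (x := v - c' • (c • ξ - 0)) (sub_mem sv (Submodule.smul_mem _ _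
      (sub_mem (Submodule.smul_mem _ _ m) (zero_mem _)))) su ?_).2
    rw [map_sub, map_smul, ← y, sub_sub_cancel]
  · obtain ⟨c, c0, r⟩ := (hI.st.df u hu).norm b2 m x0
    refine (g2_two h e (t := s) (x := c • ξ) (y := 0)
      (((rv.union ru).trans (r.sub (union_subset_union_right _ subset_union_right) subset_rfl
        le_rfl)).union (rk_zero_vec k 0)) (smul_ne_zero c0 x0)
      (by rw [mulVec_smul, z, smul_zero, mulVec_zero]) fun c' y => v0 ?_).sub subset_rfl subset_rfl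
      (by omega)
    refine (sp' (y := u + c' • (c • ξ - 0)) sv (add_mem su (Submodule.smul_mem _ _
      (sub_mem (Submodule.smul_mem _ _ (tan_anti hI.le u m)) (zero_mem _)))) ?_).1
    rw [map_add, map_smul, ← y, add_sub_cancel]
  · refine (g2_two h e (t := s) (x := u') (y := u)
      (((rv.union ru).union (hI.st.rk u' m)).sub subset_rfl (union_subset subset_rfl
        fun _ m => .inl (.inr m)) le_rfl) x0 z fun c' y => ?_).sub subset_rfl subset_rfl (by omega)
    have y' : em false v = em s ((1 - c') • u + c' • u') := by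
      rw [sub_eq_iff_eq_add'.1 y, ← map_smul, ← map_add]
      congr 1
      module
    cases s
    · rcases h.jet.three v hv0 u hu0 u' (Zs_anti hI.le m) _ _ (em_inj _ y') with ⟨c, p⟩ | ⟨c, p⟩
      · exact hs.resolve_left (by simp) (p ▸ hI.cn.hg.smul_mem hu c)
      · exact hs.resolve_left (by simp) (p ▸ hI.cn.hg.smul_mem m c)
    · exact v0 (em_disj y').1
  · obtain ⟨j, hj⟩ := Function.ne_iff.1 v0
    have c0 : (v j)⁻¹ ≠ 0 := inv_ne_zero hj
    have hv' := hJ.cn.hg.smul_mem hv (v j)⁻¹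
    have hu' := hI.cn.hg.smul_mem hu (v j)⁻¹
    have r1 : Rk k (range ((v j)⁻¹ • v)) b := rk_norm h.fin
      (fun c => hJ.st.rk _ (hJ.cn.hg.smul_mem hv' c)) (j := j) (inv_mul_cancel₀ hj)
    have d1 := hJ.st.df _ hv'
    have d2 := hI.st.df _ hu'
    rw [tan_smul hJ.cn.hg c0] at d1
    rw [tan_smul hI.cn.hg c0] at d2
    have dj : Disjoint ((tan J v).map (em false)) ((tan I u).map (em s)) :=
      sp.mono (Submodule.map_mono (tan_anti hJ.le v)) (Submodule.map_mono (tan_anti hI.le u))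
    have f1 := Submodule.finrank_add_finrank_le_of_disjoint dj
    have f2 := Submodule.finrank_sup_add_finrank_inf_eq ((tan J v).map (em false))
      ((tan I u).map (em s))
    rw [dj.eq_bot, finrank_bot,
      ← LinearEquiv.finrank_eq (Submodule.equivMapOfInjective _ (em_inj false) _),
      ← LinearEquiv.finrank_eq (Submodule.equivMapOfInjective _ (em_inj s) _)] at f2
    have l1 := hJ.cn.toPr.le_tan hv
    have l2 := hI.cn.toPr.le_tan hu
    have := c2 h.fin h.gn (r1.union (hI.st.rk _ hu'))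
      (E := (tan J v).map (em false) ⊔ (tan I u).map (em s))
      (((d1.mono ((union_subset_union_right _ subset_union_left).trans (subset_cl _))).em _).sup
        ((d2.mono ((union_subset_union_right _ subset_union_right).trans (subset_cl _))).em _))
      (by omega) (ξ := em false ((v j)⁻¹ • v) - em s ((v j)⁻¹ • u))
      (fun z => smul_ne_zero c0 v0 (sp' (Submodule.smul_mem _ _ sv) (Submodule.smul_mem _ _ su)
        (sub_eq_zero.1 z)).1)
      (g2_sub (g2_em _ fun _ m => .inr (.inl m)) (g2_em _ fun _ m => .inr (.inr m)))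
      (by rw [mulVec_sub, ← hf_mulVec, ← hf_mulVec, mulVec_smul, mulVec_smul, e, sub_self])
    have q (t) : Λ.mulVecLin.comp (em t) = (hf Λ t).mulVecLin :=
      LinearMap.ext fun x => (hf_mulVec Λ t x).symm
    rwa [Submodule.map_sup, ← Submodule.map_comp, ← Submodule.map_comp, q, q] at this

end Pool.Agent.Lib.MP_d3d358_ag.Mv
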