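import Pool.Agent.Lib.MP_d3d358_ag.Mv.Defs
import Pool.Agent.Lib.MP_d3d358_ag.Cw.SpB

/-! Zeros of ideals and the ideal of the cone spanned by a vector. -/

set_option autoImplicit false

namespace Pool.Agent.Lib.MP_d3d358_ag.Mv

open MvPolynomial Set Matrix Topology Filter

variable {ι R R' : Type} [CommRing R] [Algebra ℂ R] [CommRing R'] [Algebra ℂ R'] {N : ℕ}
  {I J : Ideal (Pl ι)} {y : ι → R} {v : ι → ℂ} {F : Pl ι}

theorem hk_sc {d : ℕ} (hF : F.IsHomogeneous d) (c : R) (y : ι → R) :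
    aeval (c • y) F = c ^ d * aeval y F := by
  rw [aeval_def, aeval_def, eval₂_eq, eval₂_eq, Finset.mul_sum]
  refine Finset.sum_congr rfl fun s hs => ?_
  rw [hF.degree_eq_sum_deg_support hs]
  simp only [Pi.smul_apply, smul_eq_mul, mul_pow, Finset.prod_mul_distrib,
    Finset.prod_pow_eq_pow_sum]
  ring

theorem hk_sum (y : ι → R) (F : Pl ι) : aeval y F =
    ∑ d ∈ Finset.range (F.totalDegree + 1), aeval y (homogeneousComponent d F) := by
  rw [← map_sum, sum_homogeneousComponent]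

theorem hk_co (y : ι → R) (F : Pl ι) (d : ℕ) :
    (aeval (fun i => Polynomial.C (y i) * Polynomial.X) F).coeff d =
      aeval y (homogeneousComponent d F) := by
  have e : (fun i => Polynomial.C (y i) * Polynomial.X) =
      (Polynomial.X : Polynomial R) • fun i => Polynomial.CAlgHom (R := ℂ) (y i) :=
    funext fun i => mul_comm _ _
  rw [e, hk_sum, Polynomial.finsetSum_coeff, Finset.sum_eq_single d]
  · rw [hk_sc (homogeneousComponent_isHomogeneous d F), ← comp_aeval_apply, mul_comm]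
    exact (Polynomial.coeff_C_mul_X_pow _ d d).trans (if_pos rfl)
  · intro b _ hb
    rw [hk_sc (homogeneousComponent_isHomogeneous b F), ← comp_aeval_apply, mul_comm]
    exact (Polynomial.coeff_C_mul_X_pow _ b d).trans (if_neg hb.symm)
  · intro hd
    rw [homogeneousComponent_eq_zero d F (by simpa using hd), map_zero, Polynomial.coeff_zero]

theorem On.mono (h : On J y) (hI : I ≤ J) : On I y := fun F hF => h F (hI hF)

theorem On.map (h : On I y) (φ : R →ₐ[ℂ] R') : On I fun i => φ (y i) := fun F hF => by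
  rw [← comp_aeval_apply, h F hF, map_zero]

theorem On.smul (hI : Hg I) (h : On I y) (c : R) : On I (c • y) := fun F hF => by
  rw [hk_sum]
  exact Finset.sum_eq_zero fun d _ => by
    rw [hk_sc (homogeneousComponent_isHomogeneous d F), h _ (hI F hF d), mul_zero]

theorem aeval_mk (I : Ideal (Pl ι)) (F : Pl ι) :
    aeval (fun i => Ideal.Quotient.mk I (X i)) F = Ideal.Quotient.mk I F :=
  (comp_aeval_apply X (Ideal.Quotient.mkₐ ℂ I) F).symm.trans (by rw [aeval_X_left_apply]; rfl)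

theorem on_mk (I : Ideal (Pl ι)) : On I fun i => Ideal.Quotient.mk I (X i) := fun F hF =>
  (aeval_mk I F).trans (Ideal.Quotient.eq_zero_iff_mem.2 hF)

theorem mem_hk : F ∈ hk y ↔ ∀ d, aeval y (homogeneousComponent d F) = 0 := by
  rw [hk, RingHom.mem_ker, Polynomial.ext_iff]
  exact forall_congr' fun d => by rw [hk_co, Polynomial.coeff_zero]

theorem mem_hk_hom {d : ℕ} (hF : F.IsHomogeneous d) : F ∈ hk y ↔ aeval y F = 0 := by
  refine mem_hk.trans ⟨fun h => homogeneousComponent_eq_self hF ▸ h d, fun h e => ?_⟩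
  rw [homogeneousComponent_of_mem hF]
  split_ifs
  · exact h
  · exact map_zero _

theorem hg_hk (y : ι → R) : Hg (hk y) := fun F hF k =>
  (mem_hk_hom (homogeneousComponent_isHomogeneous k F)).2 (mem_hk.1 hF k)

theorem on_hk (y : ι → R) : On (hk y) y := fun F hF =>
  (hk_sum y F).trans (Finset.sum_eq_zero fun d _ => mem_hk.1 hF d)

theorem le_hk (hI : Hg I) : I ≤ hk y ↔ On I y :=
  ⟨(on_hk y).mono, fun h F hF => mem_hk.2 fun d => h _ (hI F hF d)⟩

theorem hk_prime [IsDomain R] (y : ι → R) : (hk y).IsPrime := RingHom.ker_isPrime _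

theorem hk_le_map (φ : R →ₐ[ℂ] R') (y : ι → R) : hk y ≤ hk fun i => φ (y i) :=
  (le_hk (hg_hk y)).2 ((on_hk y).map φ)

theorem hk_map_inj (φ : R →ₐ[ℂ] R') (h : Function.Injective φ) (y : ι → R) :
    hk (fun i => φ (y i)) = hk y :=
  le_antisymm (fun F hF => mem_hk.2 fun d => h (by
    rw [comp_aeval_apply, mem_hk.1 hF d, map_zero])) (hk_le_map φ y)

theorem hk_smul [IsDomain R] {c : R} (hc : c ≠ 0) (y : ι → R) : hk (c • y) = hk y := by
  ext F
  rw [mem_hk, mem_hk]
  exact forall_congr' fun d => by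
    rw [hk_sc (homogeneousComponent_isHomogeneous d F), mul_eq_zero,
      or_iff_right (pow_ne_zero d hc)]

theorem exists_homog (F : Pl ι) (j : ι) :
    ∃ (d : ℕ) (G : Pl ι), G.IsHomogeneous d ∧ G - F ∈ Ideal.span {X j - 1} := by
  refine ⟨F.totalDegree, ∑ d ∈ Finset.range (F.totalDegree + 1),
    X j ^ (F.totalDegree - d) * homogeneousComponent d F,
    IsHomogeneous.sum _ _ _ fun d hd => ?_, ?_⟩
  · have := (isHomogeneous_X_pow (R := ℂ) j (F.totalDegree - d)).mul
      (homogeneousComponent_isHomogeneous d F)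
    rwa [Nat.sub_add_cancel (Nat.lt_succ_iff.1 (Finset.mem_range.1 hd))] at this
  · have : ∑ d ∈ Finset.range (F.totalDegree + 1), (X j ^ (F.totalDegree - d) *
        homogeneousComponent d F - homogeneousComponent d F) ∈ Ideal.span {(X j - 1 : Pl ι)} :=
      Ideal.sum_mem _ fun d _ => by
        rw [← sub_one_mul]
        exact Ideal.mul_mem_right _ _ (Ideal.mem_span_singleton.2 (sub_one_dvd_pow_sub_one _ _))
    rwa [Finset.sum_sub_distrib, sum_homogeneousComponent] at this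

theorem ker_aeval {j : ι} (hj : y j = 1) :
    RingHom.ker (aeval y : Pl ι →ₐ[ℂ] R) = hk y ⊔ Ideal.span {X j - 1} := by
  have h : Ideal.span {X j - 1} ≤ RingHom.ker (aeval y : Pl ι →ₐ[ℂ] R) :=
    (Ideal.span_singleton_le_iff_mem _).2 (by simp [RingHom.mem_ker, hj])
  refine le_antisymm (fun F hF => ?_) (sup_le (on_hk y) h)
  obtain ⟨d, G, hG, e⟩ := exists_homog F j
  have : G - F + F ∈ RingHom.ker (aeval y : Pl ι →ₐ[ℂ] R) := add_mem (h e) hF
  rw [sub_add_cancel] at this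
  exact sub_sub_cancel G F ▸ sub_mem (Ideal.mem_sup_left ((mem_hk_hom hG).2 this))
    (Ideal.mem_sup_right e)

/-- specialising the normalised vector `y / y k` to a complex point of its cone -/
theorem exists_spec {L : Type} [Field L] [Algebra ℂ L] {y : ι → L} {k : ι} (hy : y k ≠ 0)
    (hv : v ∈ Zs (hk y)) (h1 : v k = 1) :
    ∃ φ : Algebra.adjoin ℂ (range fun i => y i / y k) →ₐ[ℂ] ℂ,
      ∀ i, φ ⟨y i / y k, Algebra.subset_adjoin ⟨i, rfl⟩⟩ = v i := by
  let z : ι → Algebra.adjoin ℂ (range fun i => y i / y k) := fun i =>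
    ⟨y i / y k, Algebra.subset_adjoin ⟨i, rfl⟩⟩
  have hs : Function.Surjective (aeval z : Pl ι →ₐ[ℂ] _) := fun ⟨a, ha⟩ => by
    rw [Algebra.adjoin_range_eq_range_aeval] at ha
    obtain ⟨G, rfl⟩ := ha
    exact ⟨G, Subtype.ext (comp_aeval_apply z (Subalgebra.val _) G)⟩
  have hz : hk z = hk y := by
    rw [← hk_map_inj (Subalgebra.val _) Subtype.val_injective z, ← hk_smul (inv_ne_zero hy) y]
    exact congrArg hk (funext fun i => div_eq_inv_mul _ _)
  have hl : RingHom.ker (aeval z : Pl ι →ₐ[ℂ] _) ≤ RingHom.ker (aeval v : Pl ι →ₐ[ℂ] ℂ) := by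
    rw [ker_aeval (j := k) (Subtype.ext (div_self hy)), hz]
    exact sup_le hv ((Ideal.span_singleton_le_iff_mem _).2 (by simp [RingHom.mem_ker, h1]))
  refine ⟨(Ideal.Quotient.liftₐ _ (aeval v) hl).comp
    (Ideal.quotientKerAlgEquivOfSurjective hs).symm.toAlgHom, fun i => ?_⟩
  have : (Ideal.quotientKerAlgEquivOfSurjective hs).symm (z i) = Ideal.Quotient.mk _ (X i) :=
    (AlgEquiv.symm_apply_eq _).2 (aeval_X z i).symm
  exact (congrArg (Ideal.Quotient.liftₐ _ (aeval v : Pl ι →ₐ[ℂ] ℂ) hl) this).trans (aeval_X v i)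

theorem mem_Zs : v ∈ Zs I ↔ ∀ F ∈ I, eval v F = 0 := Iff.rfl

theorem Zs_anti (h : I ≤ J) : Zs J ⊆ Zs I := fun _ hv => On.mono hv h

theorem Hg.smul_mem (hI : Hg I) (hv : v ∈ Zs I) (c : ℂ) : c • v ∈ Zs I := On.smul hI hv c

theorem isClosed_Zs (I : Ideal (Pl ι)) : IsClosed (Zs I) := by
  have : Zs I = ⋂ F ∈ I, {v | eval v F = 0} := Set.ext fun v => by simp [mem_Zs]
  rw [this]
  exact isClosed_biInter fun F _ => isClosed_eq (continuous_eval F) continuous_const

theorem hk_pt (p : Pl ι →ₐ[ℂ] ℂ) (G : Pl ι) : eval (fun i => p (X i)) G = p G :=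
  (comp_aeval_apply X p G).symm.trans (by rw [aeval_X_left_apply])

theorem nss [Finite ι] (hI : I.IsPrime) (h : ∀ v ∈ Zs I, eval v F = 0) : F ∈ I := by
  by_contra hF
  obtain ⟨p, hp, hn⟩ := Cw.exists_vz I hF
  exact hn ((hk_pt p.hom F).symm.trans (h _ fun G hG => (hk_pt p.hom G).trans (hp G hG)))

theorem dense_Zs [Finite ι] (hI : I.IsPrime) (hF : F ∉ I) (hv : v ∈ Zs I) :
    ∃ᶠ u in 𝓝 v, u ∈ Zs I ∧ eval u F ≠ 0 := by
  have h := Pool.Agent.Lib.MP_9ff3e7_ag.F.dense_prime_nhds I (aeval v) hv F hF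
  have t : Tendsto (fun (p : Pl ι →ₐ[ℂ] ℂ) i => p (X i))
      (comap (fun (p : Pl ι →ₐ[ℂ] ℂ) f => p f) (𝓝 fun f => aeval v f)) (𝓝 v) :=
    tendsto_pi_nhds.2 fun i => aeval_X (R := ℂ) v i ▸
      (tendsto_pi_nhds.1 (tendsto_comap (f := fun (p : Pl ι →ₐ[ℂ] ℂ) f => p f)) (X i))
  exact t.frequently (h.mono fun p hp =>
    ⟨fun G hG => (hk_pt p G).trans (hp.1 G hG), fun e => hp.2 ((hk_pt p F).symm.trans e)⟩)

variable [Fintype ι] {P M : Matrix (Fin N) ι ℂ}

theorem ap_eq (P : Matrix (Fin N) ι ℂ) (v : ι → ℂ) : ap P v = P *ᵥ v := rfl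

theorem map_ap (φ : R →ₐ[ℂ] R') (P : Matrix (Fin N) ι ℂ) (y : ι → R) (k : Fin N) :
    φ (ap P y k) = ap P (fun i => φ (y i)) k := by
  simp only [ap, map_sum, map_smul]

theorem ap_smul (P : Matrix (Fin N) ι ℂ) (c : R) (y : ι → R) : ap P (c • y) = c • ap P y :=
  funext fun k => by
    simp only [ap, Pi.smul_apply, smul_eq_mul, Finset.mul_sum, mul_smul_comm]

theorem ap_add (P : Matrix (Fin N) ι ℂ) (y y' : ι → R) : ap P (y + y') = ap P y + ap P y' :=
  funext fun k => by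
    simp only [ap, Pi.add_apply, smul_add, Finset.sum_add_distrib]

theorem aeval_ap (P : Matrix (Fin N) ι ℂ) (y : ι → R) (k : Fin N) :
    aeval y (ap P (X : ι → Pl ι) k) = ap P y k := by
  simp only [map_ap, aeval_X]

theorem ap_hom (P : Matrix (Fin N) ι ℂ) (k : Fin N) :
    (ap P (X : ι → Pl ι) k).IsHomogeneous 1 :=
  IsHomogeneous.sum _ _ _ fun i _ => smul_eq_C_mul (X i) (P k i) ▸ isHomogeneous_C_mul_X _ i

theorem Inc.smul (hI : Hg I) (h : v ∈ Inc P M I) (c : ℂ) : c • v ∈ Inc P M I := by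
  obtain ⟨u, hu, e⟩ := h
  exact ⟨c • u, hI.smul_mem hu c, by rw [mulVec_smul, mulVec_smul, e]⟩

theorem Bpf.mono (h : Bpf P I) (hI : I ≤ J) : Bpf P J := fun v hv => h v (Zs_anti hI hv)

end Pool.Agent.Lib.MP_d3d358_ag.Mv
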