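import Pool.Agent.Lib.MP_d3d358_ag.Mv.Fin

/-! The tangent space of the image. -/

set_option autoImplicit false

namespace Pool.Agent.Lib.MP_d3d358_ag.Mv

open MvPolynomial Set Matrix Topology Filter

variable {ι : Type} [Fintype ι] {N a b : ℕ} {I₀ I J Z : Ideal (Pl ι)} {P M : Matrix (Fin N) ι ℂ}
  {v u : ι → ℂ}

theorem KI_ev (P : Matrix (Fin N) ι ℂ) (v : ι → ℂ) (G : Pl (Fin N)) :
    eval v (aeval (ap P (X : ι → Pl ι)) G) = eval (P *ᵥ v) G := by
  have : (aeval v : Pl ι →ₐ[ℂ] ℂ).comp (aeval (ap P (X : ι → Pl ι))) = aeval (P *ᵥ v) :=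
    algHom_ext fun k => by rw [AlgHom.comp_apply, aeval_X, aeval_X, aeval_ap, ap_eq]
  exact DFunLike.congr_fun this G

theorem KI_chain (P : Matrix (Fin N) ι ℂ) (v : ι → ℂ) (G : Pl (Fin N)) :
    grad v (aeval (ap P (X : ι → Pl ι)) G) = grad (P *ᵥ v) G ᵥ* P := by
  induction G using MvPolynomial.induction_on with
  | C c => rw [aeval_C, algebraMap_eq, grad_C, grad_C, zero_vecMul]
  | add F G h k => rw [map_add, grad_add, grad_add, add_vecMul, h, k]
  | mul_X F k h =>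
    rw [map_mul, grad_mul, grad_mul, KI_ev, KI_ev, h, aeval_X, grad_ap, grad_X, add_vecMul,
      smul_vecMul, smul_vecMul, single_one_vecMul]
    rfl

omit [Fintype ι] in
theorem KI_sq {F : Pl ι} (h : F ∈ RingHom.ker (eval v) ^ 2) : grad v F = 0 := by
  rw [pow_two] at h
  refine Submodule.mul_induction_on h (fun x hx y hy => ?_) fun x y hx hy => ?_
  · rw [grad_mul, show eval v x = 0 from hx, show eval v y = 0 from hy, zero_smul, zero_smul,
      add_zero]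
  · rw [grad_add, hx, hy, add_zero]

theorem KI_sq' {F : Pl ι} (h : eval v F = 0) (k : grad v F = 0) :
    F ∈ RingHom.ker (eval v) ^ 2 := by
  simpa [h, k] using taylor v F

theorem KI_lin (v c : ι → ℂ) : ∃ l : Pl ι, eval v l = 0 ∧ grad v l = c := by
  classical
  refine ⟨∑ k, C (c k) * (X k - C (v k)), by simp, funext fun i => ?_⟩
  simp [grad, Pi.single_apply]

/-- a covector that agrees with `c ᵥ* M` on the tangent space -/
theorem KI_mod (hu : u ∈ Zs I) {F : Pl ι} (h0 : eval u F = 0) {l : Pl (Fin N)}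
    (l0 : eval (M *ᵥ u) l = 0) (h : ∀ ξ ∈ tan I u, grad u F ⬝ᵥ ξ = grad (M *ᵥ u) l ⬝ᵥ M *ᵥ ξ) :
    Ideal.Quotient.mk I F - pm M I l ∈ (RingHom.ker (eval u)).map (Ideal.Quotient.mk I) ^ 2 := by
  obtain ⟨G, g1, g2⟩ := exists_grad (I := I) (v := u)
    (w := grad u F - grad (M *ᵥ u) l ᵥ* M) fun ξ k => by
      rw [sub_dotProduct, h ξ k, dotProduct_mulVec, sub_self]
  have := Ideal.mem_map_of_mem (Ideal.Quotient.mk I)
    (KI_sq' (v := u) (F := F - aeval (ap M (X : ι → Pl ι)) l - G)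
      (by rw [map_sub, map_sub, h0, KI_ev, l0, mem_Zs.1 hu G g1, sub_zero, sub_zero])
      (by rw [grad_sub, grad_sub, KI_chain, g2, sub_self]))
  rwa [Ideal.map_pow, map_sub, Ideal.Quotient.eq_zero_iff_mem.2 g1, sub_zero, map_sub] at this

theorem KI_max (hu : u ∈ Zs I) (h4 : Unr M I u)
    (h5 : ∀ u' ∈ Zs I, M *ᵥ u' = M *ᵥ u → u' = u) :
    (RingHom.ker (eval u)).map (Ideal.Quotient.mk I) ≤
      (RingHom.ker (eval (M *ᵥ u))).map (pm M I) := by
  set m := (RingHom.ker (eval u)).map (Ideal.Quotient.mk I)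
  set n := (RingHom.ker (eval (M *ᵥ u))).map (pm M I)
  obtain ⟨L, hL⟩ := (M.mulVecLin ∘ₗ (tan I u).subtype).exists_leftInverse_of_injective
    (LinearMap.ker_eq_bot'.2 fun ξ c => Subtype.ext (h4 ξ.1 ξ.2 c))
  have s1 : m ≤ n ⊔ m ^ 2 := Ideal.map_le_iff_le_comap.2 fun F h0 => by
    obtain ⟨c, hc⟩ := (dotProductEquiv ℂ (Fin N)).surjective
      (dotProductBilin ℂ ℂ (grad u F) ∘ₗ (tan I u).subtype ∘ₗ L)
    obtain ⟨l, l0, l1⟩ := KI_lin (M *ᵥ u) c
    have := KI_mod hu h0 l0 fun ξ k => by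
      have e1 : c ⬝ᵥ M *ᵥ ξ = grad u F ⬝ᵥ (L (M *ᵥ ξ)).1 := DFunLike.congr_fun hc (M *ᵥ ξ)
      have e2 : L (M *ᵥ ξ) = ⟨ξ, k⟩ := DFunLike.congr_fun hL ⟨ξ, k⟩
      rw [l1, e1, e2]
    rw [Ideal.mem_comap, ← add_sub_cancel (pm M I l) (Ideal.Quotient.mk I F)]
    exact Submodule.add_mem_sup (Ideal.mem_map_of_mem _ l0) this
  have s2 (k : ℕ) : m ≤ n ⊔ m ^ (k + 1) := by
    induction k with
    | zero => simp
    | succ k ih =>
      refine s1.trans (sup_le le_sup_left ?_)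
      rw [pow_two, pow_succ' m (k + 1)]
      refine (Ideal.mul_mono_right ih).trans ?_
      rw [Ideal.mul_sup]
      exact sup_le_sup_right Ideal.mul_le_right _
  have s3 : RingHom.ker (eval u) ≤ (n.comap (Ideal.Quotient.mk I)).radical := by
    rw [← vanishingIdeal_zeroLocus_eq_radical (K := ℂ)]
    intro F h0 y hy
    have a1 : y ∈ Zs I := fun G c => hy G (by
      rw [Ideal.mem_comap, Ideal.Quotient.eq_zero_iff_mem.2 c]; exact zero_mem _)
    have a2 : M *ᵥ y = M *ᵥ u := funext fun k => by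
      have := hy (aeval (ap M (X : ι → Pl ι)) (X k - C ((M *ᵥ u) k) : Pl (Fin N)))
        (Ideal.mem_map_of_mem (pm M I) (by simp [RingHom.mem_ker]))
      have e := (KI_ev M y _).symm.trans this
      simpa [sub_eq_zero] using e
    rw [h5 y a1 a2]
    exact h0
  obtain ⟨k, hk⟩ := Ideal.exists_pow_le_of_le_radical_of_fg s3 (IsNoetherian.noetherian _)
  refine (s2 k).trans (sup_le le_rfl ((Ideal.pow_le_pow_right k.le_succ).trans ?_))
  rw [← Ideal.map_pow]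
  exact Ideal.map_le_iff_le_comap.2 hk

theorem KI_nak {A S : Type} [CommRing A] [CommRing S] (f : A →+* S) (hf : f.Finite) (o : Ideal A)
    (h : ∀ x : S, ∃ a, x - f a ∈ o.map f) {l : A} (hl : f l ∈ o.map f ^ 2) :
    ∃ r g, r - 1 ∈ o ∧ g ∈ o ^ 2 ∧ f (r * l - g) = 0 := by
  let _ := f.toAlgebra
  have fin : Module.Finite A S := hf
  obtain ⟨r, r1, r2⟩ := Submodule.exists_sub_one_mem_and_smul_le_of_fg_of_le_sup (I := o)
    (N := Submodule.span A {(1 : S)}) (P := ⊤) fin.fg_top le_rfl fun x _ => by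
      obtain ⟨a, k⟩ := h x
      rw [← add_sub_cancel (f a) x, Ideal.smul_top_eq_map]
      exact Submodule.add_mem_sup (Submodule.mem_span_singleton.2 ⟨a, mul_one _⟩) k
  have a2 : f l ∈ (o ^ 2 • ⊤ : Submodule A S) := by
    rw [Ideal.smul_top_eq_map, Ideal.map_pow]
    exact hl
  have a3 : r • f l ∈ o ^ 2 • Submodule.span A {(1 : S)} := by
    refine Submodule.smul_induction_on (p := fun x => r • x ∈ o ^ 2 • Submodule.span A {(1 : S)})
      a2 (fun g hg x _ => ?_) fun x y hx hy => ?_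
    · rw [smul_comm]
      exact Submodule.smul_mem_smul hg (r2 (Submodule.smul_mem_pointwise_smul x r ⊤ trivial))
    · rw [smul_add]
      exact add_mem hx hy
  obtain ⟨g, g1, g2⟩ := Submodule.mem_smul_span_singleton.1 a3
  refine ⟨r, g, r1, g1, ?_⟩
  rw [map_sub, map_mul, sub_eq_zero]
  exact g2.symm.trans (mul_one _)

/-- `S = Pl ι ⧸ I`, `o = M u`: `𝔪ᵤ = 𝔪ₒ S + 𝔪ᵤ²` (`exists_grad`, `taylor`), `𝔪ᵤ = √(𝔪ₒ S)`, so
`𝔪ᵤ = 𝔪ₒ S`; Nakayama gives `r` with `r o = 1`, `r S ⊆` the image; a derivation `δ` at `o` extends by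
`δ' f = δ (r f) - δ r * f u` -/
theorem ki (hf : (pm M I).toRingHom.Finite) (hu : u ∈ Zs I) (h4 : Unr M I u)
    (h5 : ∀ u' ∈ Zs I, M *ᵥ u' = M *ᵥ u → u' = u) :
    tan (RingHom.ker (pm M I)) (M *ᵥ u) ≤ (tan I u).map M.mulVecLin := by
  intro η hη
  refine (Subspace.forall_mem_dualAnnihilator_apply_eq_zero_iff _ η).1 fun φ hφ => ?_
  obtain ⟨c, rfl⟩ := (dotProductEquiv ℂ (Fin N)).surjective φ
  obtain ⟨l, l0, l1⟩ := KI_lin (M *ᵥ u) c
  have a1 := KI_mod (M := M) hu (F := 0) (map_zero _) l0 fun ξ k => by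
    rw [← C_0, grad_C, zero_dotProduct, l1]
    exact ((Submodule.mem_dualAnnihilator _).1 hφ _ ⟨ξ, k, rfl⟩).symm
  have mx := KI_max hu h4 h5
  rw [map_zero, zero_sub, neg_mem_iff] at a1
  obtain ⟨r, g, r1, g1, g2⟩ := KI_nak (pm M I).toRingHom hf (RingHom.ker (eval (M *ᵥ u))) (fun x => by
    obtain ⟨F, rfl⟩ := Ideal.Quotient.mk_surjective x
    refine ⟨C (eval u F), mx ?_⟩
    change Ideal.Quotient.mk I F - Ideal.Quotient.mk I (aeval _ (C _)) ∈ _
    rw [aeval_C, algebraMap_eq, ← map_sub]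
    exact Ideal.mem_map_of_mem _ (by simp [RingHom.mem_ker])) (Ideal.pow_right_mono mx 2 a1)
  have a4 := mem_tan.1 hη (r * l - g) g2
  have r0 : eval (M *ᵥ u) r = 1 := by simpa [RingHom.mem_ker, sub_eq_zero] using r1
  rwa [grad_sub, grad_mul, KI_sq g1, l0, l1, r0, one_smul, zero_smul, add_zero, sub_zero] at a4

/-- `G ∘ P ∈ Z` by `nss`; chain rule by `mem_tan_dual` -/
theorem ki2 (hZ : Z.IsPrime) (hi : Zs Z ⊆ Inc P M I) (hv : v ∈ Zs Z) :
    (tan Z v).map P.mulVecLin ≤ tan (RingHom.ker (pm M I)) (P *ᵥ v) := by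
  rintro _ ⟨ξ, h, rfl⟩
  refine mem_tan.2 fun G c => ?_
  have := mem_tan.1 h (aeval (ap P (X : ι → Pl ι)) G) (nss hZ fun y hy => by
    obtain ⟨w, w1, w2⟩ := hi hy
    rw [KI_ev, w2, ← KI_ev]
    exact mem_Zs.1 w1 _ (Ideal.Quotient.eq_zero_iff_mem.1 c))
  rwa [KI_chain, ← dotProduct_mulVec] at this

/-- `E = tan I₀ v ⊓ P ⁻¹ (M (tan I u))` -/
theorem Nice.good (h : Nice P M I₀ I J a b v u) (hI : Hg I) (hb : Bpf M I) (hZ : Z.IsPrime)
    (h0 : I₀ ≤ Z) (hJ : I₀ ≤ J) (hi : Zs Z ⊆ Inc P M I) (hv : v ∈ Zs Z) (hu : u ∈ Zs I)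
    (e : P *ᵥ v = M *ᵥ u) : Good I₀ Z J (a + 1) (b + 1) v := by
  refine ⟨h.b1, tan I₀ v ⊓ ((tan I u).map M.mulVecLin).comap P.mulVecLin,
    le_inf (tan_anti h0 v) (Submodule.map_le_iff_le_comap.1
      ((ki2 hZ hi hv).trans (e ▸ ki (hb.finite hI) hu h.b4 h.b5))), ?_,
    le_antisymm (sup_le inf_le_left (tan_anti hJ v)) fun ξ c => ?_⟩
  · refine le_trans (LinearMap.finrank_le_finrank_of_injective
      (f := P.mulVecLin.restrict (q := (tan I u).map M.mulVecLin) fun _ k => k.2)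
      ((injective_iff_map_eq_zero _).2 fun ξ c =>
        Subtype.ext (h.b3 ξ.1 ξ.2.1 (congrArg Subtype.val c))))
      ((Submodule.finrank_map_le _ _).trans h.b2)
  · obtain ⟨_, ⟨η, a1, rfl⟩, ζ, a2, a3⟩ := Submodule.mem_sup.1
      (h.b6.ge (Submodule.mem_top (x := P.mulVecLin ξ)))
    rw [← sub_add_cancel ξ η]
    refine Submodule.add_mem_sup ⟨sub_mem c (tan_anti hJ v a1), ?_⟩ a1
    change P.mulVecLin (ξ - η) ∈ (tan I u).map M.mulVecLin
    rwa [map_sub, ← a3, add_sub_cancel_left]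

end Pool.Agent.Lib.MP_d3d358_ag.Mv
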