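import Pool.Agent.Lib.MP_d3d358_ag.Mv.Hk

/-! Tangent spaces. -/

set_option autoImplicit false

namespace Pool.Agent.Lib.MP_d3d358_ag.Mv

open MvPolynomial Set Matrix Topology Filter TrivSqZeroExt

variable {ι : Type} {N : ℕ} {I J : Ideal (Pl ι)} {v ξ : ι → ℂ} {F G : Pl ι}

theorem grad_add (v : ι → ℂ) (F G : Pl ι) : grad v (F + G) = grad v F + grad v G :=
  funext fun i => by simp [grad]

theorem grad_sub (v : ι → ℂ) (F G : Pl ι) : grad v (F - G) = grad v F - grad v G :=
  funext fun i => by simp [grad]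

theorem grad_mul (v : ι → ℂ) (F G : Pl ι) :
    grad v (F * G) = eval v F • grad v G + eval v G • grad v F :=
  funext fun i => by simp [grad]

theorem grad_C (v : ι → ℂ) (c : ℂ) : grad v (C c) = 0 := funext fun i => by simp [grad]

theorem grad_X [DecidableEq ι] (v : ι → ℂ) (i : ι) : grad v (X i) = Pi.single i 1 :=
  funext fun j => by
    by_cases h : j = i
    · simp [grad, h]
    · simp [grad, h, pderiv_X_of_ne (Ne.symm h)]

variable [Fintype ι] {P : Matrix (Fin N) ι ℂ}

theorem grad_X_dot (v ξ : ι → ℂ) (i : ι) : grad v (X i) ⬝ᵥ ξ = ξ i := by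
  classical
  rw [grad_X, single_one_dotProduct]

theorem grad_ap (v : ι → ℂ) (P : Matrix (Fin N) ι ℂ) (k : Fin N) :
    grad v (ap P (X : ι → Pl ι) k) = P k := by
  classical
  funext j
  have h (i : ι) : eval v (pderiv j (X i : Pl ι)) = if j = i then 1 else 0 :=
    (congrFun (grad_X v i) j).trans (Pi.single_apply ..)
  simp only [grad, ap, map_sum, Derivation.map_smul, smul_eval, h]
  simp

theorem mem_tan : ξ ∈ tan I v ↔ ∀ F ∈ I, grad v F ⬝ᵥ ξ = 0 := by
  simp [tan, Submodule.mem_iInf]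

theorem aeval_dual (v ξ : ι → ℂ) (F : Pl ι) :
    aeval (fun i => (inl (v i) + inr (ξ i) : DualNumber ℂ)) F =
      inl (eval v F) + inr (grad v F ⬝ᵥ ξ) := by
  induction F using MvPolynomial.induction_on with
  | C a => simp [grad_C, algebraMap_eq_inl]
  | add p q hp hq =>
    rw [map_add, hp, hq, grad_add]
    ext <;> simp
  | mul_X p i hp =>
    rw [map_mul, hp, aeval_X, grad_mul, add_dotProduct, smul_dotProduct, smul_dotProduct,
      grad_X_dot]
    ext <;> simp [mul_comm, add_comm]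

theorem mem_tan_dual (hv : v ∈ Zs I) :
    ξ ∈ tan I v ↔ On I fun i => (inl (v i) + inr (ξ i) : DualNumber ℂ) := by
  rw [mem_tan]
  refine forall₂_congr fun F hF => ?_
  rw [aeval_dual, mem_Zs.1 hv F hF]
  exact ⟨fun h => by simp [h], fun h => by simpa using congrArg TrivSqZeroExt.snd h⟩

theorem tan_anti (h : I ≤ J) (v : ι → ℂ) : tan J v ≤ tan I v :=
  fun _ k => mem_tan.2 fun F hF => mem_tan.1 k F (h hF)

theorem self_mem_tan (hI : Hg I) (hv : v ∈ Zs I) : v ∈ tan I v := by
  rw [mem_tan_dual hv]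
  have := (On.map hv (Algebra.ofId ℂ (DualNumber ℂ))).smul hI (inl 1 + inr 1)
  convert this using 2 with i
  ext <;> simp [Algebra.ofId_apply, algebraMap_eq_inl]

theorem Tan_smul_le (hI : Hg I) {c : ℂ} (hc : c ≠ 0) (v : ι → ℂ) : tan I v ≤ tan I (c • v) := by
  refine fun ξ h => mem_tan.2 fun F hF => ?_
  have a : aeval (fun i => (C c * X i : Pl ι)) F ∈ I := by
    rw [← Ideal.Quotient.eq_zero_iff_mem, ← Ideal.Quotient.mkₐ_eq_mk ℂ, ← AlgHom.comp_apply,
      comp_aeval]
    exact (on_mk I).smul hI (Ideal.Quotient.mk I (C c)) F hF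
  have b := aeval_dual v ξ (aeval (fun i => (C c * X i : Pl ι)) F)
  rw [← AlgHom.comp_apply, comp_aeval, mem_tan.1 h _ a] at b
  have d : (fun i => aeval (fun i => (inl (v i) + inr (ξ i) : DualNumber ℂ)) (C c * X i : Pl ι)) =
      fun i => inl ((c • v) i) + inr ((c • ξ) i) := by
    funext i
    ext <;> simp [algebraMap_eq_inl]
  rw [d, aeval_dual] at b
  simpa [hc] using congrArg TrivSqZeroExt.snd b

theorem tan_smul (hI : Hg I) {c : ℂ} (hc : c ≠ 0) (v : ι → ℂ) : tan I (c • v) = tan I v :=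
  le_antisymm (by simpa [hc] using Tan_smul_le hI (inv_ne_zero hc) (c • v)) (Tan_smul_le hI hc v)

theorem taylor (v : ι → ℂ) (F : Pl ι) :
    F - C (eval v F) - ∑ i, C (grad v F i) * (X i - C (v i)) ∈ RingHom.ker (eval v) ^ 2 := by
  classical
  have m (i : ι) : (X i - C (v i) : Pl ι) ∈ RingHom.ker (eval v) := by simp [RingHom.mem_ker]
  induction F using MvPolynomial.induction_on with
  | C a => simp [grad_C]
  | add p q hp hq =>
    convert Ideal.add_mem _ hp hq using 1
    simp only [grad_add, map_add, Pi.add_apply, add_mul, Finset.sum_add_distrib]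
    ring
  | mul_X p j hp =>
    have e : ∑ i, C (grad v (p * X j) i) * (X i - C (v i) : Pl ι) =
        C (eval v p) * (X j - C (v j)) + C (v j) * ∑ i, C (grad v p i) * (X i - C (v i)) := by
      simp only [grad_mul, grad_X, Pi.add_apply, Pi.smul_apply, smul_eq_mul, map_add, map_mul,
        add_mul, Finset.sum_add_distrib, eval_X, Finset.mul_sum, mul_assoc]
      congr 1
      rw [Finset.sum_eq_single j] <;> simp +contextual
    have f : (∑ i, C (grad v p i) * (X i - C (v i))) * (X j - C (v j) : Pl ι) ∈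
        RingHom.ker (eval v) ^ 2 :=
      pow_two (RingHom.ker (eval v)) ▸ Ideal.mul_mem_mul
        (Ideal.sum_mem _ fun i _ => Ideal.mul_mem_left _ _ (m i)) (m j)
    convert Ideal.add_mem _ (Ideal.mul_mem_right (X j) _ hp) f using 1
    rw [e, map_mul, eval_X, map_mul]
    ring

/-- the gradients of the elements of `I` form a subspace; double annihilator -/
theorem exists_grad {w : ι → ℂ} (h : ∀ ξ ∈ tan I v, w ⬝ᵥ ξ = 0) : ∃ F ∈ I, grad v F = w := by
  classical
  let g : Pl ι →ₗ[ℂ] (ι → ℂ) := ⟨⟨grad v, grad_add v⟩, fun c F => funext fun i => by simp [grad]⟩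
  by_contra k
  obtain ⟨f, a, b⟩ := Submodule.exists_le_ker_of_notMem (p := (I.restrictScalars ℂ).map g) k
  have e (u : ι → ℂ) : u ⬝ᵥ (fun i => f (Pi.single i 1)) = f u := by
    rw [f.pi_apply_eq_sum_univ u]
    refine Finset.sum_congr rfl fun i _ => ?_
    exact congrArg (fun x => u i * f x) (funext fun j => by simp [Pi.single_apply, eq_comm])
  exact a ((e w).symm.trans (h _ (mem_tan.2 fun F hF => (e _).trans (b ⟨F, hF, rfl⟩))))

theorem hasStrictFDerivAt_eval (F : Pl ι) (v : ι → ℂ) : HasStrictFDerivAt (fun u => eval u F)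
    (LinearMap.toContinuousLinearMap (dotProductBilin ℂ ℂ (grad v F))) v := by
  induction F using MvPolynomial.induction_on with
  | C a =>
    simp only [eval_C, grad_C, map_zero]
    exact hasStrictFDerivAt_const ..
  | add p q hp hq =>
    simp only [map_add, grad_add]
    exact hp.add hq
  | mul_X p j hp =>
    simp only [map_mul, eval_X]
    refine (hp.mul (hasStrictFDerivAt_apply (𝕜 := ℂ) j v)).congr_fderiv ?_
    ext ξ
    simp [grad_mul, grad_X_dot]

/-- every covector is `c ᵥ* P + grad v F`, `F ∈ I`; so `u ↦ (cᵢ ᵥ* P ⬝ᵥ u + Fᵢ u)ᵢ` has derivative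
the identity at `v` and is injective near `v` (inverse function theorem) -/
theorem Unr.loc_inj (h : Unr P I v) : ∃ U ∈ 𝓝 v, InjOn (P *ᵥ ·) (U ∩ Zs I) := by
  classical
  obtain ⟨L, hL⟩ := (P.mulVecLin ∘ₗ (tan I v).subtype).exists_leftInverse_of_injective
    (LinearMap.ker_eq_bot'.2 fun ξ k => Subtype.ext (h ξ ξ.2 k))
  let G : (ι → ℂ) →ₗ[ℂ] ι → ℂ := (tan I v).subtype ∘ₗ L ∘ₗ P.mulVecLin
  let M := LinearMap.toMatrix' (LinearMap.id - G)
  have e (i) (ξ : ι → ℂ) : M i ⬝ᵥ ξ = ξ i - G ξ i :=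
    congrFun (LinearMap.toMatrix'_mulVec (LinearMap.id - G) ξ) i
  choose F a b using fun i => exists_grad (I := I) (v := v) (w := M i) fun ξ k => by
    rw [e, sub_eq_zero]
    exact congrFun (congrArg Subtype.val (LinearMap.congr_fun hL ⟨ξ, k⟩)).symm i
  have d : HasStrictFDerivAt (fun u => G u + fun i => eval u (F i))
      (ContinuousLinearEquiv.refl ℂ (ι → ℂ) : (ι → ℂ) →L[ℂ] ι → ℂ) v := by
    refine ((LinearMap.toContinuousLinearMap G).hasStrictFDerivAt.add
      (hasStrictFDerivAt_pi.2 fun i => hasStrictFDerivAt_eval (F i) v)).congr_fderiv ?_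
    ext ξ i
    simp [b, e]
  refine ⟨_, d.eventually_left_inverse, fun u p u' q (k : P *ᵥ u = P *ᵥ u') => ?_⟩
  refine Eq.trans p.1.symm (Eq.trans (congrArg _ ?_) q.1)
  have z (u) (p : u ∈ Zs I) : (fun i => eval u (F i)) = 0 := funext fun i => mem_Zs.1 p _ (a i)
  rw [z u p.2, z u' q.2]
  simp [G, k]

theorem exists_unr (h : Module.finrank ℂ (tan I v) ≤ N) :
    ∃ P : Matrix (Fin N) ι ℂ, Unr P I v := by
  classical
  obtain ⟨f, a⟩ := (finrank_le_iff_exists_linearMap (R := ℂ) (M := tan I v)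
    (M' := Fin N → ℂ)).1 (by simpa using h)
  obtain ⟨g, b⟩ := f.exists_extend
  refine ⟨LinearMap.toMatrix' g, fun ξ k l => ?_⟩
  rw [LinearMap.toMatrix'_mulVec] at l
  exact congrArg Subtype.val (a ((LinearMap.congr_fun b ⟨ξ, k⟩).symm.trans
    (l.trans f.map_zero.symm)))

end Pool.Agent.Lib.MP_d3d358_ag.Mv
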