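import Pool.Agent.Lib.MP_d3d358_ag.Mv.Rk
import Pool.Agent.Lib.MP_d3d358_ag.Mv.Tan

/-! Subspaces defined over a subfield. -/

set_option autoImplicit false

namespace Pool.Agent.Lib.MP_d3d358_ag.Mv

open MvPolynomial Set Matrix Topology Filter

variable {ι κ : Type} {K K' : Set ℂ} {E E' : Submodule ℂ (ι → ℂ)} {ξ : ι → ℂ} {e : ℕ}

theorem Df.mono (h : Df K E) (hK : K ⊆ cl K') : Df K' E :=
  le_trans h (Submodule.span_mono fun _ a => ⟨a.1, a.2.trans (cl_sub hK)⟩)

theorem Df.sup (h : Df K E) (h' : Df K E') : Df K (E ⊔ E') :=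
  sup_le (le_trans h (Submodule.span_mono fun _ a => ⟨Submodule.mem_sup_left a.1, a.2⟩))
    (le_trans h' (Submodule.span_mono fun _ a => ⟨Submodule.mem_sup_right a.1, a.2⟩))

theorem range_em (s : Bool) (ξ : ι → ℂ) : range (em s ξ) ⊆ cl (range ξ) := by
  rintro _ ⟨i, rfl⟩
  cases s <;> rcases i with i | i
  exacts [subset_cl _ ⟨i, rfl⟩, zero_mem_cl _, zero_mem_cl _, subset_cl _ ⟨i, rfl⟩]

theorem Df.em (h : Df K E) (s : Bool) : Df K (E.map (em s)) := by
  refine (Submodule.map_mono h).trans ?_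
  rw [Submodule.map_span]
  refine Submodule.span_mono ?_
  rintro _ ⟨ξ, a, rfl⟩
  exact ⟨Submodule.mem_map_of_mem a.1, (range_em s ξ).trans (cl_sub a.2)⟩

theorem ls_sum {μ : Type} (s : Finset μ) {A : Set ℂ} {c : μ → ℂ} {b : μ → ι → ℂ}
    (hc : ∀ m ∈ s, c m ∈ cl A) (hb : ∀ m, range (b m) ⊆ cl A) :
    range (∑ m ∈ s, c m • b m) ⊆ cl A := by
  obtain ⟨F, hF⟩ := exists_clF A
  rintro _ ⟨i, rfl⟩
  rw [← hF] at hc hb ⊢
  rw [Finset.sum_apply]
  exact F.sum_mem fun m hm => F.mul_mem (hc m hm) (hb m ⟨i, rfl⟩)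

variable [Fintype ι] [Fintype κ]

/-- expand a solution in a basis of `ℂ` over the subfield `cl K` (`exists_clF`) -/
theorem df_ker {μ : Type} (φ : μ → ι → ℂ) (h : ∀ m, range (φ m) ⊆ cl K) :
    Df K (⨅ m, LinearMap.ker (dotProductBilin ℂ ℂ (φ m))) := by
  classical
  intro ξ hξ
  obtain ⟨F, hF⟩ := exists_clF K
  rw [← hF] at h ⊢
  let b := Module.Basis.ofVectorSpace F ℂ
  have e : ξ = ∑ j ∈ Finset.univ.biUnion fun i => (b.repr (ξ i)).support,
      b j • fun i => ((b.repr (ξ i) j : F) : ℂ) := by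
    funext i
    rw [Finset.sum_apply]
    refine (b.linearCombination_repr (ξ i)).symm.trans ?_
    rw [Finsupp.linearCombination_apply, Finsupp.sum_of_support_subset _
      (Finset.subset_biUnion_of_mem (fun i => (b.repr (ξ i)).support) (Finset.mem_univ i))
      (fun j (a : F) => a • b j) fun _ _ => zero_smul _ _]
    exact Finset.sum_congr rfl fun j _ => mul_comm _ _
  rw [e]
  refine Submodule.sum_mem _ fun j _ => Submodule.smul_mem _ _ (Submodule.subset_span ⟨?_, ?_⟩)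
  · refine (Submodule.mem_iInf _).2 fun m => ?_
    have h0 : ∑ i, (⟨φ m i, h m ⟨i, rfl⟩⟩ : F) • ξ i = 0 := (Submodule.mem_iInf _).1 hξ m
    have h1 := congrArg (fun x => ((b.repr x j : F) : ℂ)) h0
    simp only [map_sum, map_smul, map_zero, Finsupp.finsetSum_apply, Finsupp.smul_apply,
      smul_eq_mul, AddSubmonoidClass.coe_finsetSum, Subfield.coe_mul, Finsupp.zero_apply,
      ZeroMemClass.coe_zero] at h1
    exact h1
  · rintro _ ⟨i, rfl⟩
    exact (b.repr (ξ i) j).2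

theorem Df.basis (h : Df K E) : ∃ b : Fin (Module.finrank ℂ E) → ι → ℂ, LinearIndependent ℂ b ∧
    Submodule.span ℂ (range b) = E ∧ ∀ m, range (b m) ⊆ cl K := by
  have e : Submodule.span ℂ {ξ | ξ ∈ E ∧ range ξ ⊆ cl K} = E :=
    le_antisymm (Submodule.span_le.2 fun _ a => a.1) h
  have := Submodule.exists_fun_fin_finrank_span_eq ℂ {ξ | ξ ∈ E ∧ range ξ ⊆ cl K}
  rw [e] at this
  obtain ⟨b, h1, h2, h3⟩ := this
  exact ⟨b, h3, h2, fun m => (h1 m).2⟩

theorem Df.rk (h : Df K E) (hξ : ξ ∈ E) : Rk K (range ξ) (Module.finrank ℂ E) := by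
  classical
  obtain ⟨b, -, h2, h3⟩ := h.basis
  obtain ⟨c, rfl⟩ := (Submodule.mem_span_range_iff_exists_fun ℂ).1 (h2.ge hξ)
  refine ⟨Finset.univ.image c, Finset.card_image_le.trans (by simp), ls_sum _
    (fun m hm => subset_cl _ (.inr (Finset.mem_coe.2 (Finset.mem_image_of_mem c hm))))
    fun m => (h3 m).trans (cl_mono subset_union_left)⟩

theorem Df.norm (h : Df K E) (he : Module.finrank ℂ E ≤ e + 1) (hξ : ξ ∈ E) (h0 : ξ ≠ 0) :
    ∃ c : ℂ, c ≠ 0 ∧ Rk K (range (c • ξ)) e := by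
  classical
  obtain ⟨b, -, h2, h3⟩ := h.basis
  obtain ⟨c, rfl⟩ := (Submodule.mem_span_range_iff_exists_fun ℂ).1 (h2.ge hξ)
  obtain ⟨m₀, hm⟩ : ∃ m, c m ≠ 0 := by
    by_contra k
    exact h0 (Finset.sum_eq_zero fun m _ => by rw [not_not.1 (not_exists.1 k m), zero_smul])
  refine ⟨(c m₀)⁻¹, inv_ne_zero hm, (Finset.univ.erase m₀).image fun m => (c m₀)⁻¹ * c m,
    Finset.card_image_le.trans ?_, ?_⟩
  · rw [Finset.card_erase_of_mem (Finset.mem_univ _), Finset.card_univ, Fintype.card_fin]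
    omega
  · simp only [Finset.smul_sum, smul_smul]
    refine ls_sum _ (fun m _ => ?_) fun m => (h3 m).trans (cl_mono subset_union_left)
    by_cases k : m = m₀
    · obtain ⟨F, hF⟩ := exists_clF (K ∪ ↑((Finset.univ.erase m₀).image fun m => (c m₀)⁻¹ * c m))
      rw [k, inv_mul_cancel₀ hm, ← hF]
      exact F.one_mem
    · exact subset_cl _ (.inr (Finset.mem_coe.2 (Finset.mem_image_of_mem _
        (Finset.mem_erase.2 ⟨k, Finset.mem_univ _⟩))))

theorem ls {μ : Type} [Fintype μ] {φ : μ → κ → ℂ} {l : κ → ℂ} (hi : LinearIndependent ℂ φ)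
    (h : ∀ m, range (φ m) ⊆ cl K) (hl : ∀ m, φ m ⬝ᵥ l = 0) :
    Fintype.card μ ≤ Fintype.card κ ∧ Rk K (range l) (Fintype.card κ - Fintype.card μ) := by
  have e : (⨅ m, LinearMap.ker (dotProductBilin ℂ ℂ (φ m))) =
      LinearMap.ker (Matrix.of φ).mulVecLin := by
    ext x
    rw [Submodule.mem_iInf, LinearMap.mem_ker, funext_iff]
    rfl
  have h1 : Module.finrank ℂ (LinearMap.range (Matrix.of φ).mulVecLin) = Fintype.card μ :=
    LinearIndependent.rank_matrix (M := Matrix.of φ) hi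
  have h2 := (Matrix.of φ).mulVecLin.finrank_range_add_finrank_ker
  have h3 := (df_ker φ h).rk (ξ := l) ((Submodule.mem_iInf _).2 hl)
  rw [h1, Module.finrank_fintype_fun_eq_card, ← e] at h2
  exact ⟨by omega, h3.sub subset_rfl subset_rfl (by omega)⟩

/-- `k` = the coefficients of finitely many generators of `I` -/
theorem exists_df_tan (I : Ideal (Pl ι)) :
    ∃ k : Set ℂ, k.Finite ∧ ∀ v ∈ Zs I, Df (k ∪ range v) (tan I v) := by
  obtain ⟨s, rfl⟩ := IsNoetherian.noetherian I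
  refine ⟨⋃ G : s, ⋃ i, range fun m => coeff m (pderiv i G.1),
    finite_iUnion fun G => finite_iUnion fun i => finite_coeff _, fun v hv => ?_⟩
  have e : tan (Submodule.span (Pl ι) (s : Set (Pl ι))) v =
      ⨅ G : s, LinearMap.ker (dotProductBilin ℂ ℂ (grad v G.1)) := by
    ext ξ
    rw [mem_tan, Submodule.mem_iInf]
    refine ⟨fun k G => k G.1 (Submodule.subset_span G.2), fun k F hF => ?_⟩
    induction hF using Submodule.span_induction with
    | mem G hG => exact k ⟨G, hG⟩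
    | zero => rw [← C_0, grad_C, zero_dotProduct]
    | add F G _ _ a b => rw [grad_add, add_dotProduct, a, b, add_zero]
    | smul a G hG b =>
      rw [smul_eq_mul, grad_mul, mem_Zs.1 hv G hG, zero_smul, add_zero, smul_dotProduct, b,
        smul_zero]
  rw [e]
  refine df_ker _ fun G => ?_
  rintro _ ⟨i, rfl⟩
  exact eval_mem_cl (fun m => subset_cl _ (.inl (mem_iUnion.2 ⟨G, mem_iUnion.2 ⟨i, m, rfl⟩⟩)))
    (subset_union_right.trans (subset_cl _))

end Pool.Agent.Lib.MP_d3d358_ag.Mv
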