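import Pool.Agent.Lib.MP_d3d358_ag.Mv.Defs
import Pool.Agent.Lib.MP_d3d358_ag.Cw.Pnt

/-! Projective embeddings by charts and the cones over points. -/

set_option autoImplicit false

namespace Pool.Agent.Lib.MP_d3d358_ag.Mv

open CategoryTheory AlgebraicGeometry Set Cw

noncomputable section

variable {W : Sch} {ι : Type}

/-- the residue field -/
abbrev Kp (w : W.left) : Type := W.left.residueField w

instance algK (w : W.left) : Algebra ℂ (Kp w) :=
  ((W.left.evaluation ⊤ w trivial).hom.comp (algebraMap ℂ Γ(W.left, ⊤))).toAlgebra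

/-- the value of a section at a point -/
def evA (U : W.left.Opens) (w : W.left) (hw : w ∈ U) : Γ(W.left, U) →ₐ[ℂ] Kp w :=
  { (W.left.evaluation U w hw).hom with
    commutes' := fun c => by
      have e : algebraMap ℂ Γ(W.left, U) c =
          W.left.presheaf.map (homOfLE le_top).op (algebraMap ℂ Γ(W.left, ⊤) c) :=
        (ConcreteCategory.congr_hom (W.hom.appLE_map (U := ⊤) (V := ⊤) le_top
          (homOfLE (le_top (a := U))).op) _).symm
      change W.left.residue w (W.left.presheaf.germ U w hw _) =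
        W.left.residue w (W.left.presheaf.germ ⊤ w trivial _)
      rw [e, TopCat.Presheaf.germ_res_apply] }

/-- homogeneous coordinates `s i j = xᵢ / xⱼ` on affine charts `U j = {xⱼ ≠ 0}` -/
structure Prj (W : Sch) (ι : Type) where
  U : ι → W.left.Opens
  s : ι → ∀ j, Γ(W.left, U j)
  aff : ∀ j, IsAffineOpen (U j)
  cov : ∀ w, ∃ j, w ∈ U j
  one : ∀ j, s j j = 1
  gen : ∀ j, Algebra.adjoin ℂ (range fun i => s i j) = ⊤
  mem : ∀ j k w (hj : w ∈ U j), w ∈ U k ↔ evA (U j) w hj (s k j) ≠ 0
  coc : ∀ i j k w (hj : w ∈ U j) (hk : w ∈ U k),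
    evA (U j) w hj (s i j) = evA (U k) w hk (s i k) * evA (U j) w hj (s k j)

/-- the coordinates of a point in a chart -/
def Prj.crd (D : Prj W ι) {w : W.left} {j : ι} (hj : w ∈ D.U j) : ι → Kp w :=
  fun i => evA (D.U j) w hj (D.s i j)

/-- the ideal of the cone over the closure of a point -/
def Prj.cI (D : Prj W ι) (w : W.left) : Ideal (Pl ι) := ⨅ (j : ι) (hj : w ∈ D.U j), hk (D.crd hj)

/-- the local ring at `z` of the closure of `w`, inside the residue field of `w` -/
def loc {Y : Scheme.{0}} {w z : Y} (h : w ⤳ z) : Subring (Y.residueField w) :=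
  (Y.presheaf.stalkSpecializes h ≫ Y.residue w).hom.range

/-- `a` is rationally equivalent to a cycle all of whose components satisfy `G` -/
def Mvb {Y : Scheme.{0}} (G : Y → Prop) (a : Cyc Y) : Prop :=
  ∃ a', Rat a a' ∧ ∀ x, a' x ≠ 0 → G x

/-- the same for the multiples of the point `x` -/
def Mv1 {Y : Scheme.{0}} (G : Y → Prop) (x : Y) : Prop :=
  ∀ a : Cyc Y, (∀ z, a z ≠ 0 → z = x) → Mvb G a

/-- `x` is generically transverse to `y` -/
def GT {Y : Scheme.{0}} (x y : Y) : Prop := ∀ z, ∀ h : Meet x y z, Transv h.1 h.2.1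

variable (W) in
/-- `W` is projective -/
def HasPrj : Prop := ∃ (ι : Type) (_ : Fintype ι), Nonempty (Prj W ι)

/-- any two cycles can be moved into a generically transverse position -/
def Mov (Y : Scheme.{0}) : Prop := ∀ a b : Cyc Y, ∃ a' c, Rat a a' ∧ Cap a' b c

end

end Pool.Agent.Lib.MP_d3d358_ag.Mv
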