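import Pool.Agent.Lib.MP_d3d358_ag.Mv.Defs

/-! Transcendence rank. -/

set_option autoImplicit false

namespace Pool.Agent.Lib.MP_d3d358_ag.Mv

open MvPolynomial Set Matrix Topology Filter

variable {ι κ : Type} {A B k k' T T' : Set ℂ} {d d' e r : ℕ} {x : ℂ} {v : ι → ℂ}

theorem subset_cl (A : Set ℂ) : A ⊆ cl A := Matroid.subset_closure _ A (subset_univ _)

theorem cl_sub (h : A ⊆ cl B) : cl A ⊆ cl B := Matroid.closure_subset_closure_of_subset_closure h

theorem cl_mono (h : A ⊆ B) : cl A ⊆ cl B := Matroid.closure_subset_closure _ h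

theorem rk_mem_cl : x ∈ cl A ↔ IsAlgebraic (Algebra.adjoin ℚ A) x := by
  rw [cl, AlgebraicIndependent.matroid_closure_eq, SetLike.mem_coe,
    Subalgebra.mem_algebraicClosure]

theorem exists_clF (A : Set ℂ) : ∃ K : Subfield ℂ, (K : Set ℂ) = cl A :=
  ⟨{ (Subalgebra.algebraicClosure (Algebra.adjoin ℚ A) ℂ).toSubring with
      inv_mem' := fun _ hx => IsAlgebraic.inv hx },
    (AlgebraicIndependent.matroid_closure_eq (R := ℚ)).symm⟩

theorem zero_mem_cl (A : Set ℂ) : (0 : ℂ) ∈ cl A := rk_mem_cl.2 isAlgebraic_zero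

theorem mem_cl_of_root {Q : Polynomial ℂ} (hQ : Q ≠ 0) (h : ∀ i, Q.coeff i ∈ cl A)
    (hx : Q.IsRoot x) : x ∈ cl A := by
  refine cl_sub subset_rfl (rk_mem_cl (A := cl A) |>.2 ?_)
  obtain ⟨q, rfl⟩ := (Polynomial.mem_lifts (f := algebraMap (Algebra.adjoin ℚ (cl A)) ℂ) Q).1
    ((Polynomial.lifts_iff_coeff_lifts Q).2 fun i => ⟨⟨_, Algebra.subset_adjoin (h i)⟩, rfl⟩)
  exact ⟨q, fun e => hQ (by rw [e, Polynomial.map_zero]),
    (Polynomial.eval_map_algebraMap q x).symm.trans hx⟩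

theorem eval_mem_cl {F : Pl ι} (h : ∀ m, coeff m F ∈ cl A) (hv : range v ⊆ cl A) :
    eval v F ∈ cl A := by
  obtain ⟨K, hK⟩ := exists_clF A
  rw [← hK] at h hv ⊢
  rw [eval_eq]
  exact K.sum_mem fun m _ => K.mul_mem (h m)
    (K.prod_mem fun i _ => K.pow_mem (hv (mem_range_self i)) _)

theorem finite_coeff (F : Pl ι) : (range fun m => coeff m F).Finite :=
  ((F.support.finite_toSet.image fun m => coeff m F).insert 0).subset (by
    rintro _ ⟨m, rfl⟩
    by_cases c : coeff m F = 0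
    · exact Or.inl c
    · exact Or.inr ⟨m, mem_support_iff.2 c, rfl⟩)

theorem Rk.mono (h : Rk k T d) (hk : k ⊆ cl k') (hT : T' ⊆ cl (k' ∪ T)) (hd : d ≤ d') :
    Rk k' T' d' := by
  obtain ⟨β, c, s⟩ := h
  exact ⟨β, c.trans hd, hT.trans (cl_sub (union_subset (subset_union_left.trans (subset_cl _))
    (s.trans (cl_sub (union_subset (hk.trans (cl_mono subset_union_left))
      (subset_union_right.trans (subset_cl _)))))))⟩

theorem Rk.sub (h : Rk k T d) (hk : k ⊆ k') (hT : T' ⊆ T) (hd : d ≤ d') : Rk k' T' d' :=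
  h.mono (hk.trans (subset_cl _)) ((hT.trans subset_union_right).trans (subset_cl _)) hd

theorem Rk.trans (h : Rk k T d) (h' : Rk (k ∪ T) T' d') : Rk k (T ∪ T') (d + d') := by
  classical
  obtain ⟨β, c, s⟩ := h
  obtain ⟨β', c', s'⟩ := h'
  have a : T ⊆ cl (k ∪ ↑(β ∪ β')) :=
    s.trans (cl_mono (union_subset_union_right _ (by simp)))
  exact ⟨β ∪ β', (Finset.card_union_le _ _).trans (add_le_add c c'), union_subset a
    (s'.trans (cl_sub (union_subset (union_subset (subset_union_left.trans (subset_cl _)) a)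
      ((subset_union_of_subset_right (by simp) _).trans (subset_cl _)))))⟩

theorem Rk.union (h : Rk k T d) (h' : Rk k T' d') : Rk k (T ∪ T') (d + d') :=
  h.trans (h'.sub subset_union_left subset_rfl le_rfl)

theorem rk_of_sub (h : T ⊆ cl k) (d : ℕ) : Rk k T d :=
  ⟨∅, d.zero_le, h.trans (cl_mono subset_union_left)⟩

theorem rk_zero_vec (k : Set ℂ) (d : ℕ) : Rk k (range (0 : ι → ℂ)) d :=
  rk_of_sub (range_subset_iff.2 fun _ => zero_mem_cl k) d

theorem Sm.mono {E E' : Set (ι → ℂ)} (h : Sm E r) (hE : E' ⊆ E) (hr : r ≤ d) : Sm E' d :=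
  h.imp fun _ a => ⟨a.1, fun v hv => (a.2 v (hE hv)).sub subset_rfl subset_rfl hr⟩

theorem Sm.union {E E' : Set (ι → ℂ)} (h : Sm E r) (h' : Sm E' r) : Sm (E ∪ E') r := by
  obtain ⟨k, a, b⟩ := h
  obtain ⟨k', a', b'⟩ := h'
  exact ⟨k ∪ k', a.union a', fun v hv => hv.elim
    (fun c => (b v c).sub subset_union_left subset_rfl le_rfl)
    fun c => (b' v c).sub subset_union_right subset_rfl le_rfl⟩

/-- the rank function -/
noncomputable def rkρ (A : Set ℂ) : ℕ∞ := (AlgebraicIndependent.matroid ℚ ℂ).eRk A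

theorem rkρ_le (h : A ⊆ cl B) : rkρ A ≤ rkρ B :=
  (Matroid.eRk_mono _ h).trans_eq (Matroid.eRk_closure_eq _ _)

theorem rkρ_fin (h : A.Finite) : ∃ n : ℕ, rkρ A = n :=
  (ENat.ne_top_iff_exists.1 ((Matroid.eRk_le_encard _ _).trans_lt h.encard_lt_top).ne).imp
    fun _ => Eq.symm

theorem rkρ_insert (h : x ∉ cl A) : rkρ (insert x A) = rkρ A + 1 :=
  Matroid.eRk_insert_eq_add_one ⟨mem_univ _, h⟩

theorem Rk.rkρ (h : Rk k T d) : rkρ (k ∪ T) ≤ rkρ k + d := by
  obtain ⟨β, c, s⟩ := h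
  refine (rkρ_le (union_subset (subset_union_left.trans (subset_cl _)) s)).trans
    ((Matroid.eRk_union_le_eRk_add_encard _ _ _).trans (add_le_add le_rfl ?_))
  rw [encard_coe_eq_coe_finsetCard]
  exact_mod_cast c

theorem rk_of_rkρ (hk : k.Finite) (h : rkρ (k ∪ T) ≤ rkρ k + d) : Rk k T d := by
  obtain ⟨I, hI⟩ := (AlgebraicIndependent.matroid ℚ ℂ).exists_isBasis k (subset_univ _)
  obtain ⟨J, hJ, s⟩ := hI.indep.subset_isBasis_of_subset (hI.subset.trans
    (subset_union_left (t := T))) (subset_univ _)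
  have fI := hk.subset hI.subset
  rw [rkρ, rkρ, hI.eRk_eq_encard, hJ.eRk_eq_encard, ← encard_sdiff_add_encard_of_subset s,
    add_comm, ENat.add_le_add_iff_left fI.encard_lt_top.ne] at h
  have f : (J \ I).Finite := finite_of_encard_le_coe h
  refine ⟨f.toFinset, ?_, (subset_union_right.trans hJ.subset_closure).trans (cl_mono ?_)⟩
  · rw [f.encard_eq_coe_toFinset_card] at h
    exact_mod_cast h
  · rw [f.coe_toFinset]
    intro y hy
    by_cases c : y ∈ I
    exacts [Or.inl (hI.subset c), Or.inr ⟨hy, c⟩]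

theorem rk_exists_notMem (hk : k.Finite) : ∃ x, x ∉ cl k := by
  have : Countable (Algebra.adjoin ℚ k) := Cardinal.mk_le_aleph0_iff.1
    ((Algebra.cardinalMk_adjoin_le ℚ k).trans (sup_le (sup_le Cardinal.mk_le_aleph0
      hk.countable.le_aleph0) le_rfl))
  by_contra! c
  exact not_countable_complex ((Algebraic.countable (Algebra.adjoin ℚ k) ℂ).mono
    fun y _ => rk_mem_cl.1 (c y))

variable [Fintype κ] {l : κ → ℂ}

theorem rk_range (k : Set ℂ) (l : κ → ℂ) : Rk k (range l) (Fintype.card κ) := by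
  classical
  exact ⟨Finset.univ.image l, Finset.card_image_le, (subset_union_of_subset_right (by simp) _).trans
    (subset_cl _)⟩

/-- a nontrivial relation lowers the rank -/
theorem rk_rel {F : Pl κ} (h0 : F ≠ 0) (h : ∀ m, coeff m F ∈ cl k) (hl : eval l F = 0) :
    ∃ e, e + 1 = Fintype.card κ ∧ Rk k (range l) e := by
  classical
  obtain ⟨K, hK⟩ := exists_clF k
  have : ∃ j, l j ∈ cl (k ∪ l '' {j}ᶜ) := by
    by_contra! c
    have ai : AlgebraicIndependent K l := algebraicIndependent_of_finite_type'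
      (algebraMap K ℂ).injective fun t _ _ i hi ⟨p, p0, p1⟩ => c i (by
        obtain ⟨K', hK'⟩ := exists_clF (k ∪ l '' {i}ᶜ)
        have s : Algebra.adjoin K (l '' t) ≤
            { K'.toSubring with
              algebraMap_mem' := fun r => hK'.ge (cl_mono subset_union_left (hK.le r.2)) } :=
          Algebra.adjoin_le fun _ ⟨j, hj, e⟩ => hK'.ge (subset_cl _
            (Or.inr ⟨j, fun z => hi ((z : j = i) ▸ hj), e⟩))
        refine mem_cl_of_root (Q := p.map (algebraMap _ ℂ))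
          ((Polynomial.map_ne_zero_iff Subtype.val_injective).2 p0) (fun n => ?_)
          ((Polynomial.eval_map_algebraMap p _).trans p1)
        rw [Polynomial.coeff_map]
        exact hK'.le (s (p.coeff n).2))
    obtain ⟨G, rfl⟩ := (mem_range_map_iff_coeffs_subset (f := algebraMap K ℂ) (x := F)).2
      fun y hy => by
        obtain ⟨m, -, rfl⟩ := mem_coeffs_iff.1 hy
        exact ⟨⟨_, hK.ge (h m)⟩, rfl⟩
    rw [eval_map, ← aeval_def] at hl
    exact h0 (by rw [(algebraicIndependent_iff.1 ai) G hl, map_zero])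
  obtain ⟨j, hj⟩ := this
  refine ⟨(Finset.univ.erase j).card, Finset.card_erase_add_one (Finset.mem_univ j),
    (Finset.univ.erase j).image l, Finset.card_image_le, range_subset_iff.2 fun i => ?_⟩
  have e : (((Finset.univ.erase j).image l : Finset ℂ) : Set ℂ) = l '' {j}ᶜ := by
    rw [Finset.coe_image, Finset.coe_erase, Finset.coe_univ, compl_eq_univ_sdiff]
  rw [e]
  by_cases c : i = j
  · exact c ▸ hj
  · exact subset_cl _ (Or.inr ⟨i, c, rfl⟩)

theorem exists_gn (κ : Type) [Fintype κ] (hk : k.Finite) : ∃ l : κ → ℂ, Gn k l := by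
  classical
  have : ∀ n : ℕ, ∃ β : Finset ℂ, β.card = n ∧ rkρ (k ∪ β) = rkρ k + n := fun n => by
    induction n with
    | zero => exact ⟨∅, rfl, by simp⟩
    | succ n ih =>
      obtain ⟨β, c, e⟩ := ih
      obtain ⟨x, hx⟩ := rk_exists_notMem (hk.union β.finite_toSet)
      refine ⟨insert x β, by rw [Finset.card_insert_of_notMem
        fun a => hx (subset_cl _ (Or.inr a)), c], ?_⟩
      rw [Finset.coe_insert, union_insert, rkρ_insert hx, e, Nat.cast_succ, add_assoc]
  obtain ⟨β, c, e⟩ := this (Fintype.card κ)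
  let q : κ ≃ β := Fintype.equivOfCardEq (by rw [Fintype.card_coe, c])
  refine ⟨fun i => q i, fun d h => ?_⟩
  have r : (range fun i => (q i : ℂ)) = β :=
    (q.surjective.range_comp Subtype.val).trans Subtype.range_coe
  obtain ⟨n, hn⟩ := rkρ_fin hk
  have := h.rkρ
  rw [r, e, hn] at this
  exact_mod_cast (ENat.add_le_add_iff_left (ENat.natCast_ne_top n)).1 this

theorem Gn.mono (h : Gn k l) (hk : k' ⊆ cl k) : Gn k' l :=
  fun d a => h d (a.mono hk (subset_union_right.trans (subset_cl _)) le_rfl)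

/-- with `ρ` the rank function of the matroid: `ρ (k ∪ l) = ρ k + card κ` and
`ρ (k ∪ T ∪ l) ≤ ρ k + d + e` -/
theorem Gn.ml (hk : k.Finite) (h : Gn k l) (hT : Rk k T d) (he : Rk (k ∪ T) (range l) e) :
    Fintype.card κ ≤ d + e ∧ Rk (k ∪ range l) T (d + e - Fintype.card κ) := by
  have a := hT.trans he
  have b := h _ (a.sub subset_rfl subset_union_right le_rfl)
  obtain ⟨n, hn⟩ := rkρ_fin hk
  obtain ⟨m, hm⟩ := rkρ_fin (hk.union (finite_range l))
  have c := h (m - n) (rk_of_rkρ hk (by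
    rw [hn, hm]
    exact_mod_cast le_add_tsub))
  have c' : n ≤ m := by
    have := rkρ_le ((subset_union_left (s := k) (t := range l)).trans (subset_cl _))
    rw [hn, hm] at this
    exact_mod_cast this
  refine ⟨b, rk_of_rkρ (hk.union (finite_range l)) ?_⟩
  rw [union_assoc, union_comm (range l), hm]
  refine a.rkρ.trans ?_
  rw [hn]
  exact_mod_cast (by omega : n + (d + e) ≤ m + (d + e - Fintype.card κ))

/-- take `c` transcendental over `k ∪ range v` -/
theorem rk_norm [Finite ι] (hk : k.Finite) (h : ∀ c : ℂ, Rk k (range (c • v)) (d + 1)) {j : ι}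
    (hj : v j = 1) : Rk k (range v) d := by
  obtain ⟨c, hc⟩ := rk_exists_notMem (hk.union (finite_range v))
  have c0 : c ≠ 0 := fun e => hc (e ▸ zero_mem_cl _)
  obtain ⟨K, hK⟩ := exists_clF (k ∪ range (c • v))
  have a : ∀ i, c * v i ∈ K := fun i => hK.ge (subset_cl _ (Or.inr ⟨i, rfl⟩))
  have b : c ∈ K := by simpa [hj] using a j
  have s : insert c (k ∪ range v) ⊆ cl (k ∪ range (c • v)) :=
    insert_subset (hK.le b) (union_subset (subset_union_left.trans (subset_cl _))
      (range_subset_iff.2 fun i => hK.le (by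
        simpa [mul_div_cancel_left₀ _ c0] using K.div_mem (a i) b)))
  have t := (rkρ_le s).trans (h c).rkρ
  rw [rkρ_insert hc, Nat.cast_succ, ← add_assoc] at t
  exact rk_of_rkρ hk ((ENat.add_le_add_iff_right ENat.one_ne_top).1 t)

end Pool.Agent.Lib.MP_d3d358_ag.Mv
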