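import Pool.Agent.Lib.MP_d3d358_ag.Mv.G2
import Pool.Agent.Lib.MP_d3d358_ag.Mv.KI

/-! One step of the moving lemma on cones. -/

set_option autoImplicit false

namespace Pool.Agent.Lib.MP_d3d358_ag.Mv

open MvPolynomial Set Matrix Topology Filter

/-- one finite `k` for all data, `exists_gn`; on `I`: `g2`, `g3`, `resid`; off `I`: `g1`, `nice`,
`Nice.good` -/
theorem step {ι β : Type} [Fintype ι] [Finite β] {n a : ℕ} {I₀ I : Ideal (Pl ι)}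
    (h0 : Cn I₀ (n + 1)) (hj : Jet I₀) (hr : Reg I₀ (n + 1)) (hI : Cn I (a + 1)) (hl : I₀ ≤ I)
    (ha : a < n) {J : β → Ideal (Pl ι)} {b r : β → ℕ} (hJ : ∀ y, Cn (J y) (b y + 1))
    (hl' : ∀ y, I₀ ≤ J y) (hs : ∀ y, Sm (Zs I ∩ Zs (J y)) (r y + 1))
    (hab : ∀ y, a + b y - n ≤ r y) :
    ∃ P Q : Matrix (Fin (n + 1)) ι ℂ, Bpf P I₀ ∧ Bpf Q I₀ ∧ (∃ v ∈ Zs I, v ∉ Inc P Q I) ∧
      (∃ u ∈ Zs I, u ∉ Inc Q P I) ∧ ∀ Z, Cn Z (a + 1) → I₀ ≤ Z → Z ≠ I →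
        (Zs Z ⊆ Inc P P I ∨ Zs Z ⊆ Inc P Q I) → ∀ y,
          Sm ((Zs Z ∩ Zs (J y)) \ {v | Good I₀ Z (J y) (a + 1) (b y + 1) v}) (r y) ∧
          (a + b y - n < r y → Sm (Zs Z ∩ Zs (J y)) (r y)) := by
  obtain ⟨k₀, f₀, s₀⟩ := h0.toPr.st
  obtain ⟨k₁, f₁, s₁⟩ := hI.toPr.st
  choose k₂ f₂ s₂ using fun y => (hJ y).toPr.st
  choose k₃ f₃ s₃ using hs
  obtain ⟨k, fk, m₀, m₁, m₂, m₃⟩ : ∃ k : Set ℂ, k.Finite ∧ k₀ ⊆ k ∧ k₁ ⊆ k ∧ (∀ y, k₂ y ⊆ k) ∧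
      ∀ y, k₃ y ⊆ k :=
    ⟨(k₀ ∪ k₁) ∪ ((⋃ y, k₂ y) ∪ ⋃ y, k₃ y),
      (f₀.union f₁).union ((finite_iUnion f₂).union (finite_iUnion f₃)),
      subset_union_left.trans subset_union_left, subset_union_right.trans subset_union_left,
      fun y => ((subset_iUnion k₂ y).trans subset_union_left).trans subset_union_right,
      fun y => ((subset_iUnion k₃ y).trans subset_union_right).trans subset_union_right⟩
  obtain ⟨l, gl⟩ := exists_gn (Fin (n + 1) × (ι ⊕ ι)) fk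
  have A : Amb k I₀ n (Matrix.of fun i j => l (i, j)) := ⟨fk, gl, h0, hj, hr, s₀.mono m₀⟩
  generalize (Matrix.of fun i j => l (i, j)) = Λ at A
  have SI : Sub k I₀ I a := ⟨hl, hI, s₁.mono m₁⟩
  have SJ : ∀ y, Sub k I₀ (J y) (b y) := fun y => ⟨hl' y, hJ y, (s₂ y).mono (m₂ y)⟩
  refine ⟨hf Λ false, hf Λ true, A.bpf false, A.bpf true, (A.not_inc SI ha).1,
    (A.not_inc SI ha).2, fun Z hZ hz hne hi y => ?_⟩
  obtain ⟨s, hi⟩ : ∃ s, Zs Z ⊆ Inc (hf Λ false) (hf Λ s) I :=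
    hi.elim (fun h => ⟨false, h⟩) fun h => ⟨true, h⟩
  have key : ∀ v ∈ Zs Z ∩ Zs (J y), Rk (k ∪ range (ent Λ)) (range v) (r y) ∨
      (Good I₀ Z (J y) (a + 1) (b y + 1) v ∧ ¬a + b y - n < r y) := by
    rintro v ⟨hv, hv'⟩
    by_contra c
    obtain ⟨c, c'⟩ := not_or.1 c
    have v0 : v ≠ 0 := by
      rintro rfl
      exact c (rk_zero_vec _ _)
    by_cases h : s = true ∨ v ∉ Zs I
    · obtain ⟨u, hu, e⟩ := hi hv
      refine c' ⟨(A.nice SI (SJ y) ha hv' hu e h fun m => c (m.sub subset_rfl subset_rfl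
        (hab y))).good hI.hg ((A.bpf s).mono hl) hZ.prime hz (hl' y) hi hv hu e, fun m => c ?_⟩
      refine (A.g1 SI (SJ y) hv' hu e fun e' => ?_).sub subset_rfl subset_union_left (by omega)
      cases s
      · exact h.elim (by simp) fun h => h (em_inj false e' ▸ hu)
      · exact v0 (em_disj e').1
    · obtain ⟨h, h'⟩ := not_or.1 h
      obtain rfl : s = false := by simpa using h
      have R := (s₃ y v ⟨not_not.1 h', hv'⟩).sub (m₃ y) subset_rfl le_rfl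
      exact resid hI.hg ((A.bpf false).mono hl) hl hz hZ.prime
        (fun m => hne ((hI.toPr.le_of_le hZ.toPr m).2 le_rfl).symm) hi hv
        (not_not.1 fun m => c (A.g3 (Zs_anti hz hv) v0 R m))
        fun u hu e => not_not.1 fun m => c (A.g2 SI ha R hu e m)
  have fK := fk.union (finite_range (ent Λ))
  exact ⟨⟨_, fK, fun v hv => (key v hv.1).resolve_right fun m => hv.2 m.1⟩,
    fun m => ⟨_, fK, fun v hv => (key v hv).resolve_right fun m' => m'.2 m⟩⟩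

end Pool.Agent.Lib.MP_d3d358_ag.Mv
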