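import Pool.Agent.Lib.MP_d3d358_ag.Mv.PDef
import Pool.Agent.Lib.MP_d3d358_ag.Cw.DivA

/-! The closure of a point as an integral closed subscheme. -/

set_option autoImplicit false

namespace Pool.Agent.Lib.MP_d3d358_ag.Mv

open CategoryTheory AlgebraicGeometry Set Matrix Cw

theorem suba_surj {A B L : Type} [CommRing A] [CommRing B] [CommRing L] {ψ : A →+* B}
    (h : Function.Surjective ψ) (χ : B →+* L) (x : L) :
    (χ.comp ψ).IsIntegralElem x ↔ χ.IsIntegralElem x := by
  constructor
  · rintro ⟨p, hp, e⟩
    exact ⟨p.map ψ, hp.map ψ, by rwa [Polynomial.eval₂_map]⟩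
  · rintro ⟨p, hp, e⟩
    obtain ⟨q, rfl, -, hq⟩ := Polynomial.lifts_and_natDegree_eq_and_monic
      ((Polynomial.mem_lifts p).2 (Polynomial.map_surjective ψ h p)) hp
    exact ⟨q, hq, by rwa [Polynomial.eval₂_map] at e⟩

theorem suba_equiv {A K L : Type} [CommRing A] [CommRing K] [CommRing L] (φ : A →+* K)
    (e : K ≃+* L) (x : K) : (e.toRingHom.comp φ).IsIntegralElem (e x) ↔ φ.IsIntegralElem x := by
  refine exists_congr fun p => and_congr_right fun _ => ?_
  rw [← map_eq_zero_iff e.toRingHom e.injective, Polynomial.hom_eval₂]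
  rfl

theorem suba_image {X Y : Scheme.{0}} (f : X ⟶ Y) [QuasiCompact f] [IsIntegral X] :
    IsIntegral f.image := by
  have h1 : IsSchemeTheoreticallyDominant f.toImage := by
    refine ⟨Scheme.IdealSheafData.ext_of_iSup_eq_top
      (fun U : Y.affineOpens => ⟨f.imageι ⁻¹ᵁ U.1, U.2.preimage f.imageι⟩) ?_ fun U => ?_⟩
    · rw [← Scheme.Hom.preimage_iSup, iSup_affineOpens_eq_top, Scheme.Hom.preimage_top]
    · rw [Scheme.Hom.ker_apply]
      exact (RingHom.injective_iff_ker_eq_bot _).1 (f.toImage_app_injective U)
  have h2 := IsSchemeTheoreticallyDominant.isReduced f.toImage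
  have h3 : IsIrreducible (univ : Set f.image) := by
    rw [← f.toImage.denseRange.closure_range, ← image_univ]
    exact ((IrreducibleSpace.isIrreducible_univ X).image _
      f.toImage.continuous.continuousOn).closure
  have h4 : IrreducibleSpace f.image := (irreducibleSpace_def _).2 h3
  exact isIntegral_of_irreducibleSpace_of_isReduced _

variable {W Z : Sch}

/-- e.g. the subscheme of the vanishing ideal of the closure, or the scheme theoretic image of
`fromSpecResidueField` -/
theorem exists_sub (w : W.left) : ∃ (Z : Sch) (ι : Z ⟶ W) (_ : IsIntegral Z.left)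
    (_ : IsClosedImmersion ι.left), ι.left (genericPoint Z.left) = w := by
  let f := W.left.fromSpecResidueField w
  have h := suba_image f
  have hg : IsGenericPoint (f.toImage default) univ := by
    rw [isGenericPoint_def, ← f.toImage.denseRange.closure_range, range_unique]
  refine ⟨Over.mk (f.imageι ≫ W.hom), Over.homMk f.imageι rfl, h,
    inferInstanceAs (IsClosedImmersion f.imageι), ?_⟩
  change f.imageι (genericPoint f.image) = w
  rw [(genericPoint_spec f.image).eq hg, ← Scheme.Hom.comp_apply, f.toImage_imageι]
  exact Scheme.fromSpecResidueField_apply _ _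

theorem sub_field (ι : Z ⟶ W) [IsIntegral Z.left] [IsClosedImmersion ι.left] :
    ∃ e : Kp (ι.left (genericPoint Z.left)) ≃+* Z.left.functionField,
      ∀ z (h : ι.left (genericPoint Z.left) ⤳ ι.left z) g,
        IsIntegral (loc h) g ↔ IsIntegral (Z.left.presheaf.stalk z) (e g) := by
  have r (y) := ConcreteCategory.congr_hom
    (Scheme.residue_residueFieldMap ι.left (genericPoint Z.left)) y
  have b1 : Function.Bijective (ι.left.residueFieldMap (genericPoint Z.left)).hom := by
    refine ⟨RingHom.injective _, fun x => ?_⟩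
    obtain ⟨x, rfl⟩ := Z.left.residue_surjective _ x
    obtain ⟨y, rfl⟩ := ι.left.stalkMap_surjective _ x
    exact ⟨W.left.residue _ y, r y⟩
  have b2 : Function.Bijective (Z.left.residue (genericPoint Z.left)).hom :=
    ⟨RingHom.injective (R := Z.left.functionField) _, Z.left.residue_surjective _⟩
  refine ⟨(RingEquiv.ofBijective _ b1).trans (RingEquiv.ofBijective _ b2).symm, fun z h g => ?_⟩
  set e : Kp (ι.left (genericPoint Z.left)) ≃+* Z.left.functionField :=
    (RingEquiv.ofBijective _ b1).trans (RingEquiv.ofBijective _ b2).symm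
  let φ := (W.left.presheaf.stalkSpecializes h ≫ W.left.residue _).hom
  have k : e.toRingHom.comp φ = (algebraMap (Z.left.presheaf.stalk z) Z.left.functionField).comp
      (ι.left.stalkMap z).hom := by
    ext a
    refine (RingEquiv.ofBijective _ b2).symm_apply_eq.2 ((r _).trans
      (congrArg (Z.left.residue (genericPoint Z.left)) ?_))
    exact ConcreteCategory.congr_hom (Scheme.Hom.stalkSpecializes_stalkMap ι.left _ _
      ((genericPoint_spec Z.left).specializes trivial)) a
  refine (suba_surj φ.rangeRestrict_surjective (loc h).subtype g).symm.trans ?_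
  refine (suba_equiv φ e g).symm.trans ?_
  rw [k]
  exact suba_surj (ι.left.stalkMap_surjective z) _ _

end Pool.Agent.Lib.MP_d3d358_ag.Mv
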